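import Pool.Agent.Lib.MP_e9cf1e_co.Links

set_option autoImplicit false
set_option linter.unusedSectionVars false
set_option linter.unusedVariables false

/-!
Acyclicity: cones, deletion and link; the balanced complexes of the construction.
-/

namespace Pool.Agent.Lib.MP_e9cf1e_co

open Finset

section general

variable {V : Type*} [LinearOrder V] {k : Type*} [Field k] {L : Finset (Finset V)}

lemma support_linComb {W X : Type*} {f : W → (X →₀ k)} {z : W →₀ k} {x : X}
    (hx : x ∈ (Finsupp.linearCombination k f z).support) :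
    ∃ w ∈ z.support, x ∈ (f w).support := by
  by_contra hcon
  push Not at hcon
  rw [Finsupp.mem_support_iff] at hx
  apply hx
  rw [Finsupp.linearCombination_apply, Finsupp.sum, Finsupp.finsetSum_apply]
  refine sum_eq_zero (fun w hw => ?_)
  have := hcon w hw
  rw [Finsupp.notMem_support_iff] at this
  rw [Finsupp.smul_apply, this, smul_zero]

lemma support_bd {z : Finset V →₀ k} {G : Finset V} (hG : G ∈ (bd k z).support) :
    ∃ F ∈ z.support, ∃ v ∈ F, G = F.erase v := by
  unfold bd at hG
  obtain ⟨F, hF, h1⟩ := support_linComb hG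
  refine ⟨F, hF, ?_⟩
  by_contra hcon
  push Not at hcon
  rw [Finsupp.mem_support_iff] at h1
  apply h1
  rw [Finsupp.finsetSum_apply]
  refine sum_eq_zero (fun v hv => ?_)
  rw [Finsupp.smul_apply, Finsupp.single_eq_of_ne (hcon v hv), smul_zero]

lemma support_cone {w : V} {z : Finset V →₀ k} {G : Finset V} (hG : G ∈ (cone k w z).support) :
    ∃ F ∈ z.support, w ∉ F ∧ G = insert w F := by
  unfold cone at hG
  obtain ⟨F, hF, h1⟩ := support_linComb hG
  refine ⟨F, hF, ?_⟩
  by_cases hw : w ∈ F
  · rw [if_pos hw] at h1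
    simp at h1
  · rw [if_neg hw] at h1
    refine ⟨hw, ?_⟩
    by_contra hne
    rw [Finsupp.mem_support_iff] at h1
    exact h1 (Finsupp.single_eq_of_ne hne)

lemma bd_bd (z : Finset V →₀ k) : bd k (bd k z) = 0 := by
  have h1 : ∀ y : Finset V →₀ k,
      Finsupp.linearCombination k (fun F : Finset V => (Finsupp.single F 1 : Finset V →₀ k)) y =
        y := by
    intro y
    rw [Finsupp.linearCombination_apply]
    simp only [Finsupp.smul_single, smul_eq_mul, mul_one]
    exact Finsupp.sum_single y
  rw [← h1 (bd k (bd k z)), linearCombination_bd, linearCombination_bd, cob_cob]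
  simp

/-- A cone is acyclic. -/
lemma acyclic_cone (w : V) (h : ∀ G ∈ L, insert w G ∈ L) (n : ℕ) : Acyclic k L n := by
  intro i _ z hz hbd
  refine ⟨cone k w z, ?_, ?_⟩
  · intro G hG
    obtain ⟨F, hF, hwF, rfl⟩ := support_cone hG
    exact ⟨h F (hz F hF).1, by rw [card_insert_of_notMem hwF, (hz F hF).2]⟩
  · have := bd_cone k w z
    rwa [hbd, map_zero, add_zero] at this

/-- Acyclicity from deletion and link of a vertex. -/
theorem acyclic_of_del_link (hL : IsComplex L) (w : V) (n : ℕ)
    (h1 : Acyclic k (L.filter (fun G => w ∉ G)) (n + 1)) (h2 : Acyclic k (link L {w}) n) :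
    Acyclic k L (n + 1) := by
  intro i hi z hz hbd
  set z1 := z.filter (fun G => w ∈ G) with hz1
  set z0 := z.filter (fun G => ¬ w ∈ G) with hz0
  have hzz : z1 + z0 = z := Finsupp.filter_add_filter_not z _
  have hz1s : ∀ G ∈ z1.support, w ∈ G ∧ G ∈ L ∧ G.card = i := by
    intro G hG
    rw [hz1, Finsupp.support_filter, mem_filter] at hG
    exact ⟨hG.2, hz G hG.1⟩
  have hz0s : ∀ G ∈ z0.support, w ∉ G ∧ G ∈ L ∧ G.card = i := by
    intro G hG
    rw [hz0, Finsupp.support_filter, mem_filter] at hG
    exact ⟨hG.2, hz G hG.1⟩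
  have hbd0 : bd k z1 = - bd k z0 := by
    rw [← hzz, map_add] at hbd
    exact eq_neg_of_add_eq_zero_left hbd
  have hcone : cone k w (bd k z1) = z1 := by
    have h3 := bd_cone k w z1
    have h4 : cone k w z1 = 0 := by
      rw [← Finsupp.support_eq_empty, eq_empty_iff_forall_notMem]
      intro G hG
      obtain ⟨F, hF, hwF, _⟩ := support_cone hG
      exact hwF (hz1s F hF).1
    rwa [h4, map_zero, zero_add] at h3
  rcases i with _ | i
  · -- no face of cardinality zero contains `w`
    have h3 : z1 = 0 := by
      rw [← Finsupp.support_eq_empty, eq_empty_iff_forall_notMem]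
      intro G hG
      obtain ⟨h4, _, h5⟩ := hz1s G hG
      rw [card_eq_zero] at h5
      rw [h5] at h4
      exact notMem_empty _ h4
    rw [h3, zero_add] at hzz
    obtain ⟨y, hy, hyz⟩ := h1 0 hi z (by
      intro G hG
      rw [← hzz] at hG
      obtain ⟨h4, h5, h6⟩ := hz0s G hG
      exact ⟨mem_filter.mpr ⟨h5, h4⟩, h6⟩) hbd
    exact ⟨y, fun G hG => ⟨(mem_filter.mp (hy G hG).1).1, (hy G hG).2⟩, hyz⟩
  · have hus : ∀ G ∈ (bd k z1).support, G ∈ link L {w} ∧ G.card = i := by
      intro G hG
      obtain ⟨F, hF, v, hv, hGF⟩ := support_bd hG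
      obtain ⟨hwF, hFL, hFc⟩ := hz1s F hF
      have hwG : w ∉ G := by
        rw [hbd0, Finsupp.support_neg] at hG
        obtain ⟨F', hF', v', hv', rfl⟩ := support_bd hG
        exact fun h => (hz0s F' hF').1 (mem_of_mem_erase h)
      have hvw : v = w := by
        by_contra hne
        exact hwG (hGF ▸ mem_erase.mpr ⟨fun h => hne h.symm, hwF⟩)
      subst hvw
      refine ⟨?_, ?_⟩
      · rw [hL.mem_link]
        refine ⟨by simpa using hwG, ?_⟩
        rw [hGF, union_comm, ← insert_eq, insert_erase hv]
        exact hFL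
      · rw [hGF, card_erase_of_mem hv, hFc]; rfl
    obtain ⟨u', hu', hu'b⟩ := h2 i (by omega) (bd k z1) hus (bd_bd z1)
    have hu'w : ∀ G ∈ u'.support, w ∉ G ∧ G ∈ L ∧ insert w G ∈ L ∧ G.card = i + 1 := by
      intro G hG
      obtain ⟨h3, h4⟩ := hu' G hG
      have h5 := h3
      rw [hL.mem_link] at h3
      refine ⟨by simpa using h3.1, (mem_link.mp h5).1, ?_, h4⟩
      rw [insert_eq, union_comm]; exact h3.2
    have hz1eq : z1 = u' - bd k (cone k w u') := by
      have h3 := bd_cone k w u'
      rw [hu'b, hcone] at h3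
      exact eq_sub_of_add_eq' h3
    obtain ⟨t, ht, htb⟩ := h1 (i + 1) hi (z0 + u') (by
      intro G hG
      have h3 := Finsupp.support_add hG
      rw [mem_union] at h3
      rcases h3 with h3 | h3
      · obtain ⟨h4, h5, h6⟩ := hz0s G h3
        exact ⟨mem_filter.mpr ⟨h5, h4⟩, h6⟩
      · obtain ⟨h4, h5, _, h6⟩ := hu'w G h3
        exact ⟨mem_filter.mpr ⟨h5, h4⟩, h6⟩) (by
      rw [map_add, hu'b, hbd0, add_neg_cancel])
    refine ⟨t - cone k w u', ?_, ?_⟩
    · intro G hG
      have h3 := Finsupp.support_sub hG
      rw [mem_union] at h3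
      rcases h3 with h3 | h3
      · exact ⟨(mem_filter.mp (ht G h3).1).1, (ht G h3).2⟩
      · obtain ⟨F, hF, hwF, rfl⟩ := support_cone h3
        obtain ⟨_, _, h6, h7⟩ := hu'w F hF
        exact ⟨h6, by rw [card_insert_of_notMem hwF, h7]⟩
    · rw [map_sub, htb, ← hzz, hz1eq]
      abel

end general

section Cx

variable {d : ℕ} {C : Finset ℕ} {Γ : Finset (Finset ℕ)} {k : Type*} [Field k]

/-- Rainbow sets with colours in `C`. -/
def RbS (d : ℕ) (C : Finset ℕ) (G : Finset ℕ) : Prop :=
  (∀ x ∈ G, x % d ∈ C) ∧ ∀ x ∈ G, ∀ y ∈ G, x % d = y % d → x = y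

instance (d : ℕ) (C G : Finset ℕ) : Decidable (RbS d C G) := by
  unfold RbS; infer_instance

/-- The part of `G` consisting of non-special vertices. -/
def hi (d : ℕ) (G : Finset ℕ) : Finset ℕ := G.filter (fun x => d ≤ x)

/-- The complex whose faces are the rainbow sets with colours in `C` whose non-special part is a
face of `Γ`. -/
def Cx (d : ℕ) (C : Finset ℕ) (Γ : Finset (Finset ℕ)) : Finset (Finset ℕ) :=
  ((C ∪ Γ.sup id).powerset).filter (fun G => RbS d C G ∧ hi d G ∈ Γ)

lemma mem_Cx {G : Finset ℕ} : G ∈ Cx d C Γ ↔ RbS d C G ∧ hi d G ∈ Γ := by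
  unfold Cx
  rw [mem_filter, mem_powerset]
  constructor
  · exact fun h => h.2
  · intro h
    refine ⟨fun x hx => ?_, h⟩
    rw [mem_union]
    by_cases hxd : d ≤ x
    · right
      exact (le_sup (f := id) h.2 : hi d G ⊆ Γ.sup id) (mem_filter.mpr ⟨hx, hxd⟩)
    · left
      have := h.1.1 x hx
      rwa [Nat.mod_eq_of_lt (by omega)] at this

lemma RbS.mono {G H : Finset ℕ} (h : RbS d C G) (hH : H ⊆ G) : RbS d C H :=
  ⟨fun x hx => h.1 x (hH hx), fun x hx y hy => h.2 x (hH hx) y (hH hy)⟩

lemma isComplex_Cx (hΓ : IsComplex Γ) : IsComplex (Cx d C Γ) := by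
  constructor
  · rw [mem_Cx]
    refine ⟨⟨fun x hx => absurd hx (notMem_empty _), fun x hx => absurd hx (notMem_empty _)⟩, ?_⟩
    exact hΓ.empty_mem
  · intro F hF G hG
    rw [mem_Cx] at hF ⊢
    exact ⟨hF.1.mono hG, hΓ.down _ hF.2 _ (filter_subset_filter _ hG)⟩

lemma RbS.card_le {G : Finset ℕ} (h : RbS d C G) : G.card ≤ C.card := by
  apply card_le_card_of_injOn (fun x => x % d)
  · intro x hx; exact h.1 x hx
  · intro x hx y hy hxy; exact h.2 x hx y hy hxy

/-- The vertices of `Γ` are non-special, and its faces are rainbow with colours in `C`. -/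
def Good (d : ℕ) (C : Finset ℕ) (Γ : Finset (Finset ℕ)) : Prop :=
  ∀ H ∈ Γ, RbS d C H ∧ ∀ x ∈ H, d ≤ x

lemma rbS_self (hC : ∀ c ∈ C, c < d) : RbS d C C :=
  ⟨fun x hx => by rw [Nat.mod_eq_of_lt (hC x hx)]; exact hx, fun x hx y hy h => by
    rwa [Nat.mod_eq_of_lt (hC x hx), Nat.mod_eq_of_lt (hC y hy)] at h⟩

lemma maxCard_Cx (hΓ : IsComplex Γ) (hC : ∀ c ∈ C, c < d) : maxCard (Cx d C Γ) = C.card := by
  apply le_antisymm
  · refine Finset.sup_le (fun G hG => ?_)
    exact (mem_Cx.mp hG).1.card_le
  · refine card_le_maxCard (mem_Cx.mpr ⟨rbS_self hC, ?_⟩)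
    have : hi d C = ∅ := by
      unfold hi
      rw [filter_eq_empty_iff]
      intro x hx
      have := hC x hx
      omega
    rw [this]; exact hΓ.empty_mem

theorem acyclic_Cx (k : Type*) [Field k] : ∀ (n : ℕ) (C : Finset ℕ) (Γ : Finset (Finset ℕ)),
    Γ.card = n → IsComplex Γ → (∀ c ∈ C, c < d) → Good d C Γ → Acyclic k (Cx d C Γ) C.card := by
  intro n
  induction n using Nat.strong_induction_on with
  | _ n ih =>
    intro C Γ hn hΓ hC hg
    by_cases hw : ∃ w, {w} ∈ Γ
    · obtain ⟨w, hw⟩ := hw
      have hwd : d ≤ w := (hg _ hw).2 w (mem_singleton_self _)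
      have hwC : w % d ∈ C := (hg _ hw).1.1 w (mem_singleton_self _)
      obtain ⟨m, hm⟩ : ∃ m, C.card = m + 1 :=
        ⟨C.card - 1, by have := card_pos.mpr ⟨_, hwC⟩; omega⟩
      rw [hm]
      refine acyclic_of_del_link (isComplex_Cx hΓ) w m ?_ ?_
      · -- deletion
        have h1 : (Cx d C Γ).filter (fun G => w ∉ G) = Cx d C (Γ.filter (fun G => w ∉ G)) := by
          ext G
          rw [mem_filter, mem_Cx, mem_Cx, mem_filter]
          have : w ∉ hi d G ↔ w ∉ G := by
            unfold hi
            rw [mem_filter]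
            constructor
            · intro h h2; exact h ⟨h2, hwd⟩
            · intro h h2; exact h h2.1
          rw [this]
          tauto
        rw [h1, ← hm]
        refine ih _ ?_ C _ rfl ?_ hC ?_
        · rw [← hn]
          apply card_lt_card
          rw [ssubset_iff_subset_ne]
          refine ⟨filter_subset _ _, fun h => ?_⟩
          rw [← h, mem_filter] at hw
          exact hw.2 (mem_singleton_self _)
        · constructor
          · exact mem_filter.mpr ⟨hΓ.empty_mem, notMem_empty _⟩
          · intro F hF G hG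
            rw [mem_filter] at hF ⊢
            exact ⟨hΓ.down _ hF.1 _ hG, fun h => hF.2 (hG h)⟩
        · intro H hH
          exact hg H (mem_filter.mp hH).1
      · -- link
        have h1 : link (Cx d C Γ) {w} = Cx d (C.erase (w % d)) (link Γ {w}) := by
          ext G
          rw [(isComplex_Cx hΓ).mem_link, mem_Cx, mem_Cx, hΓ.mem_link, disjoint_singleton_right,
            disjoint_singleton_right]
          have e1 : hi d (G ∪ {w}) = hi d G ∪ {w} := by
            unfold hi
            rw [filter_union, filter_singleton, if_pos hwd]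
          have e2 : w ∉ hi d G ↔ w ∉ G := by
            unfold hi
            rw [mem_filter]
            constructor
            · intro h h2; exact h ⟨h2, hwd⟩
            · intro h h2; exact h h2.1
          rw [e1, e2]
          constructor
          · rintro ⟨h2, h3, h4⟩
            refine ⟨⟨fun x hx => ?_, fun x hx y hy => h3.2 x (mem_union_left _ hx) y
              (mem_union_left _ hy)⟩, h2, h4⟩
            rw [mem_erase]
            refine ⟨fun h5 => ?_, h3.1 x (mem_union_left _ hx)⟩
            have := h3.2 x (mem_union_left _ hx) w (mem_union_right _ (mem_singleton_self _)) h5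
            exact h2 (this ▸ hx)
          · rintro ⟨h2, h3, h4⟩
            refine ⟨h3, ⟨?_, ?_⟩, h4⟩
            · intro x hx
              rw [mem_union, mem_singleton] at hx
              rcases hx with hx | rfl
              · exact mem_of_mem_erase (h2.1 x hx)
              · exact hwC
            · intro x hx y hy hxy
              rw [mem_union, mem_singleton] at hx hy
              rcases hx with hx | rfl
              · rcases hy with hy | rfl
                · exact h2.2 x hx y hy hxy
                · exact absurd hxy (mem_erase.mp (h2.1 x hx)).1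
              · rcases hy with hy | rfl
                · exact absurd hxy.symm (mem_erase.mp (h2.1 y hy)).1
                · rfl
        rw [h1]
        have h2 : m = (C.erase (w % d)).card := by
          rw [card_erase_of_mem hwC, hm]; rfl
        rw [h2]
        refine ih _ ?_ _ _ rfl (hΓ.link hw) (fun c hc => hC c (mem_of_mem_erase hc)) ?_
        · rw [← hn]
          apply card_lt_card
          rw [ssubset_iff_subset_ne]
          refine ⟨filter_subset _ _, fun h => ?_⟩
          rw [← h, hΓ.mem_link] at hw
          have := hw.1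
          simp at this
        · intro H hH
          rw [hΓ.mem_link, disjoint_singleton_right] at hH
          obtain ⟨h3, h4⟩ := hH
          have h5 := hg _ h4
          refine ⟨⟨fun x hx => ?_, fun x hx y hy => h5.1.2 x (mem_union_left _ hx) y
              (mem_union_left _ hy)⟩, fun x hx => h5.2 x (mem_union_left _ hx)⟩
          rw [mem_erase]
          refine ⟨fun h6 => ?_, h5.1.1 x (mem_union_left _ hx)⟩
          have := h5.1.2 x (mem_union_left _ hx) w (mem_union_right _ (mem_singleton_self _)) h6
          exact h3 (this ▸ hx)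
    · -- no vertices
      have hG0 : ∀ G ∈ Cx d C Γ, hi d G = ∅ := by
        intro G hG
        rw [mem_Cx] at hG
        by_contra hne
        obtain ⟨w, hw'⟩ := nonempty_iff_ne_empty.mpr hne
        exact hw ⟨w, hΓ.down _ hG.2 _ (by simpa using hw')⟩
      rcases C.eq_empty_or_nonempty with rfl | ⟨c, hc⟩
      · intro i hi'
        rw [card_empty] at hi'
        omega
      · apply acyclic_cone c
        intro G hG
        have h0 := hG0 G hG
        rw [mem_Cx] at hG ⊢
        have hlt : ∀ x ∈ G, x < d := by
          intro x hx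
          by_contra hcon
          have : x ∈ hi d G := mem_filter.mpr ⟨hx, by omega⟩
          rw [h0] at this
          exact notMem_empty _ this
        have hcd := hC c hc
        refine ⟨⟨?_, ?_⟩, ?_⟩
        · intro x hx
          rw [mem_insert] at hx
          rcases hx with rfl | hx
          · rw [Nat.mod_eq_of_lt hcd]; exact hc
          · exact hG.1.1 x hx
        · intro x hx y hy hxy
          have hx' : x < d := by
            rw [mem_insert] at hx
            rcases hx with rfl | hx
            · exact hcd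
            · exact hlt x hx
          have hy' : y < d := by
            rw [mem_insert] at hy
            rcases hy with rfl | hy
            · exact hcd
            · exact hlt y hy
          rwa [Nat.mod_eq_of_lt hx', Nat.mod_eq_of_lt hy'] at hxy
        · have : hi d (insert c G) = ∅ := by
            unfold hi
            rw [filter_eq_empty_iff]
            intro x hx
            rw [mem_insert] at hx
            rcases hx with rfl | hx
            · omega
            · have := hlt x hx; omega
          rw [this]; exact hΓ.empty_mem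

/-- Links in `Cx` are of the same form. -/
lemma link_Cx (hΓ : IsComplex Γ) {G : Finset ℕ} (hG : G ∈ Cx d C Γ) :
    link (Cx d C Γ) G = Cx d (C \ G.image (· % d))
      ((link Γ (hi d G)).filter (fun H => RbS d (C \ G.image (· % d)) H ∧ ∀ x ∈ H, d ≤ x)) := by
  have hG' := mem_Cx.mp hG
  ext H
  rw [(isComplex_Cx hΓ).mem_link, mem_Cx, mem_Cx, mem_filter, hΓ.mem_link]
  have e1 : hi d (H ∪ G) = hi d H ∪ hi d G := filter_union _ _ _
  rw [e1]
  constructor
  · rintro ⟨h1, h2, h3⟩
    have h4 : RbS d (C \ G.image (· % d)) H := by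
      refine ⟨fun x hx => ?_, fun x hx y hy => h2.2 x (mem_union_left _ hx) y
        (mem_union_left _ hy)⟩
      rw [mem_sdiff, mem_image]
      refine ⟨h2.1 x (mem_union_left _ hx), ?_⟩
      rintro ⟨y, hy, hyx⟩
      have := h2.2 x (mem_union_left _ hx) y (mem_union_right _ hy) hyx.symm
      exact (disjoint_left.mp h1 hx) (this ▸ hy)
    refine ⟨h4, ⟨?_, h3⟩, h4.mono (filter_subset _ _), fun x hx => (mem_filter.mp hx).2⟩
    exact disjoint_of_subset_left (filter_subset _ _) (disjoint_of_subset_right
      (filter_subset _ _) h1)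
  · rintro ⟨h1, ⟨h2, h3⟩, h4, h5⟩
    refine ⟨?_, ⟨?_, ?_⟩, h3⟩
    · rw [disjoint_left]
      intro x hx hx'
      have := h1.1 x hx
      rw [mem_sdiff, mem_image] at this
      exact this.2 ⟨x, hx', rfl⟩
    · intro x hx
      rw [mem_union] at hx
      rcases hx with hx | hx
      · exact (mem_sdiff.mp (h1.1 x hx)).1
      · exact hG'.1.1 x hx
    · intro x hx y hy hxy
      rw [mem_union] at hx hy
      rcases hx with hx | hx
      · rcases hy with hy | hy
        · exact h1.2 x hx y hy hxy
        · have := h1.1 x hx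
          rw [mem_sdiff, mem_image] at this
          exact absurd ⟨y, hy, hxy.symm⟩ this.2
      · rcases hy with hy | hy
        · have := h1.1 y hy
          rw [mem_sdiff, mem_image] at this
          exact absurd ⟨x, hx, hxy⟩ this.2
        · exact hG'.1.2 x hx y hy hxy

theorem isCM_Cx (k : Type*) [Field k] (hΓ : IsComplex Γ) (hC : ∀ c ∈ C, c < d) :
    IsCM k (Cx d C Γ) := by
  intro G hG
  rw [link_Cx hΓ hG]
  have hG' := mem_Cx.mp hG
  have h1 : IsComplex ((link Γ (hi d G)).filter
      (fun H => RbS d (C \ G.image (· % d)) H ∧ ∀ x ∈ H, d ≤ x)) := by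
    constructor
    · rw [mem_filter]
      refine ⟨(hΓ.link hG'.2).empty_mem, ⟨fun x hx => absurd hx (notMem_empty _),
        fun x hx => absurd hx (notMem_empty _)⟩, fun x hx => absurd hx (notMem_empty _)⟩
    · intro F hF H hH
      rw [mem_filter] at hF ⊢
      exact ⟨(hΓ.link hG'.2).down _ hF.1 _ hH, hF.2.1.mono hH, fun x hx => hF.2.2 x (hH hx)⟩
  have h2 : ∀ c ∈ C \ G.image (· % d), c < d := fun c hc => hC c (mem_sdiff.mp hc).1
  rw [maxCard_Cx h1 h2]
  exact acyclic_Cx k _ _ _ rfl h1 h2 (fun H hH => (mem_filter.mp hH).2)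

end Cx

end Pool.Agent.Lib.MP_e9cf1e_co
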