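import Mathlib

set_option autoImplicit false
set_option linter.unusedSectionVars false
set_option linter.unusedVariables false

/-!
Hilbert functions of (homogeneous) ideals of a polynomial ring in finitely many variables.
-/

namespace Pool.Agent.Lib.MP_e9cf1e_co

open MvPolynomial

section LA

variable {K M A B : Type*} [Field K] [AddCommGroup M] [Module K M] [AddCommGroup A] [Module K A]
  [AddCommGroup B] [Module K B]

lemma finrank_range_eq_of_ker (f : M →ₗ[K] A) (g : M →ₗ[K] B)
    (h : LinearMap.ker f = LinearMap.ker g) :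
    Module.finrank K (LinearMap.range f) = Module.finrank K (LinearMap.range g) := by
  have e1 := f.quotKerEquivRange
  have e2 := g.quotKerEquivRange
  rw [← h] at e2
  exact (e1.symm.trans e2).finrank_eq

end LA

variable {V K : Type*} [Field K]

/-- Homogeneous ideals. -/
def Homog (I : Ideal (MvPolynomial V K)) : Prop :=
  ∀ f ∈ I, ∀ n, homogeneousComponent n f ∈ I

/-- The map from the degree `i` part of the polynomial ring to the quotient by `I`. -/
noncomputable def ev (I : Ideal (MvPolynomial V K)) (i : ℕ) :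
    homogeneousSubmodule V K i →ₗ[K] (MvPolynomial V K ⧸ I) :=
  (Ideal.Quotient.mkₐ K I).toLinearMap ∘ₗ (homogeneousSubmodule V K i).subtype

/-- The Hilbert function of the quotient by `I`. -/
noncomputable def Hf (I : Ideal (MvPolynomial V K)) (i : ℕ) : ℕ :=
  Module.finrank K (LinearMap.range (ev I i))

lemma ev_apply (I : Ideal (MvPolynomial V K)) (i : ℕ) (f : homogeneousSubmodule V K i) :
    ev I i f = Ideal.Quotient.mk I (f : MvPolynomial V K) := rfl

lemma mem_ker_ev {I : Ideal (MvPolynomial V K)} {i : ℕ} {f : homogeneousSubmodule V K i} :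
    f ∈ LinearMap.ker (ev I i) ↔ (f : MvPolynomial V K) ∈ I := by
  rw [LinearMap.mem_ker, ev_apply, Ideal.Quotient.eq_zero_iff_mem]

/-- The colon ideal `I : x`. -/
noncomputable def col (I : Ideal (MvPolynomial V K)) (x : MvPolynomial V K) : Ideal (MvPolynomial V K) :=
  Submodule.comap (LinearMap.lsmul (MvPolynomial V K) (MvPolynomial V K) x) I

lemma mem_col {I : Ideal (MvPolynomial V K)} {x f : MvPolynomial V K} :
    f ∈ col I x ↔ x * f ∈ I := by
  unfold col
  rw [Submodule.mem_comap]
  rfl

lemma homogeneousComponent_mul_lin {x f : MvPolynomial V K} (hx : x ∈ homogeneousSubmodule V K 1)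
    (n : ℕ) : homogeneousComponent (n + 1) (x * f) = x * homogeneousComponent n f := by
  conv_lhs => rw [← sum_homogeneousComponent f, Finset.mul_sum, map_sum]
  have h1 : ∀ i, homogeneousComponent (n + 1) (x * homogeneousComponent i f) =
      if i = n then x * homogeneousComponent n f else 0 := by
    intro i
    have h2 : x * homogeneousComponent i f ∈ homogeneousSubmodule V K (1 + i) :=
      (mem_homogeneousSubmodule _ _).mpr
        (((mem_homogeneousSubmodule _ _).mp hx).mul (homogeneousComponent_isHomogeneous i f))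
    rw [homogeneousComponent_of_mem h2]
    by_cases h : i = n
    · subst h
      rw [if_pos (by ring), if_pos rfl]
    · rw [if_neg (by omega), if_neg h]
  simp only [h1]
  rw [Finset.sum_ite_eq']
  split_ifs with h
  · rfl
  · rw [Finset.mem_range, not_lt] at h
    rw [homogeneousComponent_eq_zero _ _ (by omega), mul_zero]

lemma homogeneousComponent_zero_mul_lin {x f : MvPolynomial V K}
    (hx : x ∈ homogeneousSubmodule V K 1) : homogeneousComponent 0 (x * f) = 0 := by
  rw [homogeneousComponent_zero]
  have : coeff 0 (x * f) = coeff 0 x * coeff 0 f := by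
    exact map_mul (constantCoeff (R := K) (σ := V)) x f
  rw [this]
  have h2 : coeff 0 x = 0 := by
    apply ((mem_homogeneousSubmodule _ _).mp hx).coeff_eq_zero
    simp
  rw [h2, zero_mul, C_0]

lemma Homog.col {I : Ideal (MvPolynomial V K)} (h : Homog I) {x : MvPolynomial V K}
    (hx : x ∈ homogeneousSubmodule V K 1) : Homog (col I x) := by
  intro f hf n
  rw [mem_col] at hf ⊢
  rw [← homogeneousComponent_mul_lin hx]
  exact h _ hf _

lemma Homog.sup_span {I : Ideal (MvPolynomial V K)} (h : Homog I) {x : MvPolynomial V K}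
    (hx : x ∈ homogeneousSubmodule V K 1) : Homog (I ⊔ Ideal.span {x}) := by
  intro f hf n
  rw [Submodule.mem_sup] at hf
  obtain ⟨a, ha, b, hb, rfl⟩ := hf
  rw [Ideal.mem_span_singleton'] at hb
  obtain ⟨c, rfl⟩ := hb
  rw [map_add]
  refine Ideal.add_mem _ (Ideal.mem_sup_left (h _ ha _)) (Ideal.mem_sup_right ?_)
  rw [mul_comm]
  rcases n with _ | n
  · rw [homogeneousComponent_zero_mul_lin hx]; exact Ideal.zero_mem _
  · rw [homogeneousComponent_mul_lin hx]
    exact Ideal.mul_mem_right _ _ (Ideal.mem_span_singleton_self _)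

section Fin

variable [Finite V]

instance fd_hs (i : ℕ) : FiniteDimensional K (homogeneousSubmodule V K i) :=
  Module.Finite.iff_fg.mpr (homogeneousSubmodule_fg V K i)

/-- The fundamental recursion for Hilbert functions. -/
lemma Hf_rec {I : Ideal (MvPolynomial V K)} (h : Homog I) {x : MvPolynomial V K}
    (hx : x ∈ homogeneousSubmodule V K 1) (i : ℕ) :
    Hf I (i + 1) = Hf (I ⊔ Ideal.span {x}) (i + 1) + Hf (col I x) i := by
  set g : homogeneousSubmodule V K i →ₗ[K] (MvPolynomial V K ⧸ I) :=
    (Ideal.Quotient.mkₐ K I).toLinearMap ∘ₗ (LinearMap.mulLeft K x) ∘ₗ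
      (homogeneousSubmodule V K i).subtype with hg
  have hgapp : ∀ f, g f = Ideal.Quotient.mk I (x * (f : MvPolynomial V K)) := fun f => rfl
  have h1 : Hf (col I x) i = Module.finrank K (LinearMap.range g) := by
    unfold Hf
    apply finrank_range_eq_of_ker
    ext f
    rw [mem_ker_ev, mem_col, LinearMap.mem_ker, hgapp, Ideal.Quotient.eq_zero_iff_mem]
  set p : (MvPolynomial V K ⧸ I) →ₗ[K] (MvPolynomial V K ⧸ (I ⊔ Ideal.span {x})) :=
    (Ideal.Quotient.factorₐ K (le_sup_left : I ≤ I ⊔ Ideal.span {x})).toLinearMap with hp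
  have hpapp : ∀ f, p (Ideal.Quotient.mk I f) = Ideal.Quotient.mk _ f := fun f => rfl
  set R := LinearMap.range (ev I (i + 1)) with hR
  have h2 : Hf (I ⊔ Ideal.span {x}) (i + 1) = Module.finrank K (LinearMap.range (p.domRestrict R)) := by
    have h5 : LinearMap.range (p.domRestrict R) =
        LinearMap.range (ev (I ⊔ Ideal.span {x}) (i + 1)) := by
      rw [LinearMap.domRestrict, LinearMap.range_comp, Submodule.range_subtype, hR,
        ← LinearMap.range_comp]
      rfl
    rw [h5]
    rfl
  have h3 : Module.finrank K (LinearMap.ker (p.domRestrict R)) =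
      Module.finrank K (LinearMap.range g) := by
    have h4 : (LinearMap.ker (p.domRestrict R)).map R.subtype = LinearMap.range g := by
      ext y
      rw [Submodule.mem_map, LinearMap.mem_range]
      constructor
      · rintro ⟨⟨z, hz⟩, hz2, rfl⟩
        rw [hR, LinearMap.mem_range] at hz
        obtain ⟨f, rfl⟩ := hz
        rw [LinearMap.mem_ker, LinearMap.domRestrict_apply] at hz2
        simp only at hz2
        rw [ev_apply, hpapp, Ideal.Quotient.eq_zero_iff_mem, Submodule.mem_sup] at hz2
        obtain ⟨a, ha, b, hb, hab⟩ := hz2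
        rw [Ideal.mem_span_singleton'] at hb
        obtain ⟨c, rfl⟩ := hb
        refine ⟨⟨homogeneousComponent i c, homogeneousComponent_mem _ _⟩, ?_⟩
        rw [hgapp, Submodule.subtype_apply]
        simp only
        rw [ev_apply, ← sub_eq_zero, ← map_sub, Ideal.Quotient.eq_zero_iff_mem]
        have h5 : homogeneousComponent (i + 1) (f : MvPolynomial V K) = f :=
          homogeneousComponent_eq_self ((mem_homogeneousSubmodule _ _).mp f.2)
        rw [← h5, ← hab, map_add, mul_comm c x, homogeneousComponent_mul_lin hx]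
        have : x * homogeneousComponent i c - (homogeneousComponent (i + 1) a +
            x * homogeneousComponent i c) = - homogeneousComponent (i + 1) a := by ring
        rw [this]
        exact neg_mem (h _ ha _)
      · rintro ⟨f, rfl⟩
        have hmem : x * (f : MvPolynomial V K) ∈ homogeneousSubmodule V K (i + 1) := by
          rw [mem_homogeneousSubmodule, add_comm]
          exact ((mem_homogeneousSubmodule _ _).mp hx).mul ((mem_homogeneousSubmodule _ _).mp f.2)
        refine ⟨⟨ev I (i + 1) ⟨_, hmem⟩, LinearMap.mem_range_self _ _⟩, ?_, ?_⟩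
        · rw [LinearMap.mem_ker, LinearMap.domRestrict_apply]
          simp only
          rw [ev_apply, hpapp, Ideal.Quotient.eq_zero_iff_mem]
          exact Ideal.mem_sup_right (Ideal.mul_mem_right _ _ (Ideal.mem_span_singleton_self _))
        · rw [hgapp, Submodule.subtype_apply]
          rfl
    rw [← h4]
    exact (Submodule.finrank_map_subtype_eq _ _).symm
  rw [h1, h2, ← h3]
  unfold Hf
  exact (LinearMap.finrank_range_add_finrank_ker _).symm

lemma Hf_mono {I I' : Ideal (MvPolynomial V K)} (h : I ≤ I') (i : ℕ) : Hf I' i ≤ Hf I i := by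
  have h5 : (LinearMap.range (ev I i)).map (Ideal.Quotient.factorₐ K h).toLinearMap =
      LinearMap.range (ev I' i) := by
    rw [← LinearMap.range_comp]
    rfl
  unfold Hf
  rw [← h5]
  exact Submodule.finrank_map_le _ _

lemma Hf_eq_zero_of_forall {I : Ideal (MvPolynomial V K)} {i : ℕ}
    (h : ∀ f : MvPolynomial V K, f.IsHomogeneous i → f ∈ I) : Hf I i = 0 := by
  unfold Hf
  have : LinearMap.range (ev I i) = ⊥ := by
    rw [LinearMap.range_eq_bot]
    ext f
    rw [ev_apply, Ideal.Quotient.eq_zero_iff_mem.mpr (h _ ((mem_homogeneousSubmodule _ _).mp f.2))]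
    rfl
  rw [this]
  exact finrank_bot _ _

lemma Hf_eq_zero_of_vars {I : Ideal (MvPolynomial V K)} (h : ∀ v, X v ∈ I) (i : ℕ) :
    Hf I (i + 1) = 0 := by
  apply Hf_eq_zero_of_forall
  intro f hf
  rw [← support_sum_monomial_coeff f]
  refine Ideal.sum_mem _ (fun m hm => ?_)
  have hdeg : m.degree = i + 1 := by
    by_contra hne
    exact (mem_support_iff.mp hm) (hf.coeff_eq_zero hne)
  have hne : m ≠ 0 := by
    rintro rfl
    simp at hdeg
  obtain ⟨v, hv⟩ := Finsupp.support_nonempty_iff.mpr hne
  have h1 : (X v : MvPolynomial V K) ∣ monomial m (coeff m f) :=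
    X_dvd_monomial.mpr (Or.inr (Finsupp.mem_support_iff.mp hv))
  exact Ideal.mem_of_dvd _ h1 (h v)

lemma Hf_zero_le (I : Ideal (MvPolynomial V K)) : Hf I 0 ≤ 1 := by
  classical
  unfold Hf
  refine finrank_le_one ⟨ev I 0 ⟨1, (mem_homogeneousSubmodule _ _).mpr (isHomogeneous_one _ _)⟩,
    LinearMap.mem_range_self _ _⟩ ?_
  rintro ⟨w, hw⟩
  rw [LinearMap.mem_range] at hw
  obtain ⟨f, rfl⟩ := hw
  refine ⟨coeff 0 (f : MvPolynomial V K), ?_⟩
  apply Subtype.ext
  simp only [Submodule.coe_smul]
  rw [← map_smul]
  congr 1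
  apply Subtype.ext
  simp only [Submodule.coe_smul]
  rw [← homogeneousComponent_eq_self ((mem_homogeneousSubmodule _ _).mp f.2),
    homogeneousComponent_zero, smul_eq_C_mul, mul_one, coeff_C, if_pos rfl]

lemma Hf_eq_zero_of_zero {I : Ideal (MvPolynomial V K)} (h : Hf I 0 = 0) (i : ℕ) : Hf I i = 0 := by
  unfold Hf at h
  have h1 : LinearMap.range (ev I 0) = ⊥ := Submodule.finrank_eq_zero.mp h
  rw [LinearMap.range_eq_bot] at h1
  have h2 : (1 : MvPolynomial V K) ∈ I := by
    have := LinearMap.congr_fun h1 ⟨1, (mem_homogeneousSubmodule _ _).mpr (isHomogeneous_one _ _)⟩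
    rw [ev_apply] at this
    exact Ideal.Quotient.eq_zero_iff_mem.mp this
  apply Hf_eq_zero_of_forall
  intro f _
  rw [(Ideal.eq_top_iff_one _).mpr h2]
  trivial

end Fin

/-- The ideal generated by the variables in `T`. -/
noncomputable def varI (K : Type*) [Field K] (T : Finset V) : Ideal (MvPolynomial V K) :=
  Ideal.span ((fun v => (X v : MvPolynomial V K)) '' (T : Set V))

lemma X_mem_varI {T : Finset V} {v : V} (hv : v ∈ T) : (X v : MvPolynomial V K) ∈ varI K T :=
  Ideal.subset_span ⟨v, hv, rfl⟩

lemma varI_le {T : Finset V} {I : Ideal (MvPolynomial V K)} (h : ∀ v ∈ T, X v ∈ I) :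
    varI K T ≤ I := by
  unfold varI
  rw [Ideal.span_le]
  rintro _ ⟨v, hv, rfl⟩
  exact h v hv

lemma varI_empty : varI K (∅ : Finset V) = ⊥ := by
  unfold varI
  simp

lemma varI_insert [DecidableEq V] (T : Finset V) (v : V) :
    varI K (insert v T) = varI K T ⊔ Ideal.span {X v} := by
  unfold varI
  rw [Finset.coe_insert, Set.image_insert_eq, Ideal.span_insert, sup_comm]

lemma X_mem_hs (v : V) : (X v : MvPolynomial V K) ∈ homogeneousSubmodule V K 1 :=
  (mem_homogeneousSubmodule _ _).mpr (isHomogeneous_X _ _)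

lemma Homog.sup_varI {I : Ideal (MvPolynomial V K)} (h : Homog I) (T : Finset V) :
    Homog (I ⊔ varI K T) := by
  classical
  induction T using Finset.induction_on with
  | empty => rw [varI_empty, sup_bot_eq]; exact h
  | insert a T ha ih =>
    rw [varI_insert, ← sup_assoc]
    exact ih.sup_span (X_mem_hs a)

lemma le_col (I : Ideal (MvPolynomial V K)) (x : MvPolynomial V K) : I ≤ col I x := by
  intro f hf
  rw [mem_col]
  exact Ideal.mul_mem_left _ _ hf

lemma col_mono {I I' : Ideal (MvPolynomial V K)} (h : I ≤ I') (x : MvPolynomial V K) :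
    col I x ≤ col I' x := by
  intro f hf
  rw [mem_col] at hf ⊢
  exact h hf

/-- Filtration of the Hilbert function along a set of variables. -/
lemma filtration [Finite V] {I : Ideal (MvPolynomial V K)} (h : Homog I) (T : Finset V) :
    ∃ Q : V → Ideal (MvPolynomial V K), (∀ w ∈ T, Homog (Q w) ∧ col I (X w) ≤ Q w) ∧
      ∀ i, Hf I (i + 1) = Hf (I ⊔ varI K T) (i + 1) + ∑ w ∈ T, Hf (Q w) i := by
  classical
  induction T using Finset.induction_on with
  | empty =>
    refine ⟨fun _ => ⊤, fun w hw => absurd hw (Finset.notMem_empty _), fun i => ?_⟩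
    rw [varI_empty, sup_bot_eq, Finset.sum_empty, add_zero]
  | insert a T ha ih =>
    obtain ⟨Q, hQ, hsum⟩ := ih
    refine ⟨Function.update Q a (col (I ⊔ varI K T) (X a)), ?_, ?_⟩
    · intro w hw
      rw [Finset.mem_insert] at hw
      by_cases hwa : w = a
      · subst hwa
        rw [Function.update_self]
        exact ⟨(h.sup_varI T).col (X_mem_hs _), col_mono le_sup_left _⟩
      · rw [Function.update_of_ne hwa]
        exact hQ w (hw.resolve_left hwa)
    · intro i
      rw [hsum i, Hf_rec (h.sup_varI T) (X_mem_hs a), varI_insert, ← sup_assoc,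
        Finset.sum_insert ha, Function.update_self, add_assoc]
      congr 2
      refine Finset.sum_congr rfl (fun w hw => ?_)
      have hwa : w ≠ a := fun hwa => ha (by rw [← hwa]; exact hw)
      rw [Function.update_of_ne hwa]

end Pool.Agent.Lib.MP_e9cf1e_co
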