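import Pool.Agent.Lib.MP_e9cf1e_co.FFK
import Pool.Agent.Lib.MP_e9cf1e_co.Hilb

set_option autoImplicit false
set_option linter.unusedSectionVars false
set_option linter.unusedVariables false

/-!
Hilbert functions of quotients of Stanley-Reisner rings of flag complexes by linear forms
satisfy the Frankl-Füredi-Kalai inequalities.
-/

namespace Pool.Agent.Lib.MP_e9cf1e_co

open MvPolynomial Finset
open scoped FinsetFamily Classical

variable {V K : Type*} [Field K]

/-- The class of ideals to which the induction applies. -/
noncomputable def Cls (A : V → V → Prop) : ℕ → Finset V → Ideal (MvPolynomial V K) → Prop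
  | 0, _, I => ∀ v, X v ∈ I
  | r + 1, W, I => (W = ∅ → ∀ v, X v ∈ I) ∧
      ∀ v ∈ W, Cls A r (W.filter (fun w => A v w))
        (I ⊔ varI K (W.filter (fun w => w ≠ v ∧ ¬ A v w)))

lemma Cls.mono {A : V → V → Prop} : ∀ {r : ℕ} {W : Finset V} {I I' : Ideal (MvPolynomial V K)},
    I ≤ I' → Cls A r W I → Cls A r W I' := by
  intro r
  induction r with
  | zero =>
    intro W I I' h hc v
    exact h (hc v)
  | succ r ih =>
    intro W I I' h hc
    exact ⟨fun hW v => h (hc.1 hW v), fun v hv => ih (sup_le_sup_right h _) (hc.2 v hv)⟩

theorem cls_bound [Finite V] {A : V → V → Prop} (hsymm : ∀ u v, A u v → A v u)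
    {e : V → ℕ} (he : Function.Injective e) (N : ℕ) :
    ∀ (r : ℕ), r ≤ N → ∀ (W : Finset V) (I : Ideal (MvPolynomial V K)), Homog I →
      (∀ u v, u ≠ v → ¬ A u v → X u * X v ∈ I) → Cls A r W I →
      (∀ k, r < k → Hf I k = 0) ∧
      ∀ k, ∃ 𝒜, Fam N (range r) (k + 1) 𝒜 ∧ 𝒜.card = Hf I (k + 1) ∧ (∂ 𝒜).card ≤ Hf I k := by
  intro r
  induction r with
  | zero =>
    intro _ W I hI hprod hcls
    have h0 : ∀ k, Hf I (k + 1) = 0 := Hf_eq_zero_of_vars hcls
    refine ⟨fun k hk => ?_, fun k => ⟨∅, ?_, ?_, ?_⟩⟩
    · obtain ⟨j, rfl⟩ : ∃ j, k = j + 1 := ⟨k - 1, by omega⟩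
      exact h0 j
    · intro B hB; simp at hB
    · rw [h0, card_empty]
    · rw [shadow_empty, card_empty]; exact Nat.zero_le _
  | succ r ih =>
    intro hrN W I hI hprod hcls
    rcases W.eq_empty_or_nonempty with hW | hW
    · have h0 : ∀ k, Hf I (k + 1) = 0 := Hf_eq_zero_of_vars (hcls.1 hW)
      refine ⟨fun k hk => ?_, fun k => ⟨∅, ?_, ?_, ?_⟩⟩
      · obtain ⟨j, rfl⟩ : ∃ j, k = j + 1 := ⟨k - 1, by omega⟩
        exact h0 j
      · intro B hB; simp at hB
      · rw [h0, card_empty]
      · rw [shadow_empty, card_empty]; exact Nat.zero_le _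
    · set T : V → Finset V := fun v => W.filter (fun w => w ≠ v ∧ ¬ A v w) with hT
      set Rv : V → Ideal (MvPolynomial V K) := fun v => I ⊔ varI K (T v) with hRv
      have hRh : ∀ v, Homog (Rv v) := fun v => hI.sup_varI _
      have hRp : ∀ v, ∀ a b, a ≠ b → ¬ A a b → X a * X b ∈ Rv v := fun v a b hab hA =>
        Ideal.mem_sup_left (hprod a b hab hA)
      have hRc : ∀ v ∈ W, Cls A r (W.filter (fun w => A v w)) (Rv v) := hcls.2
      -- the filtration
      have hfil := fun v => filtration hI (T v)
      choose Q hQ hsum using hfil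
      have hRQ : ∀ v, ∀ w ∈ T v, Rv w ≤ Q v w := by
        intro v w hw
        have h1 := (hQ v w hw).2
        refine sup_le ((le_col I (X w)).trans h1) (varI_le (fun u hu => h1 ?_))
        rw [mem_col]
        rw [hT, mem_filter] at hu
        exact hprod w u (fun h => hu.2.1 h.symm) hu.2.2
      have hTW : ∀ v, ∀ w ∈ T v, w ∈ W := fun v w hw => (mem_filter.mp hw).1
      have hQp : ∀ v, ∀ w ∈ T v, ∀ a b, a ≠ b → ¬ A a b → X a * X b ∈ Q v w :=
        fun v w hw a b hab hA => hRQ v w hw (hRp w a b hab hA)
      have ihR := fun v (hv : v ∈ W) => ih (by omega) _ (Rv v) (hRh v) (hRp v) (hRc v hv)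
      have ihQ := fun v w (hw : w ∈ T v) => ih (by omega) _ (Q v w) (hQ v w hw).1 (hQp v w hw)
        (Cls.mono (hRQ v w hw) (hRc w (hTW v w hw)))
      constructor
      · intro k hk
        obtain ⟨j, rfl⟩ : ∃ j, k = j + 1 := ⟨k - 1, by omega⟩
        obtain ⟨v, hv⟩ := hW
        rw [hsum v j, (ihR v hv).1 (j + 1) (by omega), zero_add]
        exact sum_eq_zero (fun w hw => (ihQ v w hw).1 j (by omega))
      · intro k
        rcases k with _ | k
        · -- singletons of the new colour
          by_cases h0 : Hf I 0 = 0
          · refine ⟨∅, ?_, ?_, ?_⟩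
            · intro B hB; simp at hB
            · rw [Hf_eq_zero_of_zero h0, card_empty]
            · rw [shadow_empty, card_empty]; exact Nat.zero_le _
          · refine ⟨(range (Hf I 1)).image (fun j => {N * j + r}), ?_, ?_, ?_⟩
            · intro B hB
              rw [mem_image] at hB
              obtain ⟨j, _, rfl⟩ := hB
              refine ⟨card_singleton _, ?_, ?_⟩
              · intro x hx
                rw [mem_singleton] at hx
                subst hx
                rw [Nat.mul_add_mod, Nat.mod_eq_of_lt (by omega), mem_range]; omega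
              · intro x hx y hy _
                rw [mem_singleton] at hx hy
                rw [hx, hy]
            · rw [card_image_of_injective, card_range]
              intro a b hab
              have h1 : N * a + r = N * b + r := by
                have := singleton_injective hab
                exact this
              exact Nat.eq_of_mul_eq_mul_left (by omega) (Nat.add_right_cancel h1)
            · have h1 : ∂ ((range (Hf I 1)).image (fun j => ({N * j + r} : Finset ℕ))) ⊆ {∅} := by
                intro B hB
                rw [mem_shadow_iff] at hB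
                obtain ⟨C, hC, x, hx, rfl⟩ := hB
                rw [mem_image] at hC
                obtain ⟨j, _, rfl⟩ := hC
                rw [mem_singleton] at hx
                rw [hx, mem_singleton]
                simp
              have h2 := card_le_card h1
              rw [card_singleton] at h2
              omega
        · -- main case
          obtain ⟨v, hv, hmax⟩ := exists_max_image W (fun v => Hf (Rv v) (k + 1)) hW
          obtain ⟨𝒜, h𝒜, h𝒜c, h𝒜s⟩ := (ihR v hv).2 (k + 1)
          obtain ⟨ℐ, hℐ, hℐc⟩ := h𝒜.exists_ini
          have hrange : ∀ j ∈ range r, j < N := fun j hj => by rw [mem_range] at hj; omega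
          have hℐs : (∂ ℐ).card ≤ Hf (Rv v) (k + 1) :=
            (ffk r (range r) (card_range r) hrange _ _ _ h𝒜 hℐ hℐc).trans h𝒜s
          have hpiece : ∀ w ∈ T v, ∃ 𝒥, Ini N (range r) (k + 1) 𝒥 ∧ 𝒥.card = Hf (Q v w) (k + 1) ∧
              (∂ 𝒥).card ≤ Hf (Q v w) k := by
            intro w hw
            obtain ⟨ℬ, hℬ, hℬc, hℬs⟩ := (ihQ v w hw).2 k
            obtain ⟨𝒥, h𝒥, h𝒥c⟩ := hℬ.exists_ini
            exact ⟨𝒥, h𝒥, h𝒥c.trans hℬc,
              (ffk r (range r) (card_range r) hrange _ _ _ hℬ h𝒥 h𝒥c).trans hℬs⟩
          choose! g hg1 hg2 hg3 using hpiece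
          have hinj : Function.Injective (fun w => N * e w + r) := by
            intro a b hab
            exact he (Nat.eq_of_mul_eq_mul_left (by omega) (Nat.add_right_cancel hab))
          set f : ℕ → Finset (Finset ℕ) :=
            Function.extend (fun w => N * e w + r) g (fun _ => ∅) with hf
          have hfapp : ∀ w, f (N * e w + r) = g w := fun w => hinj.extend_apply g _ w
          set S : Finset ℕ := (T v).image (fun w => N * e w + r) with hS
          have hSsum : ∀ F : ℕ → ℕ, ∑ x ∈ S, F x = ∑ w ∈ T v, F (N * e w + r) := by
            intro F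
            rw [hS, sum_image (fun a _ b _ hab => hinj hab)]
          have herase : (range (r + 1)).erase r = range r := by
            rw [range_add_one, erase_insert notMem_range_self]
          have D : GlueData N (range (r + 1)) r (k + 1) S ℐ f := by
            refine ⟨self_mem_range_succ r, ?_, ?_, ?_⟩
            · intro x hx
              rw [hS, mem_image] at hx
              obtain ⟨w, _, rfl⟩ := hx
              rw [Nat.mul_add_mod, Nat.mod_eq_of_lt (by omega)]
            · rw [herase]; exact hℐ.fam
            · intro x hx
              rw [hS, mem_image] at hx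
              obtain ⟨w, hw, rfl⟩ := hx
              rw [herase, hfapp]; exact (hg1 w hw).fam
          refine ⟨glue S ℐ f, D.fam, ?_, ?_⟩
          · rw [D.card, hSsum, hsum v (k + 1), hℐc, h𝒜c]
            congr 1
            refine sum_congr rfl (fun w hw => ?_)
            rw [hfapp, hg2 w hw]
          · have h1 := D.card_shadow_le (P := Hf (Rv v) (k + 1))
              (fun j hj => by rw [mem_range] at hj; omega) (by rw [herase]; exact hℐ)
              (by
                intro x hx
                rw [hS, mem_image] at hx
                obtain ⟨w, hw, rfl⟩ := hx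
                rw [herase, hfapp]; exact hg1 w hw) hℐs
              (by
                intro x hx
                rw [hS, mem_image] at hx
                obtain ⟨w, hw, rfl⟩ := hx
                rw [hfapp, hg2 w hw]
                exact (Hf_mono (hRQ v w hw) _).trans (hmax w (hTW v w hw)))
            refine h1.trans ?_
            rw [hsum v k, hSsum]
            refine Nat.add_le_add_left (sum_le_sum (fun w hw => ?_)) _
            rw [hfapp]; exact hg3 w hw

end Pool.Agent.Lib.MP_e9cf1e_co
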