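import Mathlib

set_option autoImplicit false

/-!
Finite simplicial complexes, Reisner's criterion, flag and balanced complexes.

A finite abstract simplicial complex on the (linearly ordered) vertex type `V` is a
`Finset (Finset V)` which contains `∅` and is closed under taking subsets.  The linear order is
only used to orient the faces.
-/

namespace Pool.Agent.Lib.MP_e9cf1e_co

variable {V : Type*} [LinearOrder V]

/-- `Δ` is a simplicial complex: it contains the empty face and is closed under subsets. -/
structure IsComplex (Δ : Finset (Finset V)) : Prop where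
  empty_mem : ∅ ∈ Δ
  down : ∀ F ∈ Δ, ∀ G ⊆ F, G ∈ Δ

/-- `Δ` is flag: every set of vertices that are pairwise joined by edges is a face. (For `u = v`
the condition `{u, v} ∈ Δ` says that `u` is a vertex.) -/
def IsFlag (Δ : Finset (Finset V)) : Prop :=
  ∀ S : Finset V, (∀ u ∈ S, ∀ v ∈ S, {u, v} ∈ Δ) → S ∈ Δ

/-- The maximal cardinality of a face, i.e. `dim Δ + 1`. -/
def maxCard (Δ : Finset (Finset V)) : ℕ := Δ.sup Finset.card

/-- The link of `F` in `Δ`. -/
def link (Δ : Finset (Finset V)) (F : Finset V) : Finset (Finset V) :=
  Δ.filter (fun G => Disjoint G F ∧ G ∪ F ∈ Δ)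

/-- The simplicial boundary map (augmented: the boundary of a vertex is the empty face), on the
space of all chains with coefficients in `k`; chains are formal linear combinations of sets. -/
noncomputable def bd (k : Type*) [Field k] : (Finset V →₀ k) →ₗ[k] (Finset V →₀ k) :=
  Finsupp.linearCombination k
    (fun F => ∑ v ∈ F, (-1 : k) ^ (F.filter (fun u => u < v)).card • Finsupp.single (F.erase v) 1)

/-- The reduced homology of `L` over `k` vanishes in all degrees `< n - 1`: every cycle
supported on faces with `i < n` elements is the boundary of a chain supported on faces with `i + 1`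
elements. -/
def Acyclic (k : Type*) [Field k] (L : Finset (Finset V)) (n : ℕ) : Prop :=
  ∀ i < n, ∀ z : Finset V →₀ k, (∀ G ∈ z.support, G ∈ L ∧ G.card = i) → bd k z = 0 →
    ∃ y : Finset V →₀ k, (∀ G ∈ y.support, G ∈ L ∧ G.card = i + 1) ∧ bd k y = z

/-- Cohen-Macaulay over `k` (Reisner's criterion): for every face `F`, the reduced homology
of the link of `F` vanishes in all degrees below the dimension of the link. -/
def IsCM (k : Type*) [Field k] (Δ : Finset (Finset V)) : Prop :=
  ∀ F ∈ Δ, Acyclic k (link Δ F) (maxCard (link Δ F))

/-- Balanced: the vertices can be coloured with `dim Γ + 1` colours such that the vertices of each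
face have different colours. -/
def IsBalanced (Γ : Finset (Finset V)) : Prop :=
  ∃ κ : V → ℕ, (∀ v, {v} ∈ Γ → κ v < maxCard Γ) ∧
    ∀ F ∈ Γ, ∀ u ∈ F, ∀ v ∈ F, κ u = κ v → u = v

/-- The number of faces with `i` elements. -/
def fNum (Δ : Finset (Finset V)) (i : ℕ) : ℕ := (Δ.filter (fun F => F.card = i)).card

end Pool.Agent.Lib.MP_e9cf1e_co
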