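import Pool.Agent.Lib.MP_e9cf1e_co.Glue

set_option autoImplicit false
set_option linter.unusedSectionVars false
set_option linter.unusedVariables false

/-!
The Frankl–Füredi–Kalai theorem on shadows of coloured families.
-/

namespace Pool.Agent.Lib.MP_e9cf1e_co

open Finset
open scoped FinsetFamily

variable {N : ℕ} {J : Finset ℕ} {k : ℕ}

/-- The smallest elements of a finite set. -/
lemma exists_smallest (T : Finset ℕ) : ∀ m ≤ T.card, ∃ M ⊆ T, M.card = m ∧
    ∀ x ∈ T, x ∉ M → ∀ y ∈ M, y < x := by
  intro m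
  induction m with
  | zero => intro _; exact ⟨∅, empty_subset _, rfl, fun _ _ _ y hy => absurd hy (notMem_empty _)⟩
  | succ m ih =>
    intro hm
    obtain ⟨M, hM, hMc, hlt⟩ := ih (by omega)
    have hne : (T \ M).Nonempty := by
      rw [← card_pos, card_sdiff_of_subset hM]; omega
    obtain ⟨z, hz, hmin⟩ := exists_min_image _ id hne
    rw [mem_sdiff] at hz
    simp only [id] at hmin
    refine ⟨insert z M, insert_subset_iff.mpr ⟨hz.1, hM⟩, ?_, ?_⟩
    · rw [card_insert_of_notMem hz.2, hMc]
    · intro x hx hxM y hy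
      rw [mem_insert] at hxM hy
      push Not at hxM
      rcases hy with rfl | hy
      · exact lt_of_le_of_ne (hmin x (mem_sdiff.mpr ⟨hx, hxM.2⟩)) (Ne.symm hxM.1)
      · exact hlt x hx hxM.2 y hy

/-- Stable families of minimal weight are initial segments. -/
theorem ini_of_stable (hJ : ∀ j ∈ J, j < N) {𝒞 : Finset (Finset ℕ)} (h𝒞 : Fam N J (k + 1) 𝒞)
    (hF0 : ∀ c ∈ J, ∀ A ∈ 𝒞, ∀ D, Rb N J (k + 1) D → wt D < wt A → c ∉ cols N A → c ∉ cols N D →
      D ∈ 𝒞)
    (hF1 : ∀ x, ∀ A ∈ 𝒞, x ∈ A → ∀ D, Rb N J (k + 1) D → wt D < wt A → x ∈ D → D ∈ 𝒞)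
    (hMin : ∀ 𝒞', Fam N J (k + 1) 𝒞' → 𝒞'.card = 𝒞.card → (∂ 𝒞').card ≤ (∂ 𝒞).card →
      Wt 𝒞 ≤ Wt 𝒞') : Ini N J (k + 1) 𝒞 := by
  classical
  refine ⟨h𝒞, ?_⟩
  by_contra hcon
  push Not at hcon
  obtain ⟨B₁, hB₁, D₁, hD₁, hlt₁, hD₁n⟩ := hcon
  obtain ⟨B, hB, hBmax⟩ := exists_max_image 𝒞 wt ⟨B₁, hB₁⟩
  obtain ⟨A, hA, hAmin⟩ := (measure wt).wf.has_min {A | Rb N J (k + 1) A ∧ A ∉ 𝒞}
    ⟨D₁, hD₁, hD₁n⟩
  obtain ⟨hAr, hA𝒞⟩ := hA
  have hmem : ∀ D, Rb N J (k + 1) D → wt D < wt A → D ∈ 𝒞 := by
    intro D hD hlt
    by_contra hn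
    exact hAmin D ⟨hD, hn⟩ hlt
  have hAB : wt A < wt B := by
    have h1 : wt A ≤ wt D₁ := by
      by_contra h
      push Not at h
      exact hAmin D₁ ⟨hD₁, hD₁n⟩ h
    have h2 := hBmax B₁ hB₁
    omega
  have hBr := h𝒞 B hB
  have hdisj : ∀ x ∈ A, x ∉ B := fun x hx hxB => hA𝒞 (hF1 x B hB hxB A hAr hAB hx)
  have hcol : ∀ c ∈ J, c ∈ cols N A ∨ c ∈ cols N B := by
    intro c hc
    by_contra h
    push Not at h
    exact hA𝒞 (hF0 c hc B hB A hAr hAB h.2 h.1)
  obtain ⟨b, hb, hbmax⟩ := exists_max_image B id (card_pos.mp (by rw [hBr.card]; omega))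
  simp only [id] at hbmax
  have hAb : ∀ a ∈ A, a < b := by
    intro a ha
    rw [wt_lt_iff] at hAB
    obtain ⟨b', hb', _, h⟩ := hAB
    exact lt_of_lt_of_le (h a ha (hdisj a ha)) (hbmax b' hb')
  have hbA : b ∉ A := fun h => lt_irrefl _ (hAb b h)
  have hcJ : b % N ∈ J := hBr.mem b hb
  have hBb : Rb N (J.erase (b % N)) k (B.erase b) := hBr.erase hb
  -- Claim M
  have claimM : ∀ D', Rb N (J.erase (b % N)) k D' → wt D' ≤ wt (B.erase b) →
      (∀ x ∈ D', x ∉ A) ∧ ∀ c ∈ J, c ≠ b % N → c ∈ cols N D' ∨ c ∈ cols N A := by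
    intro D' hD' hle
    have hbD' : b ∉ D' := hD'.notMem_of_color rfl
    have hDr : Rb N J (k + 1) (insert b D') := hD'.insert' hcJ
    have hwD : wt (insert b D') ≤ wt B := by
      rw [wt_insert hbD', ← wt_erase hb]; omega
    have hD : insert b D' ∈ 𝒞 := by
      rcases lt_or_eq_of_le hwD with h | h
      · exact hF1 b B hB hb _ hDr h (mem_insert_self _ _)
      · rw [wt_injective h]; exact hB
    have hAD : wt A < wt (insert b D') :=
      lt_of_lt_of_le (wt_lt_pow hAb) (pow_le_wt (mem_insert_self _ _))
    constructor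
    · intro x hx hxA
      exact hA𝒞 (hF1 x _ hD (mem_insert_of_mem hx) A hAr hAD hxA)
    · intro c hc hcb
      by_contra h
      push Not at h
      refine hA𝒞 (hF0 c hc _ hD A hAr hAD ?_ h.2)
      rw [mem_cols]
      rintro ⟨x, hx, hxc⟩
      rw [mem_insert] at hx
      rcases hx with rfl | hx
      · exact hcb hxc.symm
      · exact h.1 (mem_cols.mpr ⟨x, hx, hxc⟩)
  -- the swap
  set NA := A.filter (fun z => z < N ∧ ∀ j ∈ J, j < z → j ∈ cols N A) with hNA
  set LB := B.filter (fun z => z < N ∧ ∀ j ∈ J, j < z → j ∈ cols N B) with hLB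
  have hAe : A ∉ 𝒞.erase B := fun h => hA𝒞 (mem_of_mem_erase h)
  have hsw1 : Fam N J (k + 1) (insert A (𝒞.erase B)) := by
    intro D hD
    rw [mem_insert] at hD
    rcases hD with rfl | hD
    · exact hAr
    · exact h𝒞 D (mem_of_mem_erase hD)
  have hsw2 : (insert A (𝒞.erase B)).card = 𝒞.card := by
    rw [card_insert_of_notMem hAe, card_erase_of_mem hB]
    have := card_pos.mpr ⟨B, hB⟩
    omega
  have hsw3 : Wt (insert A (𝒞.erase B)) < Wt 𝒞 := by
    have h1 : Wt (insert A (𝒞.erase B)) = wt A + Wt (𝒞.erase B) := sum_insert hAe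
    have h2 : wt B + Wt (𝒞.erase B) = Wt 𝒞 := add_sum_erase 𝒞 wt hB
    omega
  have hsw4 : (∂ 𝒞).card < (∂ (insert A (𝒞.erase B))).card := by
    by_contra h
    push Not at h
    have := hMin _ hsw1 hsw2 h
    omega
  -- shadow elements lost
  have hLBlost : ∀ y ∈ LB, B.erase y ∉ ∂ (𝒞.erase B) := by
    intro y hy hcon
    rw [hLB, mem_filter] at hy
    obtain ⟨hyB, hyN, hyc⟩ := hy
    rw [mem_shadow_iff_insert_mem] at hcon
    obtain ⟨u, hu, hE⟩ := hcon
    rw [mem_erase] at hE
    obtain ⟨hEB, hE⟩ := hE
    have hEr := h𝒞 _ hE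
    have hw := hBmax _ hE
    rw [wt_insert hu, ← wt_erase hyB] at hw
    have huy : u ≤ y := by
      have : 2 ^ u ≤ 2 ^ y := by omega
      exact (Nat.pow_le_pow_iff_right (by norm_num)).mp this
    have huy' : u ≠ y := by
      rintro rfl
      exact hEB (insert_erase hyB)
    have hult : u < y := lt_of_le_of_ne huy huy'
    have hum : u % N = u := Nat.mod_eq_of_lt (by omega)
    have huJ : u ∈ J := by
      have := hEr.mem u (mem_insert_self _ _)
      rwa [hum] at this
    obtain ⟨b', hb', hb'u⟩ := mem_cols.mp (hyc u huJ hult)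
    have hym : y % N = y := Nat.mod_eq_of_lt hyN
    have hb'y : b' ≠ y := by
      rintro rfl
      omega
    have hb'E : b' ∈ B.erase y := mem_erase.mpr ⟨hb'y, hb'⟩
    have := hEr.inj b' (mem_insert_of_mem hb'E) u (mem_insert_self _ _) (by rw [hb'u, hum])
    exact hu (this ▸ hb'E)
  -- shadow elements gained
  have hNAgain : ∀ z ∈ A, z ∉ NA → A.erase z ∈ ∂ (𝒞.erase B) := by
    intro z hz hzN
    -- a smaller vertex that can replace `z`
    obtain ⟨u, huz, huJ, hucol⟩ : ∃ u < z, u % N ∈ J ∧ u % N ∉ cols N (A.erase z) := by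
      have hzm := hAr.mem z hz
      have hzcol : z % N ∉ cols N (A.erase z) := by
        rw [mem_cols]
        rintro ⟨x, hx, hxz⟩
        rw [mem_erase] at hx
        exact hx.1 (hAr.inj x hx.2 z hz hxz)
      by_cases hzlt : z < N
      · rw [hNA, mem_filter] at hzN
        push Not at hzN
        obtain ⟨j, hj, hjz, hjc⟩ := hzN hz hzlt
        have hjm : j % N = j := Nat.mod_eq_of_lt (by omega)
        refine ⟨j, hjz, by rw [hjm]; exact hj, ?_⟩
        rw [hjm]
        intro h
        rw [mem_cols] at h
        obtain ⟨x, hx, hxj⟩ := h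
        exact hjc (mem_cols.mpr ⟨x, mem_of_mem_erase hx, hxj⟩)
      · refine ⟨z % N, ?_, ?_, ?_⟩
        · have hN : 0 < N := lt_of_le_of_lt (Nat.zero_le _) (hJ _ hzm)
          exact lt_of_lt_of_le (Nat.mod_lt _ hN) (by omega)
        · rw [Nat.mod_mod]; exact hzm
        · rw [Nat.mod_mod]; exact hzcol
    have huA : u ∉ A.erase z := fun h => hucol (mem_cols.mpr ⟨u, h, rfl⟩)
    have hDr : Rb N J (k + 1) (insert u (A.erase z)) := (hAr.erase' hz).insert huJ hucol
    have hDw : wt (insert u (A.erase z)) < wt A := by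
      rw [wt_insert huA, ← wt_erase hz]
      have : 2 ^ u < 2 ^ z := Nat.pow_lt_pow_right (by norm_num) huz
      omega
    rw [mem_shadow_iff_insert_mem]
    refine ⟨u, huA, mem_erase.mpr ⟨?_, hmem _ hDr hDw⟩⟩
    rintro he
    rw [he] at hDw
    omega
  have hNL : LB.card < NA.card := by
    have h1 : ∂ (insert A (𝒞.erase B)) ⊆ ((∂ 𝒞) \ LB.image (B.erase ·)) ∪ NA.image (A.erase ·) := by
      intro E hE
      rw [mem_union, mem_sdiff]
      have hsub : ∀ E ∈ ∂ (𝒞.erase B), E ∈ ∂ 𝒞 ∧ E ∉ LB.image (B.erase ·) := by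
        intro E hE
        refine ⟨shadow_mono (erase_subset _ _) hE, ?_⟩
        rw [mem_image]
        rintro ⟨y, hy, rfl⟩
        exact hLBlost y hy hE
      rw [mem_shadow_iff] at hE
      obtain ⟨D, hD, x, hx, rfl⟩ := hE
      rw [mem_insert] at hD
      rcases hD with rfl | hD
      · by_cases hxN : x ∈ NA
        · right; exact mem_image_of_mem _ hxN
        · left; exact hsub _ (hNAgain x hx hxN)
      · left; exact hsub _ (erase_mem_shadow hD hx)
    have h2 := card_le_card h1
    have h3 : LB.image (B.erase ·) ⊆ ∂ 𝒞 := by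
      intro E hE
      rw [mem_image] at hE
      obtain ⟨y, hy, rfl⟩ := hE
      exact erase_mem_shadow hB (mem_filter.mp hy).1
    have h4 : (LB.image (B.erase ·)).card = LB.card := by
      refine card_image_of_injOn ?_
      intro x hx y hy h
      simp only at h
      have hxB := (mem_filter.mp hx).1
      by_contra hne
      have : x ∈ B.erase y := mem_erase.mpr ⟨hne, hxB⟩
      rw [← h] at this
      exact notMem_erase _ _ this
    have h5 := card_union_le ((∂ 𝒞) \ LB.image (B.erase ·)) (NA.image (A.erase ·))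
    have h6 := card_sdiff_add_card_eq_card h3
    have h7 : (NA.image (A.erase ·)).card ≤ NA.card := card_image_le
    omega
  have hN : 0 < N := lt_of_le_of_lt (Nat.zero_le _) (hJ _ hcJ)
  -- `k = 0`
  rcases Nat.eq_zero_or_pos k with rfl | hk
  · have h1 : ∂ (insert A (𝒞.erase B)) ⊆ {∅} := by
      intro E hE
      rw [mem_shadow_iff] at hE
      obtain ⟨D, hD, x, hx, rfl⟩ := hE
      rw [mem_singleton, ← card_eq_zero, card_erase_of_mem hx, (hsw1 D hD).card]
    have h2 : 1 ≤ (∂ 𝒞).card := card_pos.mpr ⟨_, erase_mem_shadow hB hb⟩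
    have h3 := card_le_card h1
    rw [card_singleton] at h3
    omega
  set c := b % N with hc
  have hcN : c < N := hJ c hcJ
  have hJc : (J.erase c).card + 1 = J.card := card_erase_add_one hcJ
  have hJN : ∀ j ∈ J.erase c, j % N = j := fun j hj => Nat.mod_eq_of_lt (hJ j (mem_of_mem_erase hj))
  -- rainbow sets made of small vertices
  have hsmall : ∀ M ⊆ J.erase c, ∀ m, M.card = m → Rb N (J.erase c) m M := by
    intro M hM m hm
    refine ⟨hm, fun x hx => by rw [hJN x (hM hx)]; exact hM hx, ?_⟩
    intro x hx y hy hxy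
    rwa [hJN x (hM hx), hJN y (hM hy)] at hxy
  have hcolsmall : ∀ M ⊆ J.erase c, ∀ j, j ∈ cols N M ↔ j ∈ M := by
    intro M hM j
    rw [mem_cols]
    constructor
    · rintro ⟨x, hx, rfl⟩
      rw [hJN x (hM hx)]; exact hx
    · intro hj
      exact ⟨j, hj, hJN j (hM hj)⟩
  have hcardA := hAr.card_cols
  -- the smallest set
  have hk1 : k ≤ (J.erase c).card := by
    have := hBr.le; omega
  obtain ⟨M₀, hM₀, hM₀c, hM₀lt⟩ := exists_smallest (J.erase c) k hk1
  have hM₀r := hsmall M₀ hM₀ k hM₀c
  have hM₀min : ∀ E, Rb N (J.erase c) k E → wt M₀ ≤ wt E := by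
    intro E hE
    by_contra h
    push Not at h
    rw [wt_lt_iff] at h
    obtain ⟨m, hm, hmE, hlt⟩ := h
    obtain ⟨e, he, heM⟩ : ∃ e ∈ E, e ∉ M₀ := by
      by_contra hcon2
      push Not at hcon2
      have := eq_of_subset_of_card_le (fun e he => hcon2 e he) (by rw [hE.card, hM₀c])
      exact hmE (this ▸ hm)
    have hem := hlt e he heM
    have hmN : m < N := hJ m (mem_of_mem_erase (hM₀ hm))
    have heJ : e ∈ J.erase c := by
      have := hE.mem e he
      rwa [Nat.mod_eq_of_lt (by omega)] at this
    have := hM₀lt e heJ heM m hm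
    omega
  obtain ⟨hM₀A, hM₀c'⟩ := claimM M₀ hM₀r (hM₀min _ hBb)
  obtain ⟨z, hz⟩ : NA.Nonempty := card_pos.mp (by omega)
  have hz' := mem_filter.mp hz
  obtain ⟨hzA, hzN, hzc⟩ := hz'
  have hNAJ : ∀ z ∈ NA, z ∈ J := by
    intro z hz
    have hz' := mem_filter.mp hz
    have := hAr.mem z hz'.1
    rwa [Nat.mod_eq_of_lt hz'.2.1] at this
  have hAcolself : ∀ z ∈ A, z < N → z ∈ cols N A := fun z hz hzN =>
    mem_cols.mpr ⟨z, hz, Nat.mod_eq_of_lt hzN⟩
  rcases Nat.lt_or_ge (k + 1) J.card with hkJ | hkJ
  · -- Case `k + 1 < |J|`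
    have hNA1 : ∀ z ∈ NA, z ≠ c → c ∉ cols N A ∧ cols N A = insert z M₀ := by
      intro z hz hzc'
      have hz' := mem_filter.mp hz
      have hzM : z ∉ M₀ := fun h => hM₀A z h hz'.1
      have hzJ : z ∈ J.erase c := mem_erase.mpr ⟨hzc', hNAJ z hz⟩
      have hsub : insert z M₀ ⊆ cols N A := by
        intro j hj
        rw [mem_insert] at hj
        rcases hj with rfl | hj
        · exact hAcolself _ hz'.1 hz'.2.1
        · exact hz'.2.2 j (mem_of_mem_erase (hM₀ hj)) (hM₀lt z hzJ hzM j hj)
      have heq : insert z M₀ = cols N A := by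
        refine eq_of_subset_of_card_le hsub ?_
        rw [hcardA, card_insert_of_notMem hzM, hM₀c]
      refine ⟨?_, heq.symm⟩
      rw [← heq, mem_insert]
      rintro (h | h)
      · exact hzc' h.symm
      · exact notMem_erase _ _ (hM₀ h)
    have hNAle : NA.card ≤ 1 := by
      rw [card_le_one]
      intro x hx y hy
      by_cases hxc : x = c
      · by_cases hyc : y = c
        · rw [hxc, hyc]
        · exfalso
          have hx' := mem_filter.mp hx
          exact (hNA1 y hy hyc).1 (hxc ▸ hAcolself x hx'.1 hx'.2.1)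
      · by_cases hyc : y = c
        · exfalso
          have hy' := mem_filter.mp hy
          exact (hNA1 x hx hxc).1 (hyc ▸ hAcolself y hy'.1 hy'.2.1)
        · have h1 := (hNA1 x hx hxc).2
          have h2 := (hNA1 y hy hyc).2
          have hxM : x ∉ M₀ := fun h => hM₀A x h (mem_filter.mp hx).1
          have h3 : x ∈ insert y M₀ := by rw [← h2, h1]; exact mem_insert_self _ _
          rw [mem_insert] at h3
          rcases h3 with h3 | h3
          · exact h3
          · exact absurd h3 hxM
    have hLB0 : LB = ∅ := card_eq_zero.mp (by omega)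
    -- the smallest colour different from `c`
    obtain ⟨M', hM', hM'c, hM'lt⟩ := exists_smallest (J.erase c) (k + 1) (by omega)
    obtain ⟨e₀, he₀, he₀min⟩ := exists_min_image (J.erase c) id (card_pos.mp (by omega))
    simp only [id] at he₀min
    have he₀M' : e₀ ∈ M' := by
      by_contra h
      obtain ⟨y, hy⟩ : M'.Nonempty := card_pos.mp (by omega)
      have h1 := hM'lt e₀ he₀ h y hy
      have h2 := he₀min y (hM' hy)
      omega
    have he₀N : e₀ < N := hJ e₀ (mem_of_mem_erase he₀)
    have he₀B : e₀ ∉ B := by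
      intro h
      have : e₀ ∈ LB := by
        rw [hLB, mem_filter]
        refine ⟨h, he₀N, fun j hj hjlt => ?_⟩
        by_cases hjc : j = c
        · rw [hjc, mem_cols]; exact ⟨b, hb, rfl⟩
        · have := he₀min j (mem_erase.mpr ⟨hjc, hj⟩)
          omega
      rw [hLB0] at this
      exact notMem_empty _ this
    have hwM' : ∀ e ∈ M', wt (M'.erase e) ≤ wt (B.erase b) := by
      intro e he
      by_contra h
      push Not at h
      rw [wt_lt_iff] at h
      obtain ⟨m, hm, hmE, hlt⟩ := h
      have hcardX : (M'.erase e).card = k := by rw [card_erase_of_mem he, hM'c]; rfl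
      -- the elements of `B.erase b` outside `M'.erase e` are equal to `e`
      have hout : ∀ e' ∈ B.erase b, e' ∉ M'.erase e → e' = e := by
        intro e' he' hne
        have h1 := hlt e' he' hne
        have hmM' : m ∈ M' := mem_of_mem_erase hm
        have hmN : m < N := hJ m (mem_of_mem_erase (hM' hmM'))
        have he'J : e' ∈ J.erase c := by
          have := hBb.mem e' he'
          rwa [Nat.mod_eq_of_lt (by omega)] at this
        have he'M' : e' ∈ M' := by
          by_contra h2
          have := hM'lt e' he'J h2 m hmM'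
          omega
        by_contra h3
        exact hne (mem_erase.mpr ⟨h3, he'M'⟩)
      obtain ⟨e', he', hne'⟩ : ∃ e' ∈ B.erase b, e' ∉ M'.erase e := by
        by_contra hcon2
        push Not at hcon2
        have := eq_of_subset_of_card_le (fun e he => hcon2 e he) (by rw [hBb.card, hcardX])
        exact hmE (this ▸ hm)
      have he'e := hout e' he' hne'
      subst he'e
      -- all of `M'` except `m` is contained in `B.erase b`
      have hsub : B.erase b ⊆ M'.erase m := by
        intro x hx
        rw [mem_erase]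
        refine ⟨?_, ?_⟩
        · rintro rfl; exact hmE hx
        · by_cases hxe : x ∈ M'.erase e'
          · exact mem_of_mem_erase hxe
          · rw [hout x hx hxe]; exact he
      have heq : B.erase b = M'.erase m := by
        refine eq_of_subset_of_card_le hsub ?_
        rw [card_erase_of_mem (mem_of_mem_erase hm), hM'c, hBb.card]; rfl
      have hme₀ : e₀ = m := by
        by_contra hne
        have : e₀ ∈ B.erase b := by rw [heq, mem_erase]; exact ⟨hne, he₀M'⟩
        exact he₀B (mem_of_mem_erase this)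
      have h1 := hlt e' he' hne'
      have h2 := he₀min e' (hM' he)
      omega
    have hM'A : ∀ x ∈ M', x ∉ A := by
      intro x hx
      obtain ⟨e, he, hex⟩ : ∃ e ∈ M', e ≠ x := by
        by_contra hcon2
        push Not at hcon2
        have : M' ⊆ {x} := fun e he => mem_singleton.mpr (hcon2 e he)
        have := card_le_card this
        rw [card_singleton] at this
        omega
      have h1 := claimM (M'.erase e) (hsmall _ ((erase_subset _ _).trans hM') k
        (by rw [card_erase_of_mem he, hM'c]; rfl)) (hwM' e he)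
      exact h1.1 x (mem_erase.mpr ⟨hex.symm, hx⟩)
    have hM'cols : M' ⊆ cols N A := by
      intro e he
      have h1 := claimM (M'.erase e) (hsmall _ ((erase_subset _ _).trans hM') k
        (by rw [card_erase_of_mem he, hM'c]; rfl)) (hwM' e he)
      have hec : e ≠ c := (mem_erase.mp (hM' he)).1
      rcases h1.2 e (mem_of_mem_erase (hM' he)) hec with h2 | h2
      · rw [hcolsmall _ ((erase_subset _ _).trans hM')] at h2
        exact absurd h2 (notMem_erase _ _)
      · exact h2
    have hM'eq : M' = cols N A := eq_of_subset_of_card_le hM'cols (by rw [hcardA, hM'c])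
    have : z ∈ M' := by rw [hM'eq]; exact hAcolself z hzA hzN
    exact hM'A z this hzA
  · -- Case `k + 1 = |J|`
    have hkJ' : k + 1 = J.card := le_antisymm hBr.le hkJ
    have hcolA : cols N A = J := eq_of_subset_of_card_le hAr.cols_subset (by rw [hcardA]; omega)
    have hcolB : cols N B = J :=
      eq_of_subset_of_card_le hBr.cols_subset (by rw [hBr.card_cols]; omega)
    have hM₀eq : M₀ = J.erase c := eq_of_subset_of_card_le hM₀ (by omega)
    have hNAc : ∀ z ∈ NA, z = c := by
      intro z hz
      by_contra hzc'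
      have hzJ : z ∈ J.erase c := mem_erase.mpr ⟨hzc', hNAJ z hz⟩
      rw [← hM₀eq] at hzJ
      exact hM₀A z hzJ (mem_filter.mp hz).1
    have hNAle : NA.card ≤ 1 := by
      rw [card_le_one]
      intro x hx y hy
      rw [hNAc x hx, hNAc y hy]
    have hLB0 : LB = ∅ := card_eq_zero.mp (by omega)
    have hzc0 := hNAc z hz
    have hcA : c ∈ A := hzc0 ▸ hzA
    have hBN : ∀ y ∈ B, N ≤ y := by
      intro y hy
      by_contra h
      push Not at h
      have : y ∈ LB := by
        rw [hLB, mem_filter]
        exact ⟨hy, h, fun j hj _ => by rw [hcolB]; exact hj⟩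
      rw [hLB0] at this
      exact notMem_empty _ this
    -- large elements of `A`
    have hA'N : ∀ z ∈ A.erase c, N ≤ z := by
      intro z hz
      rw [mem_erase] at hz
      by_contra h
      push Not at h
      have : z ∈ NA := by
        rw [hNA, mem_filter]
        exact ⟨hz.2, h, fun j hj _ => by rw [hcolA]; exact hj⟩
      exact hz.1 (hNAc z this)
    have hcm : c % N = c := Nat.mod_eq_of_lt hcN
    have hA'col : ∀ z ∈ A.erase c, z % N ∈ J.erase c := by
      intro z hz
      rw [mem_erase] at hz ⊢
      refine ⟨fun h => hz.1 (hAr.inj z hz.2 c hcA (by rw [h, hcm])), hAr.mem z hz.2⟩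
    have hzy : ∀ z ∈ A.erase c, ∀ y ∈ B.erase b, y < z := by
      intro z hz y hy
      have hzA' := mem_of_mem_erase hz
      have hzcol := hA'col z hz
      have hbase : Rb N ((J.erase c).erase (z % N)) (k - 1) ((J.erase c).erase (z % N)) := by
        refine ⟨?_, ?_, ?_⟩
        · rw [card_erase_of_mem hzcol]; omega
        · intro x hx
          rw [hJN x (mem_of_mem_erase hx)]; exact hx
        · intro x hx x' hx' hxx
          rwa [hJN x (mem_of_mem_erase hx), hJN x' (mem_of_mem_erase hx')] at hxx
      have hD' : Rb N (J.erase c) k (insert z ((J.erase c).erase (z % N))) := by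
        have := hbase.insert' hzcol
        rwa [Nat.sub_add_cancel hk] at this
      by_contra hcon2
      have hnle : ¬ wt (insert z ((J.erase c).erase (z % N))) ≤ wt (B.erase b) := by
        intro hle
        exact (claimM _ hD' hle).1 z (mem_insert_self _ _) hzA'
      push Not at hnle
      rw [wt_lt_iff] at hnle
      obtain ⟨w, hw, hwB, hlt⟩ := hnle
      have hyB := mem_of_mem_erase hy
      have hyD' : y ∉ insert z ((J.erase c).erase (z % N)) := by
        rw [mem_insert]
        rintro (h | h)
        · exact hdisj z hzA' (h ▸ hyB)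
        · have h1 := hBN y hyB
          have h2 := hJ y (mem_of_mem_erase (mem_of_mem_erase h))
          omega
      have hyw := hlt y hy hyD'
      rw [mem_insert] at hw
      rcases hw with rfl | hw
      · exact hcon2 hyw
      · have h1 := hBN y hyB
        have h2 := hJ w (mem_of_mem_erase (mem_of_mem_erase hw))
        omega
    -- the smallest element of `B.erase b`
    obtain ⟨y₁, hy₁, hy₁min⟩ := exists_min_image (B.erase b) id
      (card_pos.mp (by rw [hBb.card]; omega))
    simp only [id] at hy₁min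
    have hy₁B := mem_of_mem_erase hy₁
    have hy₁b : y₁ ≠ b := (mem_erase.mp hy₁).1
    set e₁ := y₁ % N with he₁
    set i₁ := y₁ / N with hi₁
    have hy₁eq : N * i₁ + e₁ = y₁ := Nat.div_add_mod _ _
    have he₁J : e₁ ∈ J.erase c := hBb.mem y₁ hy₁
    have he₁N : e₁ < N := Nat.mod_lt _ hN
    set R := (B.erase b).erase y₁ with hR
    have hbR : b ∉ R := fun h => notMem_erase _ _ (mem_of_mem_erase h)
    have hRr : Rb N ((J.erase c).erase e₁) (k - 1) R := by
      have h1 : Rb N (J.erase c) (k - 1 + 1) (B.erase b) := by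
        rw [Nat.sub_add_cancel hk]; exact hBb
      exact h1.erase hy₁
    have hbRr : Rb N (J.erase e₁) k (insert b R) := by
      have h1 : Rb N ((J.erase e₁).erase (b % N)) (k - 1) R := by
        rw [← hc, erase_right_comm]; exact hRr
      have h2 : b % N ∈ J.erase e₁ := by
        rw [mem_erase]
        exact ⟨fun h => (mem_erase.mp he₁J).1 h.symm, hcJ⟩
      have := h1.insert' h2
      rwa [Nat.sub_add_cancel hk] at this
    -- the element of `A` of colour `e₁`
    obtain ⟨z₁, hz₁A, hz₁c⟩ : ∃ z ∈ A, z % N = e₁ := by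
      rw [← mem_cols, hcolA]; exact mem_of_mem_erase he₁J
    have hz₁A' : z₁ ∈ A.erase c := by
      rw [mem_erase]
      refine ⟨?_, hz₁A⟩
      rintro rfl
      rw [hcm] at hz₁c
      exact (mem_erase.mp he₁J).1 hz₁c.symm
    have hz₁ge : N * (i₁ + 1) + e₁ ≤ z₁ := by
      have h1 := hzy z₁ hz₁A' y₁ hy₁
      have h2 : N * (z₁ / N) + e₁ = z₁ := by rw [← hz₁c]; exact Nat.div_add_mod _ _
      have h3 : i₁ < z₁ / N := by
        by_contra h
        push Not at h
        have := Nat.mul_le_mul_left N h
        omega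
      have := Nat.mul_le_mul_left N (show i₁ + 1 ≤ z₁ / N by omega)
      omega
    have hvlt : ∀ i ≤ i₁, N * i + c < b := by
      intro i hi
      have h1 := hAb z₁ hz₁A
      have h2 := Nat.mul_le_mul_left N hi
      have h3 : N * (i₁ + 1) = N * i₁ + N := by ring
      omega
    have hvmod : ∀ i, (N * i + c) % N = c := by
      intro i; rw [Nat.mul_add_mod, hcm]
    have humod : ∀ i, (N * i + e₁) % N = e₁ := by
      intro i; rw [Nat.mul_add_mod, Nat.mod_eq_of_lt he₁N]
    have hA'r : Rb N (J.erase c) k (A.erase c) := by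
      have := hAr.erase hcA
      rwa [hcm] at this
    -- added and removed sets
    set Ad := (range (i₁ + 1)).image (fun i => insert (N * i + c) (A.erase c)) with hAd
    set Rm := (range (i₁ + 1)).image (fun i => insert (N * i + e₁) (insert b R)) with hRm
    have hvA' : ∀ i, N * i + c ∉ A.erase c := fun i => hA'r.notMem_of_color (hvmod i)
    have huR : ∀ i, N * i + e₁ ∉ insert b R := fun i => hbRr.notMem_of_color (humod i)
    have hAdr : ∀ i, Rb N J (k + 1) (insert (N * i + c) (A.erase c)) := by
      intro i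
      refine Rb.insert' ?_ (by rw [hvmod]; exact hcJ)
      rw [hvmod]; exact hA'r
    have hAdlt : ∀ i ≤ i₁, ∀ x ∈ insert (N * i + c) (A.erase c), x < b := by
      intro i hi x hx
      rw [mem_insert] at hx
      rcases hx with rfl | hx
      · exact hvlt i hi
      · exact hAb x (mem_of_mem_erase hx)
    have hAd𝒞 : ∀ i ≤ i₁, insert (N * i + c) (A.erase c) ∉ 𝒞 := by
      intro i hi hcon2
      have hAeq : A = insert c (A.erase c) := (insert_erase hcA).symm
      have hwle : wt A ≤ wt (insert (N * i + c) (A.erase c)) := by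
        rw [wt_insert (hvA' i), ← wt_erase hcA]
        have : 2 ^ c ≤ 2 ^ (N * i + c) := Nat.pow_le_pow_right (by norm_num) (Nat.le_add_left _ _)
        omega
      rcases lt_or_eq_of_le hwle with h | h
      · exact hA𝒞 (hF1 z₁ _ hcon2 (mem_insert_of_mem hz₁A') A hAr h hz₁A)
      · rw [← wt_injective h] at hcon2
        exact hA𝒞 hcon2
    have hRm𝒞 : ∀ i ≤ i₁, insert (N * i + e₁) (insert b R) ∈ 𝒞 := by
      intro i hi
      have hr : Rb N J (k + 1) (insert (N * i + e₁) (insert b R)) := by
        refine Rb.insert' ?_ (by rw [humod]; exact mem_of_mem_erase he₁J)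
        rw [humod]; exact hbRr
      have hBeq : wt B = 2 ^ y₁ + wt (insert b R) := by
        have h1 : B = insert y₁ (insert b R) := by
          rw [Finset.insert_comm, hR, insert_erase hy₁, insert_erase hb]
        have h2 : y₁ ∉ insert b R := by
          have := huR i₁
          rwa [hy₁eq] at this
        conv_lhs => rw [h1]
        rw [wt_insert h2]
      have hle : wt (insert (N * i + e₁) (insert b R)) ≤ wt B := by
        rw [wt_insert (huR i), hBeq]
        have : N * i + e₁ ≤ y₁ := by
          have := Nat.mul_le_mul_left N hi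
          omega
        have : 2 ^ (N * i + e₁) ≤ 2 ^ y₁ := Nat.pow_le_pow_right (by norm_num) this
        omega
      rcases lt_or_eq_of_le hle with h | h
      · exact hF1 b B hB hb _ hr h (mem_insert_of_mem (mem_insert_self _ _))
      · rw [wt_injective h]; exact hB
    have hRmsub : Rm ⊆ 𝒞 := by
      intro E hE
      rw [hRm, mem_image] at hE
      obtain ⟨i, hi, rfl⟩ := hE
      exact hRm𝒞 i (by rw [mem_range] at hi; omega)
    have hAddisj : Disjoint (𝒞 \ Rm) Ad := by
      rw [disjoint_left]
      intro E hE hE'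
      rw [hAd, mem_image] at hE'
      obtain ⟨i, hi, rfl⟩ := hE'
      exact hAd𝒞 i (by rw [mem_range] at hi; omega) (mem_sdiff.mp hE).1
    have hAdcard : Ad.card = i₁ + 1 := by
      rw [hAd, card_image_of_injective, card_range]
      intro i j hij
      simp only at hij
      have h1 : N * i + c ∈ insert (N * j + c) (A.erase c) := by
        rw [← hij]; exact mem_insert_self _ _
      rw [mem_insert] at h1
      rcases h1 with h1 | h1
      · exact Nat.eq_of_mul_eq_mul_left hN (by omega)
      · exact absurd h1 (hvA' i)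
    have hRmcard : Rm.card = i₁ + 1 := by
      rw [hRm, card_image_of_injective, card_range]
      intro i j hij
      simp only at hij
      have h1 : N * i + e₁ ∈ insert (N * j + e₁) (insert b R) := by
        rw [← hij]; exact mem_insert_self _ _
      rw [mem_insert] at h1
      rcases h1 with h1 | h1
      · exact Nat.eq_of_mul_eq_mul_left hN (by omega)
      · exact absurd h1 (huR i)
    have hnew1 : Fam N J (k + 1) ((𝒞 \ Rm) ∪ Ad) := by
      intro E hE
      rw [mem_union] at hE
      rcases hE with hE | hE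
      · exact h𝒞 E (mem_sdiff.mp hE).1
      · rw [hAd, mem_image] at hE
        obtain ⟨i, hi, rfl⟩ := hE
        exact hAdr i
    have hnew2 : ((𝒞 \ Rm) ∪ Ad).card = 𝒞.card := by
      rw [card_union_of_disjoint hAddisj, card_sdiff_of_subset hRmsub, hAdcard, hRmcard]
      have := card_le_card hRmsub
      omega
    have hnew3 : Wt ((𝒞 \ Rm) ∪ Ad) < Wt 𝒞 := by
      have h1 : Wt ((𝒞 \ Rm) ∪ Ad) = Wt (𝒞 \ Rm) + Wt Ad := sum_union hAddisj
      have h2 : Wt 𝒞 = Wt (𝒞 \ Rm) + Wt Rm := by
        unfold Wt
        rw [← sum_sdiff hRmsub]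
      have h3 : Wt Ad < Ad.card * 2 ^ b := by
        unfold Wt
        rw [← smul_eq_mul, ← sum_const]
        refine sum_lt_sum_of_nonempty (card_pos.mp (by rw [hAdcard]; exact Nat.succ_pos _)) (fun E hE => ?_)
        rw [hAd, mem_image] at hE
        obtain ⟨i, hi, rfl⟩ := hE
        exact wt_lt_pow (hAdlt i (by rw [mem_range] at hi; omega))
      have h4 : Rm.card * 2 ^ b ≤ Wt Rm := by
        unfold Wt
        rw [← smul_eq_mul]
        refine card_nsmul_le_sum Rm wt (2 ^ b) (fun E hE => ?_)
        rw [hRm, mem_image] at hE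
        obtain ⟨i, hi, rfl⟩ := hE
        exact pow_le_wt (mem_insert_of_mem (mem_insert_self _ _))
      rw [hAdcard] at h3
      rw [hRmcard] at h4
      omega
    have hlost : insert b R ∉ ∂ (𝒞 \ Rm) := by
      intro hcon2
      rw [mem_shadow_iff_insert_mem] at hcon2
      obtain ⟨u, hu, hE⟩ := hcon2
      rw [mem_sdiff] at hE
      have hEr := h𝒞 _ hE.1
      have hucol : u % N = e₁ := by
        -- the colours of `insert b R` are all colours except `e₁`
        have h1 : cols N (insert b R) = J.erase e₁ := by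
          refine eq_of_subset_of_card_le hbRr.cols_subset ?_
          rw [hbRr.card_cols, card_erase_of_mem (mem_of_mem_erase he₁J)]
          omega
        by_contra hne
        have h2 : u % N ∈ cols N (insert b R) := by
          rw [h1, mem_erase]; exact ⟨hne, hEr.mem u (mem_insert_self _ _)⟩
        obtain ⟨x, hx, hxu⟩ := mem_cols.mp h2
        have := hEr.inj x (mem_insert_of_mem hx) u (mem_insert_self _ _) hxu
        exact hu (this ▸ hx)
      have hBeq : wt B = 2 ^ y₁ + wt (insert b R) := by
        have h1 : B = insert y₁ (insert b R) := by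
          rw [Finset.insert_comm, hR, insert_erase hy₁, insert_erase hb]
        have h2 : y₁ ∉ insert b R := by
          have := huR i₁
          rwa [hy₁eq] at this
        conv_lhs => rw [h1]
        rw [wt_insert h2]
      have hw := hBmax _ hE.1
      rw [wt_insert hu, hBeq] at hw
      have huy : u ≤ y₁ := by
        have : 2 ^ u ≤ 2 ^ y₁ := by omega
        exact (Nat.pow_le_pow_iff_right (by norm_num)).mp this
      apply hE.2
      rw [hRm, mem_image]
      refine ⟨u / N, ?_, ?_⟩
      · rw [mem_range]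
        have := Nat.div_le_div_right (c := N) huy
        omega
      · have : N * (u / N) + e₁ = u := by rw [← hucol]; exact Nat.div_add_mod _ _
        rw [this]
    have hnew4 : (∂ ((𝒞 \ Rm) ∪ Ad)).card ≤ (∂ 𝒞).card := by
      have hin : insert b R ∈ ∂ 𝒞 := by
        rw [mem_shadow_iff_insert_mem]
        exact ⟨_, huR 0, hRm𝒞 0 (Nat.zero_le _)⟩
      have hsub : ∂ ((𝒞 \ Rm) ∪ Ad) ⊆ ((∂ 𝒞).erase (insert b R)) ∪ {A.erase c} := by
        intro E hE
        rw [mem_union, mem_singleton, mem_erase]
        rw [mem_shadow_iff] at hE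
        obtain ⟨D, hD, x, hx, rfl⟩ := hE
        rw [mem_union] at hD
        rcases hD with hD | hD
        · left
          have h1 : D.erase x ∈ ∂ (𝒞 \ Rm) := erase_mem_shadow hD hx
          exact ⟨fun h => hlost (h ▸ h1), shadow_mono sdiff_subset h1⟩
        · rw [hAd, mem_image] at hD
          obtain ⟨i, hi, rfl⟩ := hD
          have hi' : i ≤ i₁ := by rw [mem_range] at hi; omega
          by_cases hxv : x = N * i + c
          · right
            rw [hxv, erase_insert (hvA' i)]
          · left
            have hxA' : x ∈ A.erase c := by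
              rw [mem_insert] at hx
              rcases hx with h | h
              · exact absurd h hxv
              · exact h
            constructor
            · intro h
              have h1 : b ∈ (insert (N * i + c) (A.erase c)).erase x := by
                rw [h]; exact mem_insert_self _ _
              have := hAdlt i hi' b (mem_of_mem_erase h1)
              omega
            · -- add the element of `B` of the same colour
              obtain ⟨y, hyB, hyx⟩ : ∃ y ∈ B, y % N = x % N := by
                rw [← mem_cols, hcolB]; exact mem_of_mem_erase (hA'col x hxA')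
              have hyb : y ≠ b := by
                rintro rfl
                exact (mem_erase.mp (hA'col x hxA')).1 hyx.symm
              have hylt : y < b := lt_of_le_of_ne (hbmax y hyB) hyb
              have hycol : y % N ∉ cols N ((insert (N * i + c) (A.erase c)).erase x) := by
                rw [mem_cols]
                rintro ⟨x', hx', hx'y⟩
                rw [mem_erase] at hx'
                exact hx'.1 ((hAdr i).inj x' hx'.2 x hx (by rw [hx'y, hyx]))
              have hyn : y ∉ (insert (N * i + c) (A.erase c)).erase x := fun h =>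
                hycol (mem_cols.mpr ⟨y, h, rfl⟩)
              rw [mem_shadow_iff_insert_mem]
              refine ⟨y, hyn, hF1 y B hB hyB _ ?_ ?_ (mem_insert_self _ _)⟩
              · exact ((hAdr i).erase' hx).insert (hBr.mem y hyB) hycol
              · refine lt_of_lt_of_le (wt_lt_pow ?_) (pow_le_wt hb)
                intro a ha
                rw [mem_insert] at ha
                rcases ha with rfl | ha
                · exact hylt
                · exact hAdlt i hi' a (mem_of_mem_erase ha)
      have h1 := card_le_card hsub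
      have h2 := card_union_le ((∂ 𝒞).erase (insert b R)) {A.erase c}
      rw [card_erase_of_mem hin, card_singleton] at h2
      have h3 := card_pos.mpr ⟨_, hin⟩
      omega
    have := hMin _ hnew1 hnew2 hnew4
    omega

/-- Frankl–Füredi–Kalai. -/
theorem ffk : ∀ (n : ℕ) (J : Finset ℕ), J.card = n → (∀ j ∈ J, j < N) →
    ∀ (k : ℕ) (𝒜 ℐ : Finset (Finset ℕ)), Fam N J k 𝒜 → Ini N J k ℐ → ℐ.card = 𝒜.card →
      (∂ ℐ).card ≤ (∂ 𝒜).card := by
  classical
  intro n
  induction n with
  | zero =>
    intro J hJn hJ k 𝒜 ℐ h𝒜 hℐ hc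
    have : ∂ ℐ = ∅ := by
      rw [eq_empty_iff_forall_notMem]
      intro E hE
      rw [mem_shadow_iff_insert_mem] at hE
      obtain ⟨a, _, ha⟩ := hE
      have := (hℐ.fam _ ha).mem a (mem_insert_self _ _)
      rw [card_eq_zero] at hJn
      rw [hJn] at this
      exact notMem_empty _ this
    rw [this, card_empty]
    exact Nat.zero_le _
  | succ n ih =>
    intro J hJn hJ k 𝒜 ℐ h𝒜 hℐ hc
    cases k with
    | zero =>
      have : ∂ ℐ = ∅ := by
        rw [eq_empty_iff_forall_notMem]
        intro E hE
        rw [mem_shadow_iff_insert_mem] at hE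
        obtain ⟨a, hna, ha⟩ := hE
        have := (hℐ.fam _ ha).card
        rw [card_insert_of_notMem hna] at this
        omega
      rw [this, card_empty]
      exact Nat.zero_le _
    | succ k =>
      obtain ⟨𝒞, ⟨h𝒞, h𝒞c, h𝒞s⟩, hmin⟩ := (measure Wt).wf.has_min
        {𝒞 | Fam N J (k + 1) 𝒞 ∧ 𝒞.card = 𝒜.card ∧ (∂ 𝒞).card ≤ (∂ 𝒜).card}
        ⟨𝒜, h𝒜, rfl, le_rfl⟩
      have hmin' : ∀ 𝒞', Fam N J (k + 1) 𝒞' → 𝒞'.card = 𝒞.card → (∂ 𝒞').card ≤ (∂ 𝒞).card →
          Wt 𝒞 ≤ Wt 𝒞' := by
        intro 𝒞' h1 h2 h3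
        by_contra h
        push Not at h
        exact hmin 𝒞' ⟨h1, h2.trans h𝒞c, h3.trans h𝒞s⟩ h
      -- the fibres are initial segments
      have hfib : ∀ c ∈ J, Ini N (J.erase c) (k + 1) (𝒞.filter (fun A => c ∉ cols N A)) ∧
          ∀ x ∈ (𝒞.sup id).filter (fun x => x % N = c),
            Ini N (J.erase c) k ((𝒞.filter (fun A => x ∈ A)).image (erase · x)) := by
        intro c hcJ
        obtain ⟨D, hD⟩ := decomp h𝒞 hcJ
        set S := (𝒞.sup id).filter (fun x => x % N = c) with hS
        set 𝒞₀ := 𝒞.filter (fun A => c ∉ cols N A) with h𝒞₀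
        set f : ℕ → Finset (Finset ℕ) := fun x => (𝒞.filter (fun A => x ∈ A)).image (erase · x)
          with hf
        have hJe : (J.erase c).card = n := by rw [card_erase_of_mem hcJ, hJn]; rfl
        have hJe' : ∀ j ∈ J.erase c, j < N := fun j hj => hJ j (mem_of_mem_erase hj)
        obtain ⟨ℐ₀, hℐ₀, hℐ₀c⟩ := D.h0.exists_ini
        have hex : ∀ x, ∃ ℐx, x ∈ S → Ini N (J.erase c) k ℐx ∧ ℐx.card = (f x).card := by
          intro x
          by_cases hx : x ∈ S
          · obtain ⟨ℐx, h1, h2⟩ := (D.hf x hx).exists_ini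
            exact ⟨ℐx, fun _ => ⟨h1, h2⟩⟩
          · exact ⟨∅, fun h => absurd h hx⟩
        choose g hg using hex
        have D' : GlueData N J c k S ℐ₀ g :=
          ⟨hcJ, D.hS, hℐ₀.fam, fun x hx => (hg x hx).1.fam⟩
        have hc1 : (glue S ℐ₀ g).card = 𝒞.card := by
          rw [D'.card, ← hD, D.card, hℐ₀c]
          congr 1
          exact sum_congr rfl (fun x hx => (hg x hx).2)
        have hs1 : (∂ (glue S ℐ₀ g)).card ≤ (∂ 𝒞).card := by
          have h1 : (∂ 𝒞).card = (∂ 𝒞₀ ∪ S.biUnion f).card + ∑ x ∈ S, (∂ (f x)).card := by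
            conv_lhs => rw [← hD]
            exact D.card_shadow
          rw [h1]
          refine (D'.card_shadow_le hJ hℐ₀ (fun x hx => (hg x hx).1)
            (P := (∂ 𝒞₀ ∪ S.biUnion f).card) ?_ ?_).trans ?_
          · exact (ih _ hJe hJe' _ _ _ D.h0 hℐ₀ hℐ₀c).trans (card_le_card subset_union_left)
          · intro x hx
            rw [(hg x hx).2]
            refine card_le_card (Subset.trans ?_ subset_union_right)
            exact subset_biUnion_of_mem f hx
          · refine Nat.add_le_add_left (sum_le_sum (fun x hx => ?_)) _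
            exact ih _ hJe hJe' _ _ _ (D.hf x hx) (hg x hx).1 (hg x hx).2
        have hw := hmin' _ D'.fam hc1 hs1
        have hW : Wt 𝒞 = Wt 𝒞₀ + ∑ x ∈ S, (2 ^ x * (f x).card + Wt (f x)) := by
          conv_lhs => rw [← hD]
          exact D.Wt
        rw [D'.Wt, hW] at hw
        have h0 := hℐ₀.Wt_le D.h0 hℐ₀c
        have hx : ∀ x ∈ S, 2 ^ x * (g x).card + Wt (g x) ≤ 2 ^ x * (f x).card + Wt (f x) := by
          intro x hx
          rw [(hg x hx).2]
          exact Nat.add_le_add_left ((hg x hx).1.Wt_le (D.hf x hx) (hg x hx).2).1 _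
        have hsum := sum_le_sum hx
        constructor
        · rw [← h0.2 (by omega)]; exact hℐ₀
        · intro x hxS
          have h1 : ∑ x ∈ S, (2 ^ x * (f x).card + Wt (f x)) ≤
              ∑ x ∈ S, (2 ^ x * (g x).card + Wt (g x)) := by omega
          have h2 : 2 ^ x * (f x).card + Wt (f x) ≤ 2 ^ x * (g x).card + Wt (g x) := by
            by_contra h
            push Not at h
            have := sum_lt_sum hx ⟨x, hxS, h⟩
            omega
          rw [(hg x hxS).2] at h2
          have h3 := ((hg x hxS).1.Wt_le (D.hf x hxS) (hg x hxS).2).2 (by omega)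
          have h4 := (hg x hxS).1
          rw [h3] at h4
          exact h4
      have hini : Ini N J (k + 1) 𝒞 := by
        refine ini_of_stable hJ h𝒞 ?_ ?_ hmin'
        · intro c hcJ A hA D hD hlt hcA hcD
          have h1 := (hfib c hcJ).1
          have hDr : Rb N (J.erase c) (k + 1) D := by
            refine ⟨hD.card, fun x hx => ?_, hD.inj⟩
            rw [mem_erase]
            exact ⟨fun he => hcD (mem_cols.mpr ⟨x, hx, he⟩), hD.mem x hx⟩
          have := h1.down A (mem_filter.mpr ⟨hA, hcA⟩) D hDr hlt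
          exact (mem_filter.mp this).1
        · intro x A hA hxA D hD hlt hxD
          have hAr := h𝒞 A hA
          have hcJ := hAr.mem x hxA
          have hxS : x ∈ (𝒞.sup id).filter (fun y => y % N = x % N) := by
            rw [mem_filter]
            exact ⟨(le_sup (f := id) hA : A ⊆ 𝒞.sup id) hxA, rfl⟩
          have h1 := (hfib _ hcJ).2 x hxS
          have h2 : A.erase x ∈ (𝒞.filter (fun A => x ∈ A)).image (erase · x) :=
            mem_image.mpr ⟨A, mem_filter.mpr ⟨hA, hxA⟩, rfl⟩
          have h3 := h1.down _ h2 (D.erase x) (hD.erase hxD) (by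
            have e1 := wt_erase hxA
            have e2 := wt_erase hxD
            omega)
          rw [mem_image] at h3
          obtain ⟨E, hE, hEe⟩ := h3
          rw [mem_filter] at hE
          have : E = D := by
            rw [← insert_erase hE.2, hEe, insert_erase hxD]
          rw [← this]; exact hE.1
      have : ℐ = 𝒞 := hℐ.ext hini (hc.trans h𝒞c.symm)
      rw [this]; exact h𝒞s

end Pool.Agent.Lib.MP_e9cf1e_co
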