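import Mathlib

set_option autoImplicit false
set_option linter.unusedSectionVars false
set_option linter.unusedVariables false

/-!
Weakly regular sequences, in elementary terms.
-/

namespace Pool.Agent.Lib.MP_e9cf1e_co

section

variable {R M : Type*} [CommRing R] [AddCommGroup M] [Module R M]

/-- `N + x M`. -/
def addx (N : Submodule R M) (x : R) : Submodule R M :=
  N ⊔ LinearMap.range (LinearMap.lsmul R M x)

lemma mem_addx {N : Submodule R M} {x : R} {m : M} :
    m ∈ addx N x ↔ ∃ n ∈ N, ∃ m', n + x • m' = m := by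
  unfold addx
  rw [Submodule.mem_sup]
  constructor
  · rintro ⟨n, hn, y, ⟨m', rfl⟩, h⟩
    exact ⟨n, hn, m', h⟩
  · rintro ⟨n, hn, m', h⟩
    exact ⟨n, hn, _, ⟨m', rfl⟩, h⟩

lemma le_addx (N : Submodule R M) (x : R) : N ≤ addx N x := le_sup_left

lemma smul_mem_addx (N : Submodule R M) (x : R) (m : M) : x • m ∈ addx N x :=
  mem_addx.mpr ⟨0, N.zero_mem, m, by rw [zero_add]⟩

/-- The sequence `Θ 0, …, Θ (n-1)` is weakly regular on `M / N`. -/
def WR : ℕ → (ℕ → R) → Submodule R M → Prop
  | 0, _, _ => True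
  | n + 1, Θ, N => (∀ m, Θ 0 • m ∈ N → m ∈ N) ∧ WR n (fun i => Θ (i + 1)) (addx N (Θ 0))

/-- The depth lemma for complexes. -/
theorem WR.of_complex (δ : M →ₗ[R] M) (hδ : ∀ m, δ (δ m) = 0) :
    ∀ (n : ℕ) (Θ : ℕ → R) (N : ℕ → Submodule R M),
      (∀ j, ∀ m ∈ N j, δ m ∈ N (j + 1)) →
      (∀ j, 0 < j → j < n → ∀ m, δ m ∈ N (j + 1) → ∃ m', m - δ m' ∈ N j) →
      (0 < n → ∀ m, δ m ∈ N 1 → m ∈ N 0) →
      (∀ j, 0 < j → WR n Θ (N j)) → WR n Θ (N 0) := by
  intro n
  induction n with
  | zero => intro Θ N _ _ _ _; trivial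
  | succ n ih =>
    intro Θ N hst hex hex0 hreg
    have hr : ∀ j, 0 < j → ∀ m, Θ 0 • m ∈ N j → m ∈ N j := fun j hj => (hreg j hj).1
    refine ⟨fun m hm => ?_, ?_⟩
    · apply hex0 (Nat.succ_pos n)
      apply hr 1 one_pos
      rw [← map_smul]
      exact hst 0 _ hm
    · refine ih (fun i => Θ (i + 1)) (fun j => addx (N j) (Θ 0)) ?_ ?_ ?_ ?_
      · intro j m hm
        rw [mem_addx] at hm ⊢
        obtain ⟨a, ha, b, rfl⟩ := hm
        exact ⟨δ a, hst j a ha, δ b, by rw [map_add, map_smul]⟩
      · intro j hj hjn m hm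
        rw [mem_addx] at hm
        obtain ⟨a, ha, b, hab⟩ := hm
        have h1 : Θ 0 • δ b = - δ a := by
          have h2 : δ (a + Θ 0 • b) = 0 := by rw [hab]; exact hδ m
          rw [map_add, map_smul] at h2
          exact (neg_eq_of_add_eq_zero_right h2).symm
        have h2 : δ b ∈ N (j + 1 + 1) := by
          apply hr (j + 1 + 1) (Nat.succ_pos _)
          rw [h1]
          exact neg_mem (hst (j + 1) a ha)
        obtain ⟨b', hb'⟩ := hex (j + 1) (Nat.succ_pos _) (by omega) b h2
        have h3 : δ (m - Θ 0 • b') ∈ N (j + 1) := by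
          have h4 : δ (m - Θ 0 • b') = a + Θ 0 • (b - δ b') := by
            rw [map_sub, map_smul, ← hab, smul_sub]; abel
          rw [h4]
          exact add_mem ha (Submodule.smul_mem _ _ hb')
        obtain ⟨m', hm'⟩ := hex j hj (by omega) _ h3
        refine ⟨m', ?_⟩
        rw [mem_addx]
        refine ⟨_, hm', b', ?_⟩
        abel
      · intro hn m hm
        rw [mem_addx] at hm
        obtain ⟨a, ha, b, hab⟩ := hm
        have h1 : Θ 0 • δ b = - δ a := by
          have h2 : δ (a + Θ 0 • b) = 0 := by rw [hab]; exact hδ m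
          rw [map_add, map_smul] at h2
          exact (neg_eq_of_add_eq_zero_right h2).symm
        have h2 : δ b ∈ N (1 + 1) := by
          apply hr (1 + 1) (Nat.succ_pos _)
          rw [h1]
          exact neg_mem (hst 1 a ha)
        obtain ⟨b', hb'⟩ := hex 1 one_pos (by omega) b h2
        have h3 : δ (m - Θ 0 • b') ∈ N 1 := by
          have h4 : δ (m - Θ 0 • b') = a + Θ 0 • (b - δ b') := by
            rw [map_sub, map_smul, ← hab, smul_sub]; abel
          rw [h4]
          exact add_mem ha (Submodule.smul_mem _ _ hb')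
        have h5 := hex0 (Nat.succ_pos _) _ h3
        rw [mem_addx]
        exact ⟨_, h5, b', by abel⟩
      · intro j hj
        exact (hreg j hj).2

lemma WR.top : ∀ (n : ℕ) (Θ : ℕ → R), WR n Θ (⊤ : Submodule R M) := by
  intro n
  induction n with
  | zero => intro Θ; trivial
  | succ n ih =>
    intro Θ
    refine ⟨fun m _ => Submodule.mem_top, ?_⟩
    have : addx (⊤ : Submodule R M) (Θ 0) = ⊤ := top_le_iff.mp (le_addx _ _)
    rw [this]
    exact ih _

variable {ι : Type*}

lemma addx_pi (I : ι → Submodule R M) (x : R) :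
    addx (Submodule.pi Set.univ I) x = Submodule.pi Set.univ (fun i => addx (I i) x) := by
  ext c
  rw [mem_addx, Submodule.mem_pi]
  constructor
  · rintro ⟨a, ha, b, rfl⟩ i _
    rw [Submodule.mem_pi] at ha
    exact mem_addx.mpr ⟨a i, ha i trivial, b i, rfl⟩
  · intro h
    have h1 : ∀ i, ∃ a ∈ I i, ∃ b, a + x • b = c i := fun i => mem_addx.mp (h i trivial)
    choose a ha b hab using h1
    refine ⟨a, ?_, b, ?_⟩
    · rw [Submodule.mem_pi]; exact fun i _ => ha i
    · funext i; exact hab i

lemma WR.pi : ∀ (n : ℕ) (Θ : ℕ → R) (I : ι → Submodule R M), (∀ i, WR n Θ (I i)) →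
    WR n Θ (Submodule.pi Set.univ I) := by
  intro n
  induction n with
  | zero => intro Θ I _; trivial
  | succ n ih =>
    intro Θ I h
    refine ⟨fun m hm => ?_, ?_⟩
    · rw [Submodule.mem_pi] at hm ⊢
      exact fun i _ => (h i).1 _ (hm i trivial)
    · rw [addx_pi]
      exact ih _ _ (fun i => (h i).2)

lemma WR.of_pi [DecidableEq ι] : ∀ (n : ℕ) (Θ : ℕ → R) (I : ι → Submodule R M),
    WR n Θ (Submodule.pi Set.univ I) → ∀ i, WR n Θ (I i) := by
  intro n
  induction n with
  | zero => intro Θ I _ i; trivial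
  | succ n ih =>
    intro Θ I h i
    refine ⟨fun m hm => ?_, ?_⟩
    · have h1 := h.1 (Pi.single i m) (by
        rw [Submodule.mem_pi]
        intro j _
        by_cases hij : j = i
        · subst hij
          rw [Pi.smul_apply, Pi.single_eq_same]; exact hm
        · rw [Pi.smul_apply, Pi.single_eq_of_ne hij, smul_zero]; exact Submodule.zero_mem _)
      rw [Submodule.mem_pi] at h1
      have := h1 i trivial
      rwa [Pi.single_eq_same] at this
    · have h2 := h.2
      rw [addx_pi] at h2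
      exact ih _ _ h2 i

end

/-- Weak regularity can be pulled back along ring homomorphisms that are surjective modulo the
ideal. -/
lemma WR.comap {R R' : Type*} [CommRing R] [CommRing R'] (φ : R →+* R') :
    ∀ (n : ℕ) (Θ : ℕ → R) (I : Ideal R'), (∀ p', ∃ p, p' - φ p ∈ I) →
      WR n (fun i => φ (Θ i)) I → WR n Θ (I.comap φ) := by
  intro n
  induction n with
  | zero => intro Θ I _ _; trivial
  | succ n ih =>
    intro Θ I hs h
    refine ⟨fun m hm => ?_, ?_⟩
    · rw [Ideal.mem_comap] at hm ⊢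
      rw [smul_eq_mul, map_mul] at hm
      exact h.1 _ hm
    · have h1 : addx (I.comap φ) (Θ 0) = Ideal.comap φ (addx I (φ (Θ 0))) := by
        ext p
        rw [mem_addx, Ideal.mem_comap, mem_addx]
        constructor
        · rintro ⟨a, ha, b, rfl⟩
          exact ⟨φ a, ha, φ b, by rw [smul_eq_mul, smul_eq_mul, map_add, map_mul]⟩
        · rintro ⟨a, ha, b, hab⟩
          obtain ⟨b', hb'⟩ := hs b
          refine ⟨p - Θ 0 * b', ?_, b', by rw [smul_eq_mul]; ring⟩
          rw [Ideal.mem_comap, map_sub, map_mul, ← hab]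
          have : a + φ (Θ 0) • b - φ (Θ 0) * φ b' = a + φ (Θ 0) * (b - φ b') := by
            rw [smul_eq_mul]; ring
          rw [this]
          exact Ideal.add_mem _ ha (Ideal.mul_mem_left _ _ hb')
      rw [h1]
      exact ih _ _ (fun p' => by
        obtain ⟨p, hp⟩ := hs p'
        exact ⟨p, le_addx _ _ hp⟩) h.2

end Pool.Agent.Lib.MP_e9cf1e_co
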