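import Pool.Agent.Lib.MP_e9cf1e_co.Links
import Pool.Agent.Lib.MP_e9cf1e_co.WReg

set_option autoImplicit false
set_option linter.unusedSectionVars false
set_option linter.unusedVariables false

/-!
Stanley-Reisner ideals and the exactness of the partition complex.
-/

namespace Pool.Agent.Lib.MP_e9cf1e_co

open Finset MvPolynomial

variable {V : Type*} [LinearOrder V] {Δ : Finset (Finset V)}

/-- The star of `G`. -/
def stc (Δ : Finset (Finset V)) (G : Finset V) : Finset (Finset V) :=
  Δ.filter (fun F => F ∪ G ∈ Δ)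

lemma IsComplex.mem_stc (h : IsComplex Δ) {F G : Finset V} : F ∈ stc Δ G ↔ F ∪ G ∈ Δ := by
  unfold stc
  rw [mem_filter]
  exact ⟨fun h1 => h1.2, fun h1 => ⟨h.down _ h1 _ subset_union_left, h1⟩⟩

/-- The Stanley-Reisner ideal of `L`. -/
noncomputable def srI (K : Type*) [Field K] (L : Finset (Finset V)) : Ideal (MvPolynomial V K) :=
  Ideal.span ((fun s => monomial s (1 : K)) '' {m | m.support ∉ L})

lemma mem_srI {K : Type*} [Field K] {L : Finset (Finset V)} (hL : ∀ F ∈ L, ∀ G ⊆ F, G ∈ L)
    {f : MvPolynomial V K} : f ∈ srI K L ↔ ∀ m, m.support ∈ L → coeff m f = 0 := by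
  unfold srI
  rw [mem_ideal_span_monomial_image]
  constructor
  · intro h m hm
    by_contra hne
    obtain ⟨s, hs, hsm⟩ := h m (mem_support_iff.mpr hne)
    exact hs (hL _ hm _ (Finsupp.support_mono hsm))
  · intro h m hm
    refine ⟨m, fun hL' => ?_, le_rfl⟩
    exact (mem_support_iff.mp hm) (h m hL')

lemma IsComplex.mem_srI_stc (h : IsComplex Δ) {K : Type*} [Field K] {G : Finset V}
    {f : MvPolynomial V K} : f ∈ srI K (stc Δ G) ↔ ∀ m, m.support ∪ G ∈ Δ → coeff m f = 0 := by
  rw [mem_srI]
  · constructor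
    · intro h1 m hm; exact h1 m (h.mem_stc.mpr hm)
    · intro h1 m hm; exact h1 m (h.mem_stc.mp hm)
  · intro F hF H hH
    rw [h.mem_stc] at hF ⊢
    exact h.down _ hF _ (union_subset_union_left hH)

lemma sg_smul_eq {R M : Type*} [CommRing R] [AddCommGroup M] [Module R M] (v : V) (F : Finset V)
    (m : M) : sg R v F • m = sg ℤ v F • m := by
  unfold sg
  rcases Nat.even_or_odd ((F.filter (fun u => u < v)).card) with h | h
  · rw [h.neg_one_pow, h.neg_one_pow, one_smul, one_smul]
  · rw [h.neg_one_pow, h.neg_one_pow, neg_smul, neg_smul, one_smul, one_smul]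

lemma cob_map {R S M M' : Type*} [CommRing R] [AddCommGroup M] [Module R M] [CommRing S]
    [AddCommGroup M'] [Module S M'] (f : M →+ M') (c : Finset V → M) (G : Finset V) :
    f (cob R c G) = cob S (fun F => f (c F)) G := by
  rw [cob_apply, cob_apply, map_sum]
  refine sum_congr rfl (fun v _ => ?_)
  rw [sg_smul_eq (R := R), map_zsmul, sg_smul_eq (R := S)]

/-- Exactness of the partition complex. -/
theorem exact_poly [Fintype V] {k K : Type*} [Field k] [Field K] [Algebra k K]
    (h : IsComplex Δ) (hcm : IsCM k Δ) {j : ℕ} (hj : j < maxCard Δ)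
    (c : Finset V → MvPolynomial V K)
    (hc : ∀ G ∈ Δ, G.card = j + 1 → cob (MvPolynomial V K) c G ∈ srI K (stc Δ G)) :
    ∃ b : Finset V → MvPolynomial V K, ∀ G ∈ Δ, G.card = j →
      c G - cob (MvPolynomial V K) b G ∈ srI K (stc Δ G) := by
  have hcoef : ∀ (m : V →₀ ℕ) (c : Finset V → MvPolynomial V K) (G : Finset V),
      coeff m (cob (MvPolynomial V K) c G) = cob k (fun F => coeff m (c F)) G := by
    intro m c G
    exact cob_map (R := MvPolynomial V K) (S := k) (coeffAddMonoidHom m) c G
  have hm : ∀ m : V →₀ ℕ, ∃ b : Finset V → K, ∀ G ∈ Δ, G.card = j → m.support ∪ G ∈ Δ →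
      cob k b G = coeff m (c G) := by
    intro m
    rcases m.support.eq_empty_or_nonempty with h0 | ⟨w, hw⟩
    · obtain ⟨b, hb⟩ := (hcm.acyclic h).cochain hj (fun F => coeff m (c F)) (by
        intro G hG hGc
        rw [← hcoef]
        refine h.mem_srI_stc.mp (hc G hG hGc) m ?_
        rw [h0, empty_union]; exact hG)
      exact ⟨b, fun G hG hGc _ => hb G hG hGc⟩
    · obtain ⟨b, hb⟩ := cone_cochain k w (fun F => coeff m (c F))
      refine ⟨b, fun G hG hGc hGm => hb G (fun hwG => ?_)⟩
      have h1 : m.support ∪ insert w G = m.support ∪ G := by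
        rw [union_insert, insert_eq_of_mem (mem_union_left _ hw)]
      rw [← hcoef]
      refine h.mem_srI_stc.mp (hc (insert w G) (h.down _ hGm _ ?_) ?_) m ?_
      · rw [← h1]; exact subset_union_right
      · rw [card_insert_of_notMem hwG, hGc]
      · rw [h1]; exact hGm
  choose b hb using hm
  set S : Finset (V →₀ ℕ) := (univ : Finset (Finset V)).biUnion (fun G => (c G).support) with hS
  refine ⟨fun G => ∑ m ∈ S, monomial m (b m G), fun G hG hGc => ?_⟩
  rw [h.mem_srI_stc]
  intro m hmG
  rw [coeff_sub, hcoef]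
  have h1 : (fun F => coeff m (∑ m' ∈ S, monomial m' (b m' F))) =
      fun F => if m ∈ S then b m F else 0 := by
    funext F
    rw [coeff_sum]
    simp only [coeff_monomial]
    rw [sum_ite_eq']
  rw [h1]
  by_cases hmS : m ∈ S
  · simp only [if_pos hmS]
    have := hb m G hG hGc hmG
    rw [this, sub_self]
  · simp only [if_neg hmS]
    have h2 : coeff m (c G) = 0 := by
      by_contra hne
      apply hmS
      rw [hS, mem_biUnion]
      exact ⟨G, mem_univ _, mem_support_iff.mpr hne⟩
    rw [h2, cob_apply]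
    simp

end Pool.Agent.Lib.MP_e9cf1e_co
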