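import Pool.Agent.Lib.MP_e9cf1e_co.Hilb
import Pool.Agent.Lib.MP_e9cf1e_co.SR

set_option autoImplicit false
set_option linter.unusedSectionVars false
set_option linter.unusedVariables false

/-!
Hilbert series.
-/

namespace Pool.Agent.Lib.MP_e9cf1e_co

open MvPolynomial Finset

section

variable {V K : Type*} [Field K] [Finite V]

lemma addx_eq {R : Type*} [CommRing R] (I : Ideal R) (x : R) : addx I x = I ⊔ Ideal.span {x} := by
  ext f
  rw [mem_addx, Submodule.mem_sup]
  constructor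
  · rintro ⟨a, ha, b, rfl⟩
    exact ⟨a, ha, x • b, Ideal.mem_span_singleton'.mpr ⟨b, by rw [smul_eq_mul, mul_comm]⟩, rfl⟩
  · rintro ⟨a, ha, b, hb, rfl⟩
    obtain ⟨c, rfl⟩ := Ideal.mem_span_singleton'.mp hb
    exact ⟨a, ha, c, by rw [smul_eq_mul, mul_comm]⟩

lemma Hf_addx_zero {I : Ideal (MvPolynomial V K)} (h : Homog I) {x : MvPolynomial V K}
    (hx : x ∈ homogeneousSubmodule V K 1) : Hf (I ⊔ Ideal.span {x}) 0 = Hf I 0 := by
  unfold Hf
  apply finrank_range_eq_of_ker
  ext f
  rw [mem_ker_ev, mem_ker_ev]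
  constructor
  · intro hf
    rw [Submodule.mem_sup] at hf
    obtain ⟨a, ha, b, hb, hab⟩ := hf
    obtain ⟨c, rfl⟩ := Ideal.mem_span_singleton'.mp hb
    have h5 : homogeneousComponent 0 (f : MvPolynomial V K) = f :=
      homogeneousComponent_eq_self ((mem_homogeneousSubmodule _ _).mp f.2)
    rw [← h5, ← hab, map_add, mul_comm c x, homogeneousComponent_zero_mul_lin hx, add_zero]
    exact h _ ha _
  · intro hf
    exact Ideal.mem_sup_left hf

/-- The Hilbert series. -/
noncomputable def PS (I : Ideal (MvPolynomial V K)) : PowerSeries ℤ :=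
  PowerSeries.mk (fun i => (Hf I i : ℤ))

lemma PS_sup {I : Ideal (MvPolynomial V K)} (h : Homog I) {x : MvPolynomial V K}
    (hx : x ∈ homogeneousSubmodule V K 1) (hreg : ∀ f, x * f ∈ I → f ∈ I) :
    PS (I ⊔ Ideal.span {x}) = (1 - PowerSeries.X) * PS I := by
  have hcol : col I x = I := by
    ext f
    rw [mem_col]
    exact ⟨hreg f, fun hf => Ideal.mul_mem_left _ _ hf⟩
  ext n
  rcases n with _ | n
  · rw [sub_mul, one_mul, map_sub, PowerSeries.coeff_zero_X_mul, sub_zero]
    unfold PS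
    rw [PowerSeries.coeff_mk, PowerSeries.coeff_mk, Hf_addx_zero h hx]
  · rw [sub_mul, one_mul, map_sub, PowerSeries.coeff_succ_X_mul]
    unfold PS
    rw [PowerSeries.coeff_mk, PowerSeries.coeff_mk, PowerSeries.coeff_mk, Hf_rec h hx, hcol]
    push_cast
    ring

/-- The ideal generated by `I` and `Θ 0, …, Θ (n-1)`. -/
def addn {R : Type*} [CommRing R] : ℕ → (ℕ → R) → Ideal R → Ideal R
  | 0, _, I => I
  | n + 1, Θ, I => addn n (fun i => Θ (i + 1)) (addx I (Θ 0))

lemma le_addn {R : Type*} [CommRing R] : ∀ (n : ℕ) (Θ : ℕ → R) (I : Ideal R), I ≤ addn n Θ I := by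
  intro n
  induction n with
  | zero => intro Θ I; exact le_rfl
  | succ n ih => intro Θ I; exact (le_addx _ _).trans (ih _ _)

lemma mem_addn {R : Type*} [CommRing R] : ∀ (n : ℕ) (Θ : ℕ → R) (I : Ideal R), ∀ i < n,
    Θ i ∈ addn n Θ I := by
  intro n
  induction n with
  | zero => intro Θ I i hi; omega
  | succ n ih =>
    intro Θ I i hi
    rcases i with _ | i
    · refine le_addn n _ _ ?_
      have := smul_mem_addx I (Θ 0) 1
      rwa [smul_eq_mul, mul_one] at this
    · exact ih (fun i => Θ (i + 1)) _ i (by omega)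

lemma PS_addn : ∀ (n : ℕ) (Θ : ℕ → MvPolynomial V K) (I : Ideal (MvPolynomial V K)), Homog I →
    (∀ i, Θ i ∈ homogeneousSubmodule V K 1) → WR n Θ I →
    Homog (addn n Θ I) ∧ PS (addn n Θ I) = (1 - PowerSeries.X) ^ n * PS I := by
  intro n
  induction n with
  | zero =>
    intro Θ I h _ _
    exact ⟨h, by rw [pow_zero, one_mul]; rfl⟩
  | succ n ih =>
    intro Θ I h hΘ hreg
    have h1 : Homog (addx I (Θ 0)) := by rw [addx_eq]; exact h.sup_span (hΘ 0)
    obtain ⟨h2, h3⟩ := ih (fun i => Θ (i + 1)) (addx I (Θ 0)) h1 (fun i => hΘ _) hreg.2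
    refine ⟨h2, ?_⟩
    change PS (addn n (fun i => Θ (i + 1)) (addx I (Θ 0))) = _
    rw [h3, addx_eq, PS_sup h (hΘ 0) hreg.1, pow_succ, mul_assoc]

end

section

variable {V : Type*} [LinearOrder V] [Fintype V] {K : Type*} [Field K] {Δ : Finset (Finset V)}

lemma homog_srI (hΔ : IsComplex Δ) : Homog (srI K Δ) := by
  intro f hf n
  rw [mem_srI hΔ.down] at hf ⊢
  intro m hm
  rw [coeff_homogeneousComponent]
  split_ifs
  · exact hf m hm
  · rfl

/-- The monomials of degree `i` with support in `Δ`. -/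
def mons (Δ : Finset (Finset V)) (i : ℕ) : Finset (V →₀ ℕ) :=
  (finsuppAntidiag univ i).filter (fun m => m.support ∈ Δ)

lemma mem_mons {m : V →₀ ℕ} {i : ℕ} : m ∈ mons Δ i ↔ m.degree = i ∧ m.support ∈ Δ := by
  unfold mons
  rw [mem_filter, mem_finsuppAntidiag, Finsupp.degree_eq_sum]
  simp

lemma Hf_srI (hΔ : IsComplex Δ) (i : ℕ) : Hf (srI K Δ) i = (mons Δ i).card := by
  set g : homogeneousSubmodule V K i →ₗ[K] (mons Δ i → K) :=
    LinearMap.pi (fun m => (lcoeff K (m : V →₀ ℕ)) ∘ₗ (homogeneousSubmodule V K i).subtype) with hg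
  have hgapp : ∀ f m, g f m = coeff (m : V →₀ ℕ) (f : MvPolynomial V K) := fun f m => rfl
  have h1 : LinearMap.ker (ev (srI K Δ) i) = LinearMap.ker g := by
    ext f
    rw [mem_ker_ev, mem_srI hΔ.down, LinearMap.mem_ker]
    constructor
    · intro h
      funext m
      rw [hgapp]
      exact h _ (mem_mons.mp m.2).2
    · intro h m hm
      by_cases hd : m.degree = i
      · have := congrFun h ⟨m, mem_mons.mpr ⟨hd, hm⟩⟩
        exact this
      · exact ((mem_homogeneousSubmodule _ _).mp f.2).coeff_eq_zero hd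
  have h2 : LinearMap.range g = ⊤ := by
    rw [LinearMap.range_eq_top]
    intro c
    refine ⟨⟨∑ m : mons Δ i, monomial (m : V →₀ ℕ) (c m), ?_⟩, ?_⟩
    · refine Submodule.sum_mem _ (fun m _ => ?_)
      rw [mem_homogeneousSubmodule]
      exact isHomogeneous_monomial _ (mem_mons.mp m.2).1
    · funext m
      rw [hgapp, coeff_sum]
      simp only [coeff_monomial]
      rw [sum_eq_single m]
      · rw [if_pos rfl]
      · intro b _ hb
        rw [if_neg (fun h => hb (Subtype.ext h))]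
      · intro h; exact absurd (mem_univ _) h
  unfold Hf
  rw [finrank_range_eq_of_ker _ _ h1, h2, finrank_top, Module.finrank_fintype_fun_eq_card,
    Fintype.card_coe]

/-- `X + X^2 + ⋯`. -/
noncomputable def geo : PowerSeries ℤ := PowerSeries.mk (fun n => if n = 0 then 0 else 1)

lemma one_sub_mul_geo : (1 - PowerSeries.X) * geo = PowerSeries.X := by
  ext n
  rcases n with _ | n
  · rw [sub_mul, one_mul, map_sub, PowerSeries.coeff_zero_X_mul, sub_zero]
    unfold geo
    rw [PowerSeries.coeff_mk, if_pos rfl, PowerSeries.coeff_zero_X]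
  · rw [sub_mul, one_mul, map_sub, PowerSeries.coeff_succ_X_mul]
    unfold geo
    rw [PowerSeries.coeff_mk, PowerSeries.coeff_mk, PowerSeries.coeff_X]
    rcases n with _ | n
    · simp
    · simp

lemma coeff_geo_pow (F : Finset V) (i : ℕ) :
    PowerSeries.coeff i (geo ^ F.card) =
      (((finsuppAntidiag univ i).filter (fun m => m.support = F)).card : ℤ) := by
  classical
  rw [← prod_const, PowerSeries.coeff_prod]
  have h1 : ∀ l ∈ finsuppAntidiag F i, ∏ v ∈ F, PowerSeries.coeff (l v) geo =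
      if (∀ v ∈ F, l v ≠ 0) then 1 else 0 := by
    intro l _
    unfold geo
    simp only [PowerSeries.coeff_mk]
    split_ifs with h
    · exact prod_eq_one (fun v hv => by rw [if_neg (h v hv)])
    · push Not at h
      obtain ⟨v, hv, h0⟩ := h
      exact prod_eq_zero hv (by rw [if_pos h0])
  rw [sum_congr rfl h1, sum_boole]
  congr 2
  ext m
  rw [mem_filter, mem_filter, mem_finsuppAntidiag, mem_finsuppAntidiag]
  constructor
  · rintro ⟨⟨h1, h2⟩, h3⟩
    have h4 : m.support = F :=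
      h2.antisymm (fun v hv => Finsupp.mem_support_iff.mpr (h3 v hv))
    refine ⟨⟨?_, subset_univ _⟩, h4⟩
    rw [← h1]
    symm
    apply sum_subset (subset_univ _)
    intro v _ hv
    by_contra hne
    exact hv (h2 (Finsupp.mem_support_iff.mpr hne))
  · rintro ⟨⟨h1, _⟩, h3⟩
    refine ⟨⟨?_, h3.subset⟩, ?_⟩
    · rw [← h1]
      apply sum_subset (subset_univ _)
      intro v _ hv
      by_contra hne
      exact hv (h3 ▸ (Finsupp.mem_support_iff.mpr hne))
    · intro v hv
      rw [← h3] at hv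
      exact Finsupp.mem_support_iff.mp hv

lemma PS_srI (hΔ : IsComplex Δ) : PS (srI K Δ) = ∑ F ∈ Δ, geo ^ F.card := by
  ext i
  unfold PS
  rw [PowerSeries.coeff_mk, Hf_srI hΔ, map_sum]
  simp only [coeff_geo_pow]
  rw [← Nat.cast_sum]
  congr 1
  rw [card_eq_sum_card_fiberwise (f := fun m : V →₀ ℕ => m.support) (t := Δ)]
  · refine sum_congr rfl (fun F hF => ?_)
    congr 1
    ext m
    unfold mons
    rw [mem_filter, mem_filter, mem_filter]
    constructor
    · rintro ⟨⟨h1, _⟩, h2⟩; exact ⟨h1, h2⟩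
    · rintro ⟨h1, h2⟩; exact ⟨⟨h1, h2 ▸ hF⟩, h2⟩
  · intro m hm
    exact (mem_mons.mp hm).2

/-- `∑ X^|F| (1-X)^(d-|F|)`. -/
noncomputable def hser {W : Type*} (d : ℕ) (Δ : Finset (Finset W)) : PowerSeries ℤ :=
  ∑ F ∈ Δ, PowerSeries.X ^ F.card * (1 - PowerSeries.X) ^ (d - F.card)

lemma PS_srI_mul (hΔ : IsComplex Δ) {d : ℕ} (hd : ∀ F ∈ Δ, F.card ≤ d) :
    (1 - PowerSeries.X) ^ d * PS (srI K Δ) = hser d Δ := by
  rw [PS_srI hΔ, mul_sum]
  unfold hser
  refine sum_congr rfl (fun F hF => ?_)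
  obtain ⟨e, he⟩ := Nat.exists_eq_add_of_le (hd F hF)
  rw [he, Nat.add_sub_cancel_left, pow_add, mul_comm ((1 - PowerSeries.X) ^ F.card), mul_assoc,
    ← mul_pow, one_sub_mul_geo, mul_comm]

end

end Pool.Agent.Lib.MP_e9cf1e_co
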