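import Pool.Agent.Lib.MP_e9cf1e_co.SR

set_option autoImplicit false
set_option linter.unusedSectionVars false
set_option linter.unusedVariables false

/-!
Generic linear forms are a weakly regular sequence on the Stanley-Reisner ring of a complex
that satisfies Reisner's criterion.
-/

namespace Pool.Agent.Lib.MP_e9cf1e_co

open Finset MvPolynomial

variable {V : Type*} [LinearOrder V] [Fintype V] {K : Type*} [Field K] {Δ : Finset (Finset V)}

/-- The linear form with coefficients `θ`. -/
noncomputable def lin (θ : V → K) : MvPolynomial V K := ∑ v, C (θ v) * X v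

/-- The genericity condition. -/
def Gen (Θ : ℕ → V → K) (Δ : Finset (Finset V)) : Prop :=
  ∀ F ∈ Δ, ∀ c : ℕ → K, (∀ v ∈ F, ∑ i ∈ range F.card, c i * Θ i v = 0) → ∀ i < F.card, c i = 0

lemma Gen.ne_zero {Θ : ℕ → V → K} (h : Gen Θ Δ) {v : V} (hv : {v} ∈ Δ) : Θ 0 v ≠ 0 := by
  intro h0
  have := h {v} hv (fun _ => 1) (by
    intro u hu
    rw [mem_singleton] at hu
    rw [hu, card_singleton, sum_range_one, h0, mul_zero]) 0 (by rw [card_singleton]; exact one_pos)
  exact one_ne_zero this

/-- Elimination. -/
noncomputable def elim (v : V) (Θ : ℕ → V → K) : ℕ → V → K :=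
  fun i u => Θ (i + 1) u - Θ (i + 1) v / Θ 0 v * Θ 0 u

lemma Gen.elim (hΔ : IsComplex Δ) {Θ : ℕ → V → K} (h : Gen Θ Δ) {v : V} (hv : {v} ∈ Δ) :
    Gen (elim v Θ) (link Δ {v}) := by
  intro F hF c hc i hi
  have h0 := h.ne_zero hv
  rw [hΔ.mem_link] at hF
  have hvF : v ∉ F := by
    have := hF.1
    rwa [disjoint_singleton_right] at this
  have hF' : insert v F ∈ Δ := by
    rw [insert_eq, union_comm]; exact hF.2
  have hcard : (insert v F).card = F.card + 1 := card_insert_of_notMem hvF
  set S : K := ∑ i ∈ range F.card, c i * Θ (i + 1) v with hS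
  set c' : ℕ → K := fun i => if i = 0 then - S / Θ 0 v else c (i - 1) with hc'
  have hc0 : c' 0 = - S / Θ 0 v := by rw [hc']; simp
  have hcs : ∀ i, c' (i + 1) = c i := fun i => by rw [hc']; simp
  have key := h _ hF' c' (by
    intro u hu
    rw [hcard, sum_range_succ', hc0]
    simp only [hcs]
    rw [mem_insert] at hu
    rcases hu with rfl | hu
    · rw [← hS]
      field_simp
      ring
    · have h1 := hc u hu
      unfold MP_e9cf1e_co.elim at h1
      have h2 : ∑ i ∈ range F.card, c i * (Θ (i + 1) u - Θ (i + 1) v / Θ 0 v * Θ 0 u) =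
          ∑ i ∈ range F.card, c i * Θ (i + 1) u - S / Θ 0 v * Θ 0 u := by
        rw [hS, sum_div, sum_mul, ← sum_sub_distrib]
        refine sum_congr rfl (fun i _ => ?_)
        ring
      rw [h2] at h1
      linear_combination h1)
  have := key (i + 1) (by rw [hcard]; omega)
  rwa [hcs] at this

/-- The substitution solving `θ = 0` for `x_v`. -/
noncomputable def solv (v : V) (θ : V → K) : MvPolynomial V K →ₐ[K] MvPolynomial V K :=
  aeval (fun u => if u = v then - (C (θ v)⁻¹ * ∑ w ∈ univ.erase v, C (θ w) * X w) else X u)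

section

variable {v : V} {θ : V → K}

lemma solv_X_self : solv v θ (X v) = - (C (θ v)⁻¹ * ∑ w ∈ univ.erase v, C (θ w) * X w) := by
  unfold solv; rw [aeval_X, if_pos rfl]

lemma solv_X_of_ne {u : V} (h : u ≠ v) : solv v θ (X u) = X u := by
  unfold solv; rw [aeval_X, if_neg h]

lemma lin_eq (v : V) (η : V → K) : lin η = C (η v) * X v + ∑ w ∈ univ.erase v, C (η w) * X w := by
  unfold lin
  rw [← add_sum_erase _ _ (mem_univ v)]

lemma solv_lin (η : V → K) : solv v θ (lin η) = ∑ w ∈ univ.erase v, C (η w - η v / θ v * θ w) * X w := by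
  rw [lin_eq v, map_add, map_mul, solv_X_self, map_sum]
  have h1 : ∀ w ∈ univ.erase v, solv v θ (C (η w) * X w) = C (η w) * X w := by
    intro w hw
    rw [map_mul, solv_X_of_ne (mem_erase.mp hw).1, ← algebraMap_eq, AlgHom.commutes]
  rw [sum_congr rfl h1]
  have h2 : solv v θ (C (η v)) = C (η v) := by rw [← algebraMap_eq, AlgHom.commutes]
  rw [h2]
  have h3 : ∀ w, (C (η w - η v / θ v * θ w) * X w : MvPolynomial V K) =
      C (η w) * X w - C (η v) * (C (θ v)⁻¹ * (C (θ w) * X w)) := by
    intro w
    rw [C_sub, C_mul, div_eq_mul_inv, C_mul]; ring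
  simp only [h3]
  rw [sum_sub_distrib, mul_sum, mul_neg, mul_sum]
  ring

lemma solv_lin_self (h : θ v ≠ 0) : solv v θ (lin θ) = 0 := by
  rw [solv_lin]
  refine sum_eq_zero (fun w _ => ?_)
  rw [div_self h, one_mul, sub_self, C_0, zero_mul]

lemma solv_lin_elim {Θ : ℕ → V → K} (h : Θ 0 v ≠ 0) (i : ℕ) :
    solv v (Θ 0) (lin (Θ (i + 1))) = lin (elim v Θ i) := by
  rw [solv_lin, lin_eq v (elim v Θ i)]
  unfold elim
  rw [div_mul_cancel₀ _ h, sub_self, C_0, zero_mul, zero_add]

lemma sub_solv_mem (h : θ v ≠ 0) (f : MvPolynomial V K) :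
    f - solv v θ f ∈ Ideal.span {lin θ} := by
  induction f using MvPolynomial.induction_on with
  | C a =>
    rw [← algebraMap_eq, AlgHom.commutes, sub_self]; exact Ideal.zero_mem _
  | add p q hp hq =>
    rw [map_add]
    have : p + q - (solv v θ p + solv v θ q) = (p - solv v θ p) + (q - solv v θ q) := by ring
    rw [this]
    exact Ideal.add_mem _ hp hq
  | mul_X p u hp =>
    rw [map_mul]
    have h1 : p * X u - solv v θ p * solv v θ (X u) =
        (p - solv v θ p) * X u + solv v θ p * (X u - solv v θ (X u)) := by ring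
    rw [h1]
    refine Ideal.add_mem _ (Ideal.mul_mem_right _ _ hp) (Ideal.mul_mem_left _ _ ?_)
    by_cases hu : u = v
    · subst hu
      rw [solv_X_self]
      have h2 : (X u - -(C (θ u)⁻¹ * ∑ w ∈ univ.erase u, C (θ w) * X w) : MvPolynomial V K) =
          C (θ u)⁻¹ * lin θ := by
        rw [lin_eq u, mul_add, ← mul_assoc, ← C_mul, inv_mul_cancel₀ h, C_1, one_mul]
        ring
      rw [h2]
      exact Ideal.mul_mem_left _ _ (Ideal.mem_span_singleton_self _)
    · rw [solv_X_of_ne hu, sub_self]; exact Ideal.zero_mem _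

lemma solv_mem_supported (f : MvPolynomial V K) : solv v θ f ∈ supported K ({v}ᶜ : Set V) := by
  have hX : ∀ u, u ≠ v → (X u : MvPolynomial V K) ∈ supported K ({v}ᶜ : Set V) := by
    intro u hu
    rw [X_mem_supported]
    simpa using hu
  have hC : ∀ a : K, (C a : MvPolynomial V K) ∈ supported K ({v}ᶜ : Set V) := by
    intro a
    rw [← algebraMap_eq]
    exact Subalgebra.algebraMap_mem _ a
  induction f using MvPolynomial.induction_on with
  | C a =>
    have : solv v θ (C a) = C a := by rw [← algebraMap_eq, AlgHom.commutes]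
    rw [this]
    exact hC a
  | add p q hp hq => rw [map_add]; exact Subalgebra.add_mem _ hp hq
  | mul_X p u hp =>
    rw [map_mul]
    refine Subalgebra.mul_mem _ hp ?_
    by_cases hu : u = v
    · subst hu
      rw [solv_X_self]
      refine Subalgebra.neg_mem _ (Subalgebra.mul_mem _ (hC _) (Subalgebra.sum_mem _ ?_))
      intro w hw
      exact Subalgebra.mul_mem _ (hC _) (hX w (mem_erase.mp hw).1)
    · rw [solv_X_of_ne hu]; exact hX u hu

lemma coeff_solv {f : MvPolynomial V K} {m : V →₀ ℕ} (hm : m v ≠ 0) :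
    coeff m (solv v θ f) = 0 := by
  by_contra hne
  have h1 := solv_mem_supported (v := v) (θ := θ) f
  rw [mem_supported] at h1
  have h2 : v ∈ (solv v θ f).vars := by
    rw [mem_vars_iff_mem_support]
    exact ⟨m, mem_support_iff.mpr hne, Finsupp.mem_support_iff.mpr hm⟩
  have := h1 h2
  simp at this

lemma solv_monomial {m : V →₀ ℕ} (hm : m v = 0) (c : K) :
    solv v θ (monomial m c) = monomial m c := by
  unfold solv
  rw [aeval_monomial, monomial_eq, algebraMap_eq]
  congr 1
  refine Finsupp.prod_congr (fun u hu => ?_)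
  have : u ≠ v := by
    rintro rfl
    exact (Finsupp.mem_support_iff.mp hu) hm
  rw [if_neg this]

lemma union_erase_mem_iff (hΔ : IsComplex Δ) {G S : Finset V} (hv : v ∈ G) :
    S.erase v ∪ G.erase v ∈ link Δ {v} ↔ S ∪ G ∈ Δ := by
  rw [hΔ.mem_link]
  have : S.erase v ∪ G.erase v ∪ {v} = S ∪ G := by
    ext x
    simp only [mem_union, mem_erase, mem_singleton]
    by_cases hx : x = v
    · subst hx; simp [hv]
    · simp [hx]
  rw [this]
  constructor
  · exact fun h => h.2
  · intro h
    exact ⟨by simp, h⟩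

lemma comap_solv (hΔ : IsComplex Δ) {G : Finset V} (hG : G ∈ Δ) (hv : v ∈ G) (h : θ v ≠ 0) :
    addx (srI K (stc Δ G)) (lin θ) =
      Ideal.comap (solv v θ).toRingHom (srI K (stc (link Δ {v}) (G.erase v))) := by
  have hvΔ : {v} ∈ Δ := hΔ.down _ hG _ (by simpa using hv)
  have hL := hΔ.link hvΔ
  ext f
  rw [mem_addx, Ideal.mem_comap]
  constructor
  · rintro ⟨a, ha, b, rfl⟩
    have h1 : (solv v θ).toRingHom (a + lin θ • b) = solv v θ a := by
      change solv v θ (a + lin θ • b) = solv v θ a
      rw [smul_eq_mul, map_add, map_mul, solv_lin_self h, zero_mul, add_zero]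
    rw [h1]
    unfold srI at ha
    have h2 : srI K (stc Δ G) ≤
        Ideal.comap (solv v θ).toRingHom (srI K (stc (link Δ {v}) (G.erase v))) := by
      conv_lhs => unfold srI
      rw [Ideal.span_le]
      rintro _ ⟨m, hm, rfl⟩
      rw [SetLike.mem_coe, Ideal.mem_comap]
      change solv v θ (monomial m 1) ∈ _
      have h3 : (monomial m 1 : MvPolynomial V K) =
          monomial (Finsupp.single v (m v)) 1 * monomial (m.erase v) 1 := by
        rw [monomial_mul, one_mul, Finsupp.single_add_erase]
      rw [h3, map_mul, solv_monomial (m := m.erase v) (Finsupp.erase_same)]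
      refine Ideal.mul_mem_left _ _ ?_
      rw [hL.mem_srI_stc]
      intro m' hm'
      rw [coeff_monomial, if_neg]
      rintro rfl
      apply hm
      rw [Finsupp.support_erase, union_erase_mem_iff hΔ hv] at hm'
      exact hΔ.mem_stc.mpr hm'
    exact h2 ha
  · intro hf
    change solv v θ f ∈ _ at hf
    have h1 := sub_solv_mem (v := v) h f
    rw [Ideal.mem_span_singleton'] at h1
    obtain ⟨b, hb⟩ := h1
    refine ⟨solv v θ f, ?_, b, ?_⟩
    · rw [hΔ.mem_srI_stc]
      intro m hm
      by_cases hmv : m v = 0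
      · rw [hL.mem_srI_stc] at hf
        apply hf
        have : m.support = m.support.erase v := by
          rw [erase_eq_of_notMem]
          rw [Finsupp.mem_support_iff]
          exact fun hh => hh hmv
        rw [this, union_erase_mem_iff hΔ hv]
        exact hm
      · exact coeff_solv hmv
    · rw [smul_eq_mul, mul_comm, hb]; ring

lemma surj_solv (hΔ : IsComplex Δ) {G : Finset V} (hG : G ∈ Δ) (hv : v ∈ G)
    (p' : MvPolynomial V K) :
    ∃ p, p' - (solv v θ).toRingHom p ∈ srI K (stc (link Δ {v}) (G.erase v)) := by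
  have hvΔ : {v} ∈ Δ := hΔ.down _ hG _ (by simpa using hv)
  have hL := hΔ.link hvΔ
  have hXv : (X v : MvPolynomial V K) ∈ srI K (stc (link Δ {v}) (G.erase v)) := by
    rw [hL.mem_srI_stc]
    intro m hm
    rw [coeff_X, if_neg]
    rintro rfl
    rw [hΔ.mem_link] at hm
    have := hm.1
    rw [disjoint_singleton_right] at this
    apply this
    rw [mem_union]
    left
    rw [Finsupp.mem_support_iff]
    simp
  change ∃ p, p' - solv v θ p ∈ _
  induction p' using MvPolynomial.induction_on with
  | C a =>
    refine ⟨C a, ?_⟩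
    rw [← algebraMap_eq, AlgHom.commutes, sub_self]; exact Ideal.zero_mem _
  | add p q hp hq =>
    obtain ⟨p', hp'⟩ := hp
    obtain ⟨q', hq'⟩ := hq
    refine ⟨p' + q', ?_⟩
    rw [map_add]
    have : p + q - (solv v θ p' + solv v θ q') = (p - solv v θ p') + (q - solv v θ q') := by ring
    rw [this]
    exact Ideal.add_mem _ hp' hq'
  | mul_X p u hp =>
    by_cases hu : u = v
    · subst hu
      refine ⟨0, ?_⟩
      rw [map_zero, sub_zero]
      exact Ideal.mul_mem_left _ _ hXv
    · obtain ⟨p', hp'⟩ := hp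
      refine ⟨p' * X u, ?_⟩
      rw [map_mul, solv_X_of_ne hu, ← sub_mul]
      exact Ideal.mul_mem_right _ _ hp'

/-- A linear form which does not vanish at the apex of a cone is a nonzerodivisor. -/
lemma lin_regular (hΔ : IsComplex Δ) {G : Finset V} (hv : v ∈ G) (h : θ v ≠ 0)
    {f : MvPolynomial V K} (hf : lin θ * f ∈ srI K (stc Δ G)) : f ∈ srI K (stc Δ G) := by
  rw [hΔ.mem_srI_stc] at hf ⊢
  by_contra hcon
  push Not at hcon
  obtain ⟨m₀, hm₀, hm₀'⟩ := hcon
  -- a bad monomial with maximal exponent at `v`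
  set B := f.support.filter (fun m => m.support ∪ G ∈ Δ) with hB
  have hBne : B.Nonempty := ⟨m₀, by rw [hB, mem_filter]; exact ⟨mem_support_iff.mpr hm₀', hm₀⟩⟩
  obtain ⟨m, hm, hmax⟩ := exists_max_image B (fun m => m v) hBne
  rw [hB, mem_filter] at hm
  have h1 : (m + Finsupp.single v 1).support ∪ G ∈ Δ := by
    refine hΔ.down _ hm.2 _ ?_
    intro x hx
    rw [mem_union, Finsupp.mem_support_iff, Finsupp.add_apply] at hx
    rw [mem_union, Finsupp.mem_support_iff]
    rcases hx with hx | hx
    · by_cases hxv : x = v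
      · right; rw [hxv]; exact hv
      · left
        rwa [Finsupp.single_eq_of_ne hxv, add_zero] at hx
    · right; exact hx
  have h2 := hf _ h1
  rw [lin, sum_mul, coeff_sum] at h2
  have h3 : ∀ u ∈ (univ : Finset V), u ≠ v →
      coeff (m + Finsupp.single v 1) (C (θ u) * X u * f) = 0 := by
    intro u _ huv
    rw [mul_assoc, coeff_C_mul, coeff_X_mul']
    split_ifs with hu
    · have h4 : coeff (m + Finsupp.single v 1 - Finsupp.single u 1) f = 0 := by
        by_contra hne
        have h5 := hmax (m + Finsupp.single v 1 - Finsupp.single u 1) (by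
          rw [hB, mem_filter]
          refine ⟨mem_support_iff.mpr hne, hΔ.down _ h1 _ ?_⟩
          refine union_subset_union_left (fun x hx => ?_)
          rw [Finsupp.mem_support_iff] at hx ⊢
          intro h0
          apply hx
          rw [Finsupp.tsub_apply, h0, zero_tsub])
        rw [Finsupp.tsub_apply, Finsupp.add_apply, Finsupp.single_eq_same,
          Finsupp.single_eq_of_ne huv.symm] at h5
        omega
      rw [h4, mul_zero]
    · rw [mul_zero]
  rw [sum_eq_single v h3 (fun h => absurd (mem_univ _) h), mul_assoc, coeff_C_mul, add_comm m,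
    coeff_X_mul] at h2
  rcases mul_eq_zero.mp h2 with h6 | h6
  · exact h h6
  · exact (mem_support_iff.mp hm.1) h6

end

/-- Reisner's criterion implies that generic linear forms are a weakly regular sequence. -/
theorem regular_main (k : Type*) [Field k] [Algebra k K] :
    ∀ (d : ℕ) (Δ : Finset (Finset V)), IsComplex Δ → IsCM k Δ → maxCard Δ = d →
      ∀ Θ : ℕ → V → K, Gen Θ Δ → ∀ G ∈ Δ, WR d (fun i => lin (Θ i)) (srI K (stc Δ G)) := by
  intro d
  induction d with
  | zero => intro Δ _ _ _ Θ _ G _; trivial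
  | succ d ih =>
    intro Δ hΔ hcm hd Θ hΘ
    have key : ∀ G ∈ Δ, G.Nonempty → WR (d + 1) (fun i => lin (Θ i)) (srI K (stc Δ G)) := by
      rintro G hG ⟨v, hv⟩
      have hvΔ : {v} ∈ Δ := hΔ.down _ hG _ (by simpa using hv)
      have h0 := hΘ.ne_zero hvΔ
      refine ⟨fun f hf => lin_regular hΔ hv h0 hf, ?_⟩
      rw [comap_solv hΔ hG hv h0]
      refine WR.comap _ _ _ _ (surj_solv hΔ hG hv) ?_
      have h1 : (fun i => (solv v (Θ 0)).toRingHom (lin (Θ (i + 1)))) =
          fun i => lin (elim v Θ i) := by
        funext i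
        exact solv_lin_elim h0 i
      rw [h1]
      refine ih _ (hΔ.link hvΔ) (hcm.link hΔ hvΔ) ?_ _ (hΘ.elim hΔ hvΔ) _ ?_
      · have := maxCard_link hΔ hcm hvΔ
        omega
      · rw [hΔ.mem_link]
        refine ⟨by simp, ?_⟩
        have : G.erase v ∪ {v} = G := by
          rw [union_comm, ← insert_eq, insert_erase hv]
        rw [this]; exact hG
    intro G hG
    rcases G.eq_empty_or_nonempty with rfl | hne
    · classical
      set N : ℕ → Submodule (MvPolynomial V K) (Finset V → MvPolynomial V K) := fun j =>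
        Submodule.pi Set.univ (fun G => if G ∈ Δ ∧ G.card = j then srI K (stc Δ G) else ⊤) with hN
      have hmemN : ∀ j m, m ∈ N j ↔ ∀ G ∈ Δ, G.card = j → m G ∈ srI K (stc Δ G) := by
        intro j m
        rw [hN, Submodule.mem_pi]
        constructor
        · intro h G hG hGc
          have := h G trivial
          rwa [if_pos ⟨hG, hGc⟩] at this
        · intro h G _
          split_ifs with h1
          · exact h G h1.1 h1.2
          · exact Submodule.mem_top
      have hWR : WR (d + 1) (fun i => lin (Θ i)) (N 0) := by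
        refine WR.of_complex (cob (MvPolynomial V K)) cob_cob (d + 1) _ N ?_ ?_ ?_ ?_
        · intro j m hm
          rw [hmemN] at hm ⊢
          intro G hG hGc
          rw [cob_apply]
          refine Submodule.sum_mem _ (fun v hv => Submodule.smul_mem _ _ ?_)
          have h1 := hm (G.erase v) (hΔ.down _ hG _ (erase_subset _ _))
            (by rw [card_erase_of_mem hv, hGc]; rfl)
          rw [hΔ.mem_srI_stc] at h1 ⊢
          intro x hx
          exact h1 x (hΔ.down _ hx _ (union_subset_union_right (erase_subset _ _)))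
        · intro j hj hjd m hm
          rw [hmemN] at hm
          obtain ⟨b, hb⟩ := exact_poly (k := k) hΔ hcm (by omega) m hm
          refine ⟨b, ?_⟩
          rw [hmemN]
          exact hb
        · intro _ m hm
          rw [hmemN] at hm ⊢
          obtain ⟨b, hb⟩ := exact_poly (k := k) hΔ hcm (j := 0) (by omega) m hm
          intro G hG hGc
          have h1 := hb G hG hGc
          rw [card_eq_zero] at hGc
          subst hGc
          rwa [cob_apply, sum_empty, sub_zero] at h1
        · intro j hj
          refine WR.pi _ _ _ (fun G => ?_)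
          split_ifs with h1
          · exact key G h1.1 (card_pos.mp (by omega))
          · exact WR.top _ _
      have := WR.of_pi _ _ _ hWR ∅
      rwa [if_pos ⟨hG, card_empty⟩] at this
    · exact key G hG hne

end Pool.Agent.Lib.MP_e9cf1e_co
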