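import Pool.Agent.Lib.MP_e9cf1e_co.Cls
import Pool.Agent.Lib.MP_e9cf1e_co.HilbSer
import Pool.Agent.Lib.MP_e9cf1e_co.Reg

set_option autoImplicit false
set_option linter.unusedSectionVars false
set_option linter.unusedVariables false

/-!
Vandermonde linear forms, and the class `Cls` for Stanley-Reisner ideals of flag complexes.
-/

namespace Pool.Agent.Lib.MP_e9cf1e_co

open MvPolynomial Finset
open scoped Classical FinsetFamily

variable {V : Type*} [LinearOrder V] [Fintype V] {K : Type*} [Field K] {Δ : Finset (Finset V)}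

lemma gen_vandermonde {t : V → K} (ht : Function.Injective t) (Δ : Finset (Finset V)) :
    Gen (fun i v => t v ^ i) Δ := by
  intro F _ c hc i hi
  set p : Polynomial K := ∑ i ∈ range F.card, Polynomial.C (c i) * Polynomial.X ^ i with hp
  have h0 : p = 0 := by
    apply Polynomial.eq_zero_of_degree_lt_of_eval_finset_eq_zero (F.image t)
    · rw [card_image_of_injective _ ht, hp, Polynomial.degree_lt_iff_coeff_zero]
      intro m hm
      rw [Polynomial.finsetSum_coeff]
      refine sum_eq_zero (fun j hj => ?_)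
      rw [mem_range] at hj
      rw [Polynomial.coeff_C_mul, Polynomial.coeff_X_pow, if_neg (by omega), mul_zero]
    · intro x hx
      rw [mem_image] at hx
      obtain ⟨v, hv, rfl⟩ := hx
      rw [hp, Polynomial.eval_finsetSum]
      simpa using hc v hv
  have h1 : p.coeff i = c i := by
    rw [hp, Polynomial.finsetSum_coeff]
    simp only [Polynomial.coeff_C_mul, Polynomial.coeff_X_pow]
    rw [sum_eq_single i]
    · rw [if_pos rfl, mul_one]
    · intro j _ hj
      rw [if_neg hj.symm, mul_zero]
    · intro h; exact absurd (mem_range.mpr hi) h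
  rw [← h1, h0, Polynomial.coeff_zero]

/-- On a face one can interpolate with the generic forms. -/
lemma Gen.interp {Θ : ℕ → V → K} (h : Gen Θ Δ) {F : Finset V} (hF : F ∈ Δ) (v : V) :
    ∃ c : ℕ → K, ∀ u ∈ F, ∑ i ∈ range F.card, c i * Θ i u = if u = v then 1 else 0 := by
  set f : (Fin F.card → K) →ₗ[K] (F → K) :=
    LinearMap.pi (fun u => ∑ i : Fin F.card, (Θ i u) • LinearMap.proj i) with hf
  have hfapp : ∀ c u, f c u = ∑ i : Fin F.card, c i * Θ i u := by
    intro c u
    rw [hf, LinearMap.pi_apply, LinearMap.sum_apply]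
    refine sum_congr rfl (fun i _ => ?_)
    rw [LinearMap.smul_apply, LinearMap.proj_apply, smul_eq_mul, mul_comm]
  have hsum : ∀ (c : ℕ → K) u, ∑ i ∈ range F.card, c i * Θ i u =
      ∑ i : Fin F.card, c i * Θ i u := by
    intro c u
    rw [Finset.sum_range]
  have hinj : Function.Injective f := by
    rw [← LinearMap.ker_eq_bot, LinearMap.ker_eq_bot']
    intro c hc
    have h1 := h F hF (fun i => if hi : i < F.card then c ⟨i, hi⟩ else 0) (by
      intro u hu
      rw [hsum]
      have h2 := congrFun hc ⟨u, hu⟩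
      rw [hfapp, Pi.zero_apply] at h2
      rw [← h2]
      refine sum_congr rfl (fun i _ => ?_)
      rw [dif_pos i.2])
    funext i
    have := h1 i i.2
    rwa [dif_pos i.2] at this
  have hsurj : Function.Surjective f := by
    rw [← LinearMap.injective_iff_surjective_of_finrank_eq_finrank]
    · exact hinj
    · rw [Module.finrank_fintype_fun_eq_card, Module.finrank_fintype_fun_eq_card, Fintype.card_fin,
        Fintype.card_coe]
  obtain ⟨c, hc⟩ := hsurj (fun u => if (u : V) = v then 1 else 0)
  refine ⟨fun i => if hi : i < F.card then c ⟨i, hi⟩ else 0, fun u hu => ?_⟩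
  rw [hsum]
  have h2 := congrFun hc ⟨u, hu⟩
  rw [hfapp] at h2
  rw [← h2]
  refine sum_congr rfl (fun i _ => ?_)
  rw [dif_pos i.2]

/-- If all variables outside a face `F` are in `I`, and the generic forms are in `I`, then all
variables are in `I`. -/
lemma Gen.X_mem {Θ : ℕ → V → K} (h : Gen Θ Δ) {F : Finset V} (hF : F ∈ Δ)
    {I : Ideal (MvPolynomial V K)} (hΘ : ∀ i < F.card, lin (Θ i) ∈ I)
    (hI : ∀ w, w ∉ F → X w ∈ I) (v : V) : X v ∈ I := by
  by_cases hv : v ∈ F
  · obtain ⟨c, hc⟩ := h.interp hF v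
    have h1 : ∑ i ∈ range F.card, C (c i) * lin (Θ i) ∈ I :=
      Ideal.sum_mem _ (fun i hi => Ideal.mul_mem_left _ _ (hΘ i (mem_range.mp hi)))
    have h2 : ∑ i ∈ range F.card, C (c i) * lin (Θ i) =
        ∑ u, C (∑ i ∈ range F.card, c i * Θ i u) * X u := by
      unfold lin
      simp only [mul_sum, map_sum, sum_mul]
      rw [sum_comm]
      refine sum_congr rfl (fun u _ => sum_congr rfl (fun i _ => ?_))
      rw [C_mul, mul_assoc]
    rw [h2, ← sum_add_sum_compl F] at h1
    have h3 : ∑ u ∈ F, C (∑ i ∈ range F.card, c i * Θ i u) * X u = (X v : MvPolynomial V K) := by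
      rw [sum_eq_single_of_mem v hv]
      · rw [hc v hv, if_pos rfl, C_1, one_mul]
      · intro u hu huv
        rw [hc u hu, if_neg huv, C_0, zero_mul]
    have h4 : ∑ u ∈ Fᶜ, C (∑ i ∈ range F.card, c i * Θ i u) * X u ∈ I :=
      Ideal.sum_mem _ (fun u hu => Ideal.mul_mem_left _ _ (hI u (mem_compl.mp hu)))
    rw [h3] at h1
    have := Ideal.sub_mem _ h1 h4
    rwa [add_sub_cancel_right] at this
  · exact hI v hv

/-- The adjacency relation. -/
def adj (Δ : Finset (Finset V)) (u v : V) : Prop := u ≠ v ∧ {u, v} ∈ Δ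

lemma adj_symm {u v : V} (h : adj Δ u v) : adj Δ v u := ⟨h.1.symm, by rw [pair_comm]; exact h.2⟩

/-- The vertices of the link of `F`. -/
noncomputable def lkv (Δ : Finset (Finset V)) (F : Finset V) : Finset V :=
  univ.filter (fun w => w ∉ F ∧ insert w F ∈ Δ)

lemma mem_lkv {F : Finset V} {w : V} : w ∈ lkv Δ F ↔ w ∉ F ∧ insert w F ∈ Δ := by
  unfold lkv
  rw [mem_filter]
  exact ⟨fun h => h.2, fun h => ⟨mem_univ _, h⟩⟩

lemma lkv_filter (hΔ : IsComplex Δ) (hflag : IsFlag Δ) {F : Finset V} {v : V} (hv : v ∈ lkv Δ F) :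
    (lkv Δ F).filter (fun w => adj Δ v w) = lkv Δ (insert v F) := by
  rw [mem_lkv] at hv
  ext w
  rw [mem_filter, mem_lkv, mem_lkv]
  constructor
  · rintro ⟨⟨h1, h2⟩, h3, h4⟩
    refine ⟨?_, ?_⟩
    · rw [mem_insert]
      rintro (h | h)
      · exact h3 h.symm
      · exact h1 h
    · apply hflag
      intro a ha b hb
      have hface : ∀ x y, x ∈ insert w F → y ∈ insert w F → {x, y} ∈ Δ := by
        intro x y hx hy
        refine hΔ.down _ h2 _ ?_
        intro z hz
        rw [mem_insert, mem_singleton] at hz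
        rcases hz with rfl | rfl
        · exact hx
        · exact hy
      have hface' : ∀ x y, x ∈ insert v F → y ∈ insert v F → {x, y} ∈ Δ := by
        intro x y hx hy
        refine hΔ.down _ hv.2 _ ?_
        intro z hz
        rw [mem_insert, mem_singleton] at hz
        rcases hz with rfl | rfl
        · exact hx
        · exact hy
      rw [mem_insert] at ha hb
      rcases ha with rfl | ha
      · rcases hb with rfl | hb
        · exact hface _ _ (mem_insert_self _ _) (mem_insert_self _ _)
        · rw [mem_insert] at hb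
          rcases hb with rfl | hb
          · rw [pair_comm]; exact h4
          · exact hface _ _ (mem_insert_self _ _) (mem_insert_of_mem hb)
      · rcases hb with rfl | hb
        · rw [mem_insert] at ha
          rcases ha with rfl | ha
          · exact h4
          · exact hface _ _ (mem_insert_of_mem ha) (mem_insert_self _ _)
        · exact hface' _ _ ha hb
  · rintro ⟨h1, h2⟩
    rw [mem_insert, not_or] at h1
    refine ⟨⟨h1.2, hΔ.down _ h2 _ ?_⟩, fun h => h1.1 h.symm, hΔ.down _ h2 _ ?_⟩
    · exact insert_subset_insert _ (subset_insert _ _)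
    · intro z hz
      rw [mem_insert, mem_singleton] at hz
      rcases hz with rfl | rfl
      · exact mem_insert_of_mem (mem_insert_self _ _)
      · exact mem_insert_self _ _

theorem cls_flag (hΔ : IsComplex Δ) (hflag : IsFlag Δ) {d : ℕ} (hd : maxCard Δ = d)
    {Θ : ℕ → V → K} (hΘ : Gen Θ Δ) :
    ∀ (r : ℕ) (F : Finset V), F ∈ Δ → F.card + r = d → ∀ I : Ideal (MvPolynomial V K),
      (∀ i < d, lin (Θ i) ∈ I) → (∀ w, w ∉ F → w ∉ lkv Δ F → X w ∈ I) →
      Cls (adj Δ) r (lkv Δ F) I := by
  intro r
  induction r with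
  | zero =>
    intro F hF hFd I hI hX
    have h1 : lkv Δ F = ∅ := by
      rw [eq_empty_iff_forall_notMem]
      intro w hw
      rw [mem_lkv] at hw
      have := card_le_maxCard hw.2
      rw [card_insert_of_notMem hw.1] at this
      omega
    exact hΘ.X_mem hF (fun i hi => hI i (by omega)) (fun w hw => hX w hw (by rw [h1]; simp))
  | succ r ih =>
    intro F hF hFd I hI hX
    refine ⟨fun h1 => ?_, fun v hv => ?_⟩
    · exact hΘ.X_mem hF (fun i hi => hI i (by omega)) (fun w hw => hX w hw (by rw [h1]; simp))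
    · have hv' := mem_lkv.mp hv
      rw [lkv_filter hΔ hflag hv]
      refine ih (insert v F) hv'.2 (by rw [card_insert_of_notMem hv'.1]; omega) _ ?_ ?_
      · intro i hi; exact Ideal.mem_sup_left (hI i hi)
      · intro w hw hw'
        rw [mem_insert, not_or] at hw
        by_cases hwl : w ∈ lkv Δ F
        · apply Ideal.mem_sup_right
          apply X_mem_varI
          refine (@Finset.mem_filter V _ (_) _ _).mpr ⟨hwl, hw.1, fun hadj => ?_⟩
          apply hw'
          rw [← lkv_filter hΔ hflag hv, mem_filter]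
          exact ⟨hwl, hadj⟩
        · exact Ideal.mem_sup_left (hX w hw.2 hwl)

/-- The `h`-numbers of a flag Cohen-Macaulay complex. -/
theorem exists_numbers (k : Type*) [Field k] [Algebra k K] [Infinite K] (hΔ : IsComplex Δ)
    (hflag : IsFlag Δ) (hcm : IsCM k Δ) {d : ℕ} (hd : maxCard Δ = d) :
    ∃ a : ℕ → ℕ, a 0 = 1 ∧ (∀ i, d < i → a i = 0) ∧
      (∀ i, ∃ 𝒜, Fam d (range d) (i + 1) 𝒜 ∧ 𝒜.card = a (i + 1) ∧ (∂ 𝒜).card ≤ a i) ∧
      PowerSeries.mk (fun i => (a i : ℤ)) = hser d Δ := by
  -- distinct elements of `K`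
  obtain ⟨e, he⟩ : ∃ e : V → ℕ, Function.Injective e :=
    ⟨fun v => (Fintype.equivFin V v : ℕ), fun a b h => (Fintype.equivFin V).injective (Fin.ext h)⟩
  obtain ⟨t, ht⟩ : ∃ t : V → K, Function.Injective t :=
    ⟨fun v => Infinite.natEmbedding K (e v), fun a b h => he ((Infinite.natEmbedding K).injective h)⟩
  set Θ : ℕ → V → K := fun i v => t v ^ i with hΘ
  have hgen : Gen Θ Δ := gen_vandermonde ht Δ
  have hreg : WR d (fun i => lin (Θ i)) (srI K Δ) := by
    have := regular_main k d Δ hΔ hcm hd Θ hgen ∅ hΔ.empty_mem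
    have h1 : stc Δ ∅ = Δ := by
      ext F
      rw [hΔ.mem_stc, union_empty]
    rwa [h1] at this
  have hlin : ∀ θ : V → K, lin θ ∈ homogeneousSubmodule V K 1 := by
    intro θ
    refine Submodule.sum_mem _ (fun v _ => ?_)
    rw [mem_homogeneousSubmodule]
    exact isHomogeneous_C_mul_X _ _
  obtain ⟨h1, h2⟩ := PS_addn d (fun i => lin (Θ i)) (srI K Δ) (homog_srI hΔ) (fun i => hlin _) hreg
  set I := addn d (fun i => lin (Θ i)) (srI K Δ) with hI
  rw [PS_srI_mul hΔ (fun F hF => hd ▸ card_le_maxCard hF)] at h2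
  have hIle : srI K Δ ≤ I := le_addn _ _ _
  have hcls : Cls (adj Δ) d (lkv Δ ∅) I := by
    refine cls_flag hΔ hflag hd hgen d ∅ hΔ.empty_mem (by simp) I ?_ ?_
    · intro i hi
      exact mem_addn d (fun i => lin (Θ i)) (srI K Δ) i hi
    · intro w _ hw
      apply hIle
      rw [mem_srI hΔ.down]
      intro m hm
      rw [coeff_X, if_neg]
      rintro rfl
      apply hw
      rw [mem_lkv]
      refine ⟨notMem_empty _, ?_⟩
      have h5 : (Finsupp.single w 1 : V →₀ ℕ).support = insert w ∅ := by
        ext x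
        rw [Finsupp.mem_support_iff, Finsupp.single_apply, mem_insert]
        by_cases hx : w = x
        · subst hx; simp
        · simp [hx, Ne.symm hx]
      rwa [h5] at hm
  have hprod : ∀ u v, u ≠ v → ¬ adj Δ u v → (X u * X v : MvPolynomial V K) ∈ I := by
    intro u v huv hadj
    apply hIle
    rw [mem_srI hΔ.down]
    intro m hm
    have h3 : (X u * X v : MvPolynomial V K) =
        monomial (Finsupp.single u 1 + Finsupp.single v 1) 1 := by
      rw [X, X, monomial_mul, one_mul]
    rw [h3, coeff_monomial, if_neg]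
    rintro rfl
    apply hadj
    refine ⟨huv, ?_⟩
    convert! hm using 1
    ext w
    rw [Finsupp.mem_support_iff, Finsupp.add_apply, mem_insert, mem_singleton,
      Finsupp.single_apply, Finsupp.single_apply]
    constructor
    · rintro (rfl | rfl)
      · simp
      · simp
    · intro hw
      by_contra hcon
      push Not at hcon
      rw [if_neg (fun h => hcon.1 h.symm), if_neg (fun h => hcon.2 h.symm)] at hw
      exact hw rfl
  obtain ⟨h3, h4⟩ := cls_bound (A := adj Δ) (fun u v h => adj_symm h) he d d le_rfl (lkv Δ ∅) I h1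
    hprod hcls
  refine ⟨Hf I, ?_, h3, h4, h2⟩
  have h5 := congrArg (PowerSeries.coeff 0) h2
  unfold PS at h5
  rw [PowerSeries.coeff_mk] at h5
  have h6 : PowerSeries.coeff 0 (hser d Δ) = 1 := by
    unfold hser
    rw [map_sum, sum_eq_single_of_mem ∅ hΔ.empty_mem]
    · simp
    · intro F _ hF
      have : F.card ≠ 0 := fun h => hF (card_eq_zero.mp h)
      rw [PowerSeries.coeff_zero_eq_constantCoeff, map_mul, map_pow, PowerSeries.constantCoeff_X,
        zero_pow this, zero_mul]
  rw [h6] at h5
  exact_mod_cast h5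

end Pool.Agent.Lib.MP_e9cf1e_co
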