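import Pool.Agent.Lib.MP_e9cf1e_co.Bal
import Pool.Agent.Lib.MP_e9cf1e_co.Flag

set_option autoImplicit false
set_option linter.unusedSectionVars false
set_option linter.unusedVariables false

/-!
Final assembly.
-/

namespace Pool.Agent.Lib.MP_e9cf1e_co

open Finset
open scoped FinsetFamily

/-- The coloured complex with prescribed face numbers. -/
theorem exists_coloured {d : ℕ} {a : ℕ → ℕ} (h0 : a 0 = 1) (hd : ∀ i, d < i → a i = 0)
    (hF : ∀ i, ∃ 𝒜, Fam d (range d) (i + 1) 𝒜 ∧ 𝒜.card = a (i + 1) ∧ (∂ 𝒜).card ≤ a i) :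
    ∃ Γ : Finset (Finset ℕ), IsComplex Γ ∧ (∀ H ∈ Γ, RbS d (range d) H) ∧ ∀ i, fNum Γ i = a i := by
  have hr : ∀ j ∈ range d, j < d := fun j hj => mem_range.mp hj
  have hI : ∀ i, ∃ ℐ, Ini d (range d) i ℐ ∧ ℐ.card = a i := by
    intro i
    rcases i with _ | i
    · refine ⟨{∅}, ⟨?_, ?_⟩, by rw [h0, card_singleton]⟩
      · intro A hA
        rw [mem_singleton] at hA
        subst hA
        exact ⟨card_empty, fun x hx => absurd hx (notMem_empty _),
          fun x hx => absurd hx (notMem_empty _)⟩
      · intro A hA B hB _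
        have := hB.card
        rw [card_eq_zero] at this
        rw [this]; exact mem_singleton_self _
    · obtain ⟨𝒜, h1, h2, h3⟩ := hF i
      obtain ⟨ℐ, h4, h5⟩ := h1.exists_ini
      exact ⟨ℐ, h4, h5.trans h2⟩
  choose ℐ hℐ hℐc using hI
  have hsh : ∀ i, ∂ (ℐ (i + 1)) ⊆ ℐ i := by
    intro i
    obtain ⟨𝒜, h1, h2, h3⟩ := hF i
    have h4 : (∂ (ℐ (i + 1))).card ≤ (∂ 𝒜).card :=
      ffk d (range d) (card_range d) hr _ _ _ h1 (hℐ (i + 1)) ((hℐc (i + 1)).trans h2.symm)
    exact ((hℐ (i + 1)).shadow hr).subset_of_card_le (hℐ i) (by rw [hℐc]; omega)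
  have hsub : ∀ i, ∀ F ∈ ℐ i, ∀ G ⊆ F, G ∈ ℐ G.card := by
    intro i
    induction i with
    | zero =>
      intro F hF G hG
      have h1 := ((hℐ 0).fam F hF).card
      rw [card_eq_zero] at h1
      subst h1
      rw [subset_empty] at hG
      subst hG
      exact hF
    | succ i ih =>
      intro F hF G hG
      have h1 := ((hℐ (i + 1)).fam F hF).card
      by_cases hGF : G = F
      · rw [hGF, h1]; exact hF
      · obtain ⟨x, hx, hxG⟩ := exists_of_ssubset (Finset.ssubset_iff_subset_ne.mpr ⟨hG, hGF⟩)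
        refine ih (F.erase x) (hsh i (erase_mem_shadow hF hx)) G ?_
        intro y hy
        exact mem_erase.mpr ⟨fun h => hxG (h ▸ hy), hG hy⟩
  refine ⟨(range (d + 1)).biUnion ℐ, ⟨?_, ?_⟩, ?_, ?_⟩
  · rw [mem_biUnion]
    refine ⟨0, mem_range.mpr (Nat.succ_pos d), ?_⟩
    obtain ⟨F, hF⟩ : (ℐ 0).Nonempty := card_pos.mp (by rw [hℐc, h0]; exact one_pos)
    exact hsub 0 F hF ∅ (empty_subset _)
  · intro F hF G hG
    rw [mem_biUnion] at hF ⊢
    obtain ⟨i, hi, hF⟩ := hF
    have h1 := hsub i F hF G hG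
    refine ⟨G.card, ?_, h1⟩
    rw [mem_range] at hi ⊢
    have := ((hℐ i).fam F hF).card
    have := card_le_card hG
    omega
  · intro H hH
    rw [mem_biUnion] at hH
    obtain ⟨i, _, hH⟩ := hH
    have h1 := (hℐ i).fam H hH
    exact ⟨h1.mem, h1.inj⟩
  · intro i
    unfold fNum
    by_cases hi : i ≤ d
    · have : ((range (d + 1)).biUnion ℐ).filter (fun F => F.card = i) = ℐ i := by
        ext F
        rw [mem_filter, mem_biUnion]
        constructor
        · rintro ⟨⟨j, _, hF⟩, h1⟩
          have h2 := ((hℐ j).fam F hF).card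
          have : j = i := by omega
          subst this
          exact hF
        · intro hF
          exact ⟨⟨i, mem_range.mpr (by omega), hF⟩, ((hℐ i).fam F hF).card⟩
      rw [this, hℐc]
    · rw [hd i (by omega), card_eq_zero, filter_eq_empty_iff]
      intro F hF h1
      rw [mem_biUnion] at hF
      obtain ⟨j, hj, hF⟩ := hF
      have h2 := ((hℐ j).fam F hF).card
      rw [mem_range] at hj
      omega

/-- Shift of a complex by `d`. -/
def shiftC (d : ℕ) (Γ : Finset (Finset ℕ)) : Finset (Finset ℕ) :=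
  Γ.image (fun F => F.image (fun x => x + d))

lemma mem_shiftC {d : ℕ} {Γ : Finset (Finset ℕ)} {G : Finset ℕ} :
    G ∈ shiftC d Γ ↔ ∃ F ∈ Γ, F.image (fun x => x + d) = G := by
  unfold shiftC; rw [mem_image]

lemma isComplex_shiftC {d : ℕ} {Γ : Finset (Finset ℕ)} (h : IsComplex Γ) :
    IsComplex (shiftC d Γ) := by
  constructor
  · rw [mem_shiftC]; exact ⟨∅, h.empty_mem, image_empty _⟩
  · intro F hF G hG
    rw [mem_shiftC] at hF ⊢
    obtain ⟨F', hF', rfl⟩ := hF
    refine ⟨F'.filter (fun x => x + d ∈ G), h.down _ hF' _ (filter_subset _ _), ?_⟩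
    ext y
    rw [mem_image]
    constructor
    · rintro ⟨x, hx, rfl⟩
      exact (mem_filter.mp hx).2
    · intro hy
      obtain ⟨x, hx, rfl⟩ := mem_image.mp (hG hy)
      exact ⟨x, mem_filter.mpr ⟨hx, hy⟩, rfl⟩

lemma good_shiftC {d : ℕ} {Γ : Finset (Finset ℕ)} (h : ∀ H ∈ Γ, RbS d (range d) H) :
    Good d (range d) (shiftC d Γ) := by
  intro H hH
  rw [mem_shiftC] at hH
  obtain ⟨F, hF, rfl⟩ := hH
  have h1 := h F hF
  refine ⟨⟨?_, ?_⟩, ?_⟩
  · intro x hx
    obtain ⟨y, hy, rfl⟩ := mem_image.mp hx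
    rw [Nat.add_mod_right]; exact h1.1 y hy
  · intro x hx y hy hxy
    obtain ⟨x', hx', rfl⟩ := mem_image.mp hx
    obtain ⟨y', hy', rfl⟩ := mem_image.mp hy
    rw [Nat.add_mod_right, Nat.add_mod_right] at hxy
    rw [h1.2 x' hx' y' hy' hxy]
  · intro x hx
    obtain ⟨y, hy, rfl⟩ := mem_image.mp hx
    exact Nat.le_add_left _ _

lemma sum_shiftC {d : ℕ} {Γ : Finset (Finset ℕ)} {M : Type*} [AddCommMonoid M] (f : ℕ → M) :
    ∑ H ∈ shiftC d Γ, f H.card = ∑ H ∈ Γ, f H.card := by
  unfold shiftC
  have hinj : Function.Injective (fun x : ℕ => x + d) := add_left_injective d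
  rw [sum_image]
  · refine sum_congr rfl (fun H _ => ?_)
    rw [card_image_of_injective _ hinj]
  · intro A _ B _ hAB
    exact image_injective hinj hAB

/-- The key computation. -/
lemma hser_Cx {d : ℕ} {Γ : Finset (Finset ℕ)} (hΓ : IsComplex Γ) (hg : Good d (range d) Γ) :
    hser d (Cx d (range d) Γ) = ∑ H ∈ Γ, PowerSeries.X ^ H.card := by
  unfold hser
  rw [← sum_fiberwise_of_maps_to (g := fun G => hi d G) (t := Γ)
    (fun G hG => (mem_Cx.mp hG).2)]
  refine sum_congr rfl (fun H hH => ?_)
  obtain ⟨hHr, hHd⟩ := hg H hH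
  have hcard : (range d \ H.image (· % d)).card = d - H.card := by
    rw [card_sdiff_of_subset, card_range, card_image_of_injOn]
    · intro x hx y hy hxy; exact hHr.2 x hx y hy hxy
    · intro c hc
      obtain ⟨x, hx, rfl⟩ := mem_image.mp hc
      exact hHr.1 x hx
  have hHcard : H.card ≤ d := by
    have := hHr.card_le
    rwa [card_range] at this
  have hdisj : ∀ S ∈ (range d \ H.image (· % d)).powerset, Disjoint S H := by
    intro S hS
    rw [mem_powerset] at hS
    rw [disjoint_left]
    intro x hx hx'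
    have h1 := mem_range.mp (mem_sdiff.mp (hS hx)).1
    have h2 := hHd x hx'
    omega
  have hset : (Cx d (range d) Γ).filter (fun G => hi d G = H) =
      ((range d \ H.image (· % d)).powerset).image (fun S => S ∪ H) := by
    ext G
    rw [mem_filter, mem_Cx, mem_image]
    constructor
    · rintro ⟨⟨h1, h2⟩, rfl⟩
      refine ⟨G.filter (fun x => ¬ d ≤ x), ?_, ?_⟩
      · rw [mem_powerset]
        intro x hx
        rw [mem_filter] at hx
        rw [mem_sdiff, mem_image, mem_range]
        refine ⟨by omega, ?_⟩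
        rintro ⟨y, hy, hyx⟩
        have hyG : y ∈ G := (mem_filter.mp hy).1
        have hyd : d ≤ y := (mem_filter.mp hy).2
        have h3 : x % d = x := Nat.mod_eq_of_lt (by omega)
        have := h1.2 y hyG x hx.1 (by rw [h3]; exact hyx)
        omega
      · rw [union_comm]
        exact filter_union_filter_not_eq _ _
    · rintro ⟨S, hS, rfl⟩
      have hdS := hdisj S hS
      rw [mem_powerset] at hS
      have hSlt : ∀ x ∈ S, x < d := fun x hx => mem_range.mp (mem_sdiff.mp (hS hx)).1
      have h1 : hi d (S ∪ H) = H := by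
        unfold hi
        rw [filter_union]
        have e1 : S.filter (fun x => d ≤ x) = ∅ := by
          rw [filter_eq_empty_iff]
          intro x hx
          have := hSlt x hx
          omega
        have e2 : H.filter (fun x => d ≤ x) = H := by
          rw [filter_eq_self]
          exact hHd
        rw [e1, e2, empty_union]
      refine ⟨⟨⟨?_, ?_⟩, by rw [h1]; exact hH⟩, h1⟩
      · intro x hx
        rw [mem_union] at hx
        rcases hx with hx | hx
        · rw [Nat.mod_eq_of_lt (hSlt x hx)]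
          exact mem_range.mpr (hSlt x hx)
        · exact hHr.1 x hx
      · intro x hx y hy hxy
        rw [mem_union] at hx hy
        rcases hx with hx | hx
        · rcases hy with hy | hy
          · rwa [Nat.mod_eq_of_lt (hSlt x hx), Nat.mod_eq_of_lt (hSlt y hy)] at hxy
          · have h2 := (mem_sdiff.mp (hS hx)).2
            rw [mem_image] at h2
            exact absurd ⟨y, hy, by rw [← hxy, Nat.mod_eq_of_lt (hSlt x hx)]⟩ h2
        · rcases hy with hy | hy
          · have h2 := (mem_sdiff.mp (hS hy)).2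
            rw [mem_image] at h2
            exact absurd ⟨x, hx, by rw [hxy, Nat.mod_eq_of_lt (hSlt y hy)]⟩ h2
          · exact hHr.2 x hx y hy hxy
  rw [hset, sum_image]
  · have h2 : ∀ S ∈ (range d \ H.image (· % d)).powerset,
        (PowerSeries.X ^ (S ∪ H).card * (1 - PowerSeries.X) ^ (d - (S ∪ H).card) :
          PowerSeries ℤ) = PowerSeries.X ^ H.card * (PowerSeries.X ^ S.card *
            (1 - PowerSeries.X) ^ ((range d \ H.image (· % d)).card - S.card)) := by
      intro S hS
      rw [card_union_of_disjoint (hdisj S hS), hcard, pow_add]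
      have : d - (S.card + H.card) = d - H.card - S.card := by omega
      rw [this]; ring
    rw [sum_congr rfl h2, ← mul_sum, sum_pow_mul_eq_add_pow]
    have h3 : (PowerSeries.X + (1 - PowerSeries.X) : PowerSeries ℤ) = 1 := by ring
    rw [h3, one_pow, mul_one]
  · intro S hS T hT hST
    have e1 : ∀ U ∈ (range d \ H.image (· % d)).powerset,
        (U ∪ H).filter (fun x => x < d) = U := by
      intro U hU
      rw [mem_powerset] at hU
      rw [filter_union]
      have e1 : U.filter (fun x => x < d) = U := by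
        rw [filter_eq_self]
        exact fun x hx => mem_range.mp (mem_sdiff.mp (hU hx)).1
      have e2 : H.filter (fun x => x < d) = ∅ := by
        rw [filter_eq_empty_iff]
        intro x hx
        have := hHd x hx
        omega
      rw [e1, e2, union_empty]
    have h3 : (S ∪ H).filter (fun x => x < d) = (T ∪ H).filter (fun x => x < d) := by
      have : S ∪ H = T ∪ H := hST
      rw [this]
    rwa [e1 S hS, e1 T hT] at h3

lemma hser_expand {W : Type*} [LinearOrder W] {d : ℕ} (L : Finset (Finset W))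
    (hL : ∀ F ∈ L, F.card ≤ d) : hser d L = ∑ j ∈ range (d + 1),
      fNum L j • (PowerSeries.X ^ j * (1 - PowerSeries.X) ^ (d - j) : PowerSeries ℤ) := by
  unfold hser
  rw [← sum_fiberwise_of_maps_to (g := fun F : Finset W => F.card) (t := range (d + 1))
    (fun F hF => mem_range.mpr (Nat.lt_succ_of_le (hL F hF)))]
  refine sum_congr rfl (fun j _ => ?_)
  have h1 : ∀ F ∈ L.filter (fun F => F.card = j), (PowerSeries.X ^ F.card *
      (1 - PowerSeries.X) ^ (d - F.card) : PowerSeries ℤ) =
      PowerSeries.X ^ j * (1 - PowerSeries.X) ^ (d - j) := by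
    intro F hF
    rw [(mem_filter.mp hF).2]
  rw [sum_congr rfl h1, sum_const]
  rfl

/-- `f`-numbers are determined by the `h`-polynomial. -/
lemma fNum_eq_of_hser {W W' : Type*} [LinearOrder W] [LinearOrder W'] {d : ℕ}
    {Δ : Finset (Finset W)} {Γ : Finset (Finset W')} (hΔ : ∀ F ∈ Δ, F.card ≤ d)
    (hΓ : ∀ F ∈ Γ, F.card ≤ d) (h : hser d Δ = hser d Γ) (i : ℕ) : fNum Δ i = fNum Γ i := by
  rw [hser_expand Δ hΔ, hser_expand Γ hΓ] at h
  have hcoef : ∀ i j, PowerSeries.coeff i
      (PowerSeries.X ^ j * (1 - PowerSeries.X) ^ (d - j) : PowerSeries ℤ) =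
      if j ≤ i then PowerSeries.coeff (i - j) ((1 - PowerSeries.X) ^ (d - j) : PowerSeries ℤ)
      else 0 := by
    intro i j
    rw [PowerSeries.coeff_X_pow_mul']
  induction i using Nat.strong_induction_on with
  | _ i ih =>
    by_cases hi : i ≤ d
    · have h1 := congrArg (PowerSeries.coeff i) h
      rw [map_sum, map_sum] at h1
      simp only [map_nsmul, hcoef] at h1
      have hmem : i ∈ range (d + 1) := mem_range.mpr (by omega)
      rw [← add_sum_erase _ _ hmem, ← add_sum_erase _ _ hmem] at h1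
      have h2 : ∀ j ∈ (range (d + 1)).erase i,
          (fNum Δ j • if j ≤ i then
            PowerSeries.coeff (i - j) ((1 - PowerSeries.X) ^ (d - j) : PowerSeries ℤ) else 0) =
          (fNum Γ j • if j ≤ i then
            PowerSeries.coeff (i - j) ((1 - PowerSeries.X) ^ (d - j) : PowerSeries ℤ) else 0) := by
        intro j hj
        rw [mem_erase] at hj
        by_cases hji : j ≤ i
        · rw [ih j (by omega)]
        · rw [if_neg hji, smul_zero, smul_zero]
      rw [sum_congr rfl h2, add_left_inj, if_pos le_rfl, Nat.sub_self] at h1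
      have h3 : PowerSeries.coeff 0 ((1 - PowerSeries.X) ^ (d - i) : PowerSeries ℤ) = 1 := by
        rw [PowerSeries.coeff_zero_eq_constantCoeff, map_pow, map_sub, map_one,
          PowerSeries.constantCoeff_X, sub_zero, one_pow]
      rw [h3, nsmul_eq_mul, nsmul_eq_mul, mul_one, mul_one] at h1
      exact_mod_cast h1
    · unfold fNum
      rw [filter_eq_empty_iff.mpr, filter_eq_empty_iff.mpr, card_empty, card_empty]
      · intro F hF hFi
        have := hΓ F hF
        omega
      · intro F hF hFi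
        have := hΔ F hF
        omega

/-- The main theorem. -/
theorem main (k : Type*) [Field k] {V : Type*} [LinearOrder V] [Fintype V]
    (Δ : Finset (Finset V)) (hΔ : IsComplex Δ) (hflag : IsFlag Δ) (hcm : IsCM k Δ) :
    ∃ Γ : Finset (Finset ℕ), IsComplex Γ ∧ IsBalanced Γ ∧ IsCM k Γ ∧
      ∀ i, fNum Γ i = fNum Δ i := by
  classical
  have : Infinite (AlgebraicClosure k) := IsAlgClosed.instInfinite
  set d := maxCard Δ with hd
  obtain ⟨a, ha0, had, haF, hah⟩ :=
    exists_numbers (K := AlgebraicClosure k) k hΔ hflag hcm hd.symm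
  obtain ⟨Γ', hΓ', hΓr, hΓf⟩ := exists_coloured ha0 had haF
  have hlt : ∀ c ∈ range d, c < d := fun c hc => mem_range.mp hc
  have hsh := isComplex_shiftC (d := d) hΓ'
  have hmax : maxCard (Cx d (range d) (shiftC d Γ')) = d := by
    rw [maxCard_Cx hsh hlt, card_range]
  refine ⟨Cx d (range d) (shiftC d Γ'), isComplex_Cx hsh, ⟨fun x => x % d, ?_, ?_⟩,
    isCM_Cx k hsh hlt, ?_⟩
  · intro v hv
    rw [hmax]
    exact mem_range.mp ((mem_Cx.mp hv).1.1 v (mem_singleton_self _))
  · intro F hF u hu v hv huv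
    exact (mem_Cx.mp hF).1.2 u hu v hv huv
  · intro i
    refine fNum_eq_of_hser (d := d) ?_ ?_ ?_ i
    · intro F hF
      have := card_le_maxCard hF
      rwa [hmax] at this
    · intro F hF
      exact card_le_maxCard hF
    · rw [hser_Cx hsh (good_shiftC hΓr), sum_shiftC (fun n => (PowerSeries.X ^ n : PowerSeries ℤ)),
        ← hah]
      ext j
      rw [map_sum, PowerSeries.coeff_mk]
      simp only [PowerSeries.coeff_X_pow]
      rw [sum_boole, ← hΓf j]
      unfold fNum
      congr 2
      ext F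
      rw [mem_filter, mem_filter]
      constructor
      · rintro ⟨h1, h2⟩; exact ⟨h1, h2.symm⟩
      · rintro ⟨h1, h2⟩; exact ⟨h1, h2.symm⟩

end Pool.Agent.Lib.MP_e9cf1e_co
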