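import Pool.Agent.Lib.MP_e9cf1e_co.Rainbow

set_option autoImplicit false
set_option linter.unusedSectionVars false
set_option linter.unusedVariables false

/-!
Gluing of families along a colour class.
-/

namespace Pool.Agent.Lib.MP_e9cf1e_co

open Finset
open scoped FinsetFamily

variable {N : ℕ} {J : Finset ℕ} {k c : ℕ}

/-- `𝒜₀` together with the sets `insert x A`, `x ∈ S`, `A ∈ f x`. -/
def glue (S : Finset ℕ) (𝒜₀ : Finset (Finset ℕ)) (f : ℕ → Finset (Finset ℕ)) :
    Finset (Finset ℕ) :=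
  𝒜₀ ∪ S.biUnion (fun x => (f x).image (insert x))

variable {S : Finset ℕ} {𝒜₀ : Finset (Finset ℕ)} {f : ℕ → Finset (Finset ℕ)}

lemma mem_glue {A : Finset ℕ} :
    A ∈ glue S 𝒜₀ f ↔ A ∈ 𝒜₀ ∨ ∃ x ∈ S, ∃ B ∈ f x, insert x B = A := by
  unfold glue
  simp only [mem_union, mem_biUnion, mem_image]

/-- The hypotheses for gluing. -/
structure GlueData (N : ℕ) (J : Finset ℕ) (c k : ℕ) (S : Finset ℕ) (𝒜₀ : Finset (Finset ℕ))
    (f : ℕ → Finset (Finset ℕ)) : Prop where
  hc : c ∈ J
  hS : ∀ x ∈ S, x % N = c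
  h0 : Fam N (J.erase c) (k + 1) 𝒜₀
  hf : ∀ x ∈ S, Fam N (J.erase c) k (f x)

lemma Rb.notMem_of_color {J' : Finset ℕ} {A : Finset ℕ} (h : Rb N (J'.erase c) k A) {x : ℕ}
    (hx : x % N = c) : x ∉ A := by
  intro hxA
  have := h.mem x hxA
  rw [hx] at this
  exact notMem_erase _ _ this

lemma insert_inj_of_notMem {x : ℕ} {A B : Finset ℕ} (hA : x ∉ A) (hB : x ∉ B)
    (h : insert x A = insert x B) : A = B := by
  rw [← erase_insert hA, h, erase_insert hB]

variable (D : GlueData N J c k S 𝒜₀ f)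

include D in
lemma GlueData.fam : Fam N J (k + 1) (glue S 𝒜₀ f) := by
  intro A hA
  rw [mem_glue] at hA
  rcases hA with hA | ⟨x, hx, B, hB, rfl⟩
  · exact (D.h0 A hA).mono (erase_subset _ _)
  · refine Rb.insert' ?_ (by rw [D.hS x hx]; exact D.hc)
    rw [D.hS x hx]; exact D.hf x hx B hB

include D in
lemma GlueData.pieces {x y : ℕ} (hx : x ∈ S) (hy : y ∈ S) {A B : Finset ℕ} (hA : A ∈ f x)
    (hB : B ∈ f y) (h : insert x A = insert y B) : x = y ∧ A = B := by
  have h1 : x ∉ B := (D.hf y hy B hB).notMem_of_color (D.hS x hx)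
  have h2 : x ∈ insert y B := by rw [← h]; exact mem_insert_self _ _
  rw [mem_insert] at h2
  have hxy : x = y := by
    rcases h2 with h2 | h2
    · exact h2
    · exact absurd h2 h1
  subst hxy
  exact ⟨rfl, insert_inj_of_notMem ((D.hf x hx A hA).notMem_of_color (D.hS x hx)) h1 h⟩

include D in
/-- Sums over a glued family. -/
lemma GlueData.sum {M : Type*} [AddCommMonoid M] (F : Finset ℕ → M) :
    ∑ A ∈ glue S 𝒜₀ f, F A = ∑ A ∈ 𝒜₀, F A + ∑ x ∈ S, ∑ B ∈ f x, F (insert x B) := by
  classical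
  unfold glue
  rw [sum_union, sum_biUnion]
  · congr 1
    refine sum_congr rfl (fun x hx => ?_)
    rw [sum_image]
    intro A hA B hB h
    exact (D.pieces hx hx hA hB h).2
  · intro x hx y hy hxy
    rw [Function.onFun, disjoint_left]
    intro A hA hA'
    rw [mem_image] at hA hA'
    obtain ⟨B, hB, rfl⟩ := hA
    obtain ⟨B', hB', h⟩ := hA'
    exact hxy (D.pieces hx hy hB hB' h.symm).1
  · rw [disjoint_left]
    intro A hA hA'
    rw [mem_biUnion] at hA'
    obtain ⟨x, hx, hA'⟩ := hA'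
    rw [mem_image] at hA'
    obtain ⟨B, hB, rfl⟩ := hA'
    exact (D.h0 _ hA).notMem_of_color (D.hS x hx) (mem_insert_self _ _)

include D in
lemma GlueData.card : (glue S 𝒜₀ f).card = 𝒜₀.card + ∑ x ∈ S, (f x).card := by
  have := D.sum (fun _ => 1)
  simpa using this

include D in
lemma GlueData.Wt : Wt (glue S 𝒜₀ f) = Wt 𝒜₀ + ∑ x ∈ S, (2 ^ x * (f x).card + Wt (f x)) := by
  unfold MP_e9cf1e_co.Wt
  rw [D.sum]
  congr 1
  refine sum_congr rfl (fun x hx => ?_)
  have h1 : ∀ B ∈ f x, wt (insert x B) = 2 ^ x + wt B := fun B hB =>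
    wt_insert ((D.hf x hx B hB).notMem_of_color (D.hS x hx))
  rw [sum_congr rfl h1, sum_add_distrib, sum_const, smul_eq_mul, mul_comm]

include D in
lemma GlueData.mem_shadow {A : Finset ℕ} :
    A ∈ ∂ (glue S 𝒜₀ f) ↔ A ∈ (∂ 𝒜₀ ∪ S.biUnion f) ∪
      S.biUnion (fun x => (∂ (f x)).image (insert x)) := by
  rw [mem_union, mem_union, mem_biUnion, mem_biUnion]
  constructor
  · intro hA
    rw [mem_shadow_iff] at hA
    obtain ⟨B, hB, y, hy, rfl⟩ := hA
    rw [mem_glue] at hB
    rcases hB with hB | ⟨x, hx, B', hB', rfl⟩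
    · left; left
      exact erase_mem_shadow hB hy
    · have hxB' := (D.hf x hx B' hB').notMem_of_color (D.hS x hx)
      rw [mem_insert] at hy
      by_cases hyx : y = x
      · subst hyx
        left; right
        exact ⟨y, hx, by rw [erase_insert hxB']; exact hB'⟩
      · right
        refine ⟨x, hx, ?_⟩
        rw [mem_image]
        have hyB' : y ∈ B' := by
          rcases hy with hy | hy
          · exact absurd hy hyx
          · exact hy
        refine ⟨B'.erase y, erase_mem_shadow hB' hyB', ?_⟩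
        rw [erase_insert_of_ne (fun h => hyx h.symm)]
  · rintro ((hA | ⟨x, hx, hA⟩) | ⟨x, hx, hA⟩)
    · exact shadow_mono (fun B hB => mem_glue.mpr (Or.inl hB)) hA
    · rw [mem_shadow_iff_insert_mem]
      exact ⟨x, (D.hf x hx A hA).notMem_of_color (D.hS x hx),
        mem_glue.mpr (Or.inr ⟨x, hx, A, hA, rfl⟩)⟩
    · rw [mem_image] at hA
      obtain ⟨B, hB, rfl⟩ := hA
      rw [mem_shadow_iff_insert_mem] at hB ⊢
      obtain ⟨y, hy, hyB⟩ := hB
      have hxy : y ≠ x := by
        rintro rfl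
        exact (D.hf y hx _ hyB).notMem_of_color (D.hS y hx) (mem_insert_self _ _)
      refine ⟨y, ?_, mem_glue.mpr (Or.inr ⟨x, hx, _, hyB, ?_⟩)⟩
      · rw [mem_insert]
        rintro (h | h)
        · exact hxy h
        · exact hy h
      · exact Finset.insert_comm _ _ _

include D in
/-- The elements of the shadow of `f x` do not contain vertices of colour `c`. -/
lemma GlueData.notMem_shadow {x : ℕ} (hx : x ∈ S) {y : ℕ} (hy : y % N = c) {A : Finset ℕ}
    (hA : A ∈ ∂ (f x)) : y ∉ A := by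
  intro hyA
  obtain ⟨B, hB, hAB⟩ := exists_subset_of_mem_shadow hA
  exact (D.hf x hx B hB).notMem_of_color hy (hAB hyA)

include D in
lemma GlueData.card_shadow : (∂ (glue S 𝒜₀ f)).card =
    (∂ 𝒜₀ ∪ S.biUnion f).card + ∑ x ∈ S, (∂ (f x)).card := by
  classical
  have h1 : ∂ (glue S 𝒜₀ f) = (∂ 𝒜₀ ∪ S.biUnion f) ∪
      S.biUnion (fun x => (∂ (f x)).image (insert x)) := by
    ext A
    exact D.mem_shadow
  rw [h1, card_union_of_disjoint, card_biUnion]
  · congr 1
    refine sum_congr rfl (fun x hx => ?_)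
    rw [card_image_of_injOn]
    intro A hA B hB h
    exact insert_inj_of_notMem (D.notMem_shadow hx (D.hS x hx) hA)
      (D.notMem_shadow hx (D.hS x hx) hB) h
  · intro x hx y hy hxy
    rw [Function.onFun, disjoint_left]
    intro A hA hA'
    rw [mem_image] at hA hA'
    obtain ⟨B, hB, rfl⟩ := hA
    obtain ⟨B', hB', h⟩ := hA'
    have h2 : x ∈ insert y B' := by rw [h]; exact mem_insert_self _ _
    rw [mem_insert] at h2
    rcases h2 with h2 | h2
    · exact hxy h2
    · exact D.notMem_shadow hy (D.hS x hx) hB' h2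
  · rw [disjoint_left]
    intro A hA hA'
    rw [mem_biUnion] at hA'
    obtain ⟨x, hx, hA'⟩ := hA'
    rw [mem_image] at hA'
    obtain ⟨B, hB, rfl⟩ := hA'
    rw [mem_union, mem_biUnion] at hA
    rcases hA with hA | ⟨y, hy, hA⟩
    · obtain ⟨C, hC, hAC⟩ := exists_subset_of_mem_shadow hA
      exact (D.h0 C hC).notMem_of_color (D.hS x hx) (hAC (mem_insert_self _ _))
    · exact (D.hf y hy _ hA).notMem_of_color (D.hS x hx) (mem_insert_self _ _)

include D in
/-- Upper bound for the shadow if all pieces are initial segments. -/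
lemma GlueData.card_shadow_le (hJ : ∀ j ∈ J, j < N) (hi0 : Ini N (J.erase c) (k + 1) 𝒜₀)
    (hif : ∀ x ∈ S, Ini N (J.erase c) k (f x)) {P : ℕ} (hP0 : (∂ 𝒜₀).card ≤ P)
    (hPf : ∀ x ∈ S, (f x).card ≤ P) :
    (∂ (glue S 𝒜₀ f)).card ≤ P + ∑ x ∈ S, (∂ (f x)).card := by
  classical
  rw [D.card_shadow]
  refine Nat.add_le_add_right ?_ _
  have hi0' : Ini N (J.erase c) k (∂ 𝒜₀) := hi0.shadow (fun j hj => hJ j (mem_of_mem_erase hj))
  -- all pieces are initial segments, so the union is one of them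
  by_cases hS : S.Nonempty
  · obtain ⟨x, hx, hmax⟩ := exists_max_image S (fun x => (f x).card) hS
    have h1 : S.biUnion f ⊆ f x := by
      intro A hA
      rw [mem_biUnion] at hA
      obtain ⟨y, hy, hA⟩ := hA
      exact (hif y hy).subset_of_card_le (hif x hx) (hmax y hy) hA
    rcases hi0'.total (hif x hx) with h2 | h2
    · exact (card_le_card (union_subset h2 h1)).trans (hPf x hx)
    · exact (card_le_card (union_subset (Subset.refl _) (h1.trans h2))).trans hP0
  · rw [not_nonempty_iff_eq_empty] at hS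
    subst hS
    simpa using hP0

/-- Decomposition of a family along a colour class. -/
lemma decomp {𝒜 : Finset (Finset ℕ)} (h𝒜 : Fam N J (k + 1) 𝒜) (hc : c ∈ J) :
    GlueData N J c k ((𝒜.sup id).filter (fun x => x % N = c))
      (𝒜.filter (fun A => c ∉ cols N A)) (fun x => (𝒜.filter (fun A => x ∈ A)).image (erase · x)) ∧
    glue ((𝒜.sup id).filter (fun x => x % N = c))
      (𝒜.filter (fun A => c ∉ cols N A)) (fun x => (𝒜.filter (fun A => x ∈ A)).image (erase · x)) =
      𝒜 := by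
  classical
  constructor
  · refine ⟨hc, fun x hx => (mem_filter.mp hx).2, ?_, ?_⟩
    · intro A hA
      rw [mem_filter] at hA
      have h := h𝒜 A hA.1
      refine ⟨h.card, fun x hx => ?_, h.inj⟩
      rw [mem_erase]
      exact ⟨fun he => hA.2 (mem_cols.mpr ⟨x, hx, he⟩), h.mem x hx⟩
    · intro x hx A hA
      rw [mem_filter] at hx
      simp only [mem_image, mem_filter] at hA
      obtain ⟨B, ⟨hB, hxB⟩, rfl⟩ := hA
      have := (h𝒜 B hB).erase hxB
      rwa [hx.2] at this
  · ext A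
    rw [mem_glue]
    constructor
    · rintro (hA | ⟨x, hx, B, hB, rfl⟩)
      · exact (mem_filter.mp hA).1
      · simp only [mem_image, mem_filter] at hB
        obtain ⟨B', ⟨hB', hxB'⟩, rfl⟩ := hB
        rw [insert_erase hxB']; exact hB'
    · intro hA
      by_cases hcA : c ∈ cols N A
      · right
        rw [mem_cols] at hcA
        obtain ⟨x, hx, hxc⟩ := hcA
        refine ⟨x, ?_, A.erase x, ?_, insert_erase hx⟩
        · rw [mem_filter]
          exact ⟨(le_sup (f := id) hA : A ⊆ 𝒜.sup id) hx, hxc⟩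
        · simp only [mem_image, mem_filter]
          exact ⟨A, ⟨hA, hx⟩, rfl⟩
      · left
        rw [mem_filter]; exact ⟨hA, hcA⟩

end Pool.Agent.Lib.MP_e9cf1e_co
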