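import Pool.Agent.Lib.MP_e9cf1e_co.Simp

set_option autoImplicit false
set_option linter.unusedSectionVars false
set_option linter.unusedVariables false

/-!
Links, purity of Cohen-Macaulay complexes, acyclicity of cochain complexes.
-/

namespace Pool.Agent.Lib.MP_e9cf1e_co

open Finset

variable {V : Type*} [LinearOrder V] {Δ : Finset (Finset V)}

lemma mem_link {F G : Finset V} : G ∈ link Δ F ↔ G ∈ Δ ∧ Disjoint G F ∧ G ∪ F ∈ Δ := by
  unfold link; rw [mem_filter]

lemma IsComplex.mem_link {F G : Finset V} (h : IsComplex Δ) :
    G ∈ link Δ F ↔ Disjoint G F ∧ G ∪ F ∈ Δ := by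
  rw [MP_e9cf1e_co.mem_link]
  exact ⟨fun h1 => h1.2, fun h1 => ⟨h.down _ h1.2 _ subset_union_left, h1⟩⟩

lemma IsComplex.link (h : IsComplex Δ) {F : Finset V} (hF : F ∈ Δ) : IsComplex (link Δ F) := by
  constructor
  · rw [h.mem_link]
    exact ⟨disjoint_empty_left _, by rwa [empty_union]⟩
  · intro G hG H hH
    rw [h.mem_link] at hG ⊢
    exact ⟨disjoint_of_subset_left hH hG.1, h.down _ hG.2 _ (union_subset_union_left hH)⟩

lemma link_link (h : IsComplex Δ) {F G : Finset V} (hG : G ∈ link Δ F) :
    link (link Δ F) G = link Δ (G ∪ F) := by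
  rw [h.mem_link] at hG
  have hF : F ∈ Δ := h.down _ hG.2 _ subset_union_right
  ext H
  rw [(h.link hF).mem_link, h.mem_link, h.mem_link, disjoint_union_right, union_assoc,
    disjoint_union_left]
  constructor
  · rintro ⟨h1, ⟨h2, h3⟩, h4⟩; exact ⟨⟨h1, h2⟩, h4⟩
  · rintro ⟨⟨h1, h2⟩, h4⟩; exact ⟨h1, ⟨h2, hG.1⟩, h4⟩

lemma link_empty (Δ : Finset (Finset V)) : link Δ ∅ = Δ := by
  ext G
  rw [MP_e9cf1e_co.mem_link, union_empty]
  exact ⟨fun h => h.1, fun h => ⟨h, disjoint_empty_right _, h⟩⟩

lemma IsCM.link {k : Type*} [Field k] (h : IsComplex Δ) (hcm : IsCM k Δ) {F : Finset V}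
    (hF : F ∈ Δ) : IsCM k (link Δ F) := by
  intro G hG
  rw [link_link h hG]
  exact hcm _ (h.mem_link.mp hG).2

lemma IsCM.acyclic {k : Type*} [Field k] (h : IsComplex Δ) (hcm : IsCM k Δ) :
    Acyclic k Δ (maxCard Δ) := by
  have := hcm ∅ h.empty_mem
  rwa [link_empty] at this

lemma card_le_maxCard {F : Finset V} (hF : F ∈ Δ) : F.card ≤ maxCard Δ :=
  le_sup (f := card) hF

lemma exists_card_eq_maxCard (h : IsComplex Δ) : ∃ F ∈ Δ, F.card = maxCard Δ := by
  obtain ⟨F, hF, h1⟩ := exists_mem_eq_sup Δ ⟨∅, h.empty_mem⟩ card
  exact ⟨F, hF, h1.symm⟩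

/-- Every face is contained in a face of maximal cardinality. -/
def IsPure (Δ : Finset (Finset V)) : Prop :=
  ∀ F ∈ Δ, ∃ G ∈ Δ, F ⊆ G ∧ G.card = maxCard Δ

lemma maxCard_link_le (h : IsComplex Δ) {F : Finset V} (hF : F ∈ Δ) :
    maxCard (link Δ F) + F.card ≤ maxCard Δ := by
  obtain ⟨G, hG, hGc⟩ := exists_card_eq_maxCard (h.link hF)
  rw [h.mem_link] at hG
  rw [← hGc, ← card_union_of_disjoint hG.1]
  exact card_le_maxCard hG.2

/-- Cohen-Macaulay complexes are pure, and the links have the expected dimension. -/
theorem pure_aux (k : Type*) [Field k] : ∀ (n : ℕ) (Δ : Finset (Finset V)), IsComplex Δ →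
    IsCM k Δ → maxCard Δ = n →
    IsPure Δ ∧ ∀ v, {v} ∈ Δ → maxCard (link Δ {v}) + 1 = n := by
  intro n
  induction n using Nat.strong_induction_on with
  | _ n ih =>
    intro Δ h hcm hn
    have hvle : ∀ v, {v} ∈ Δ → maxCard (link Δ {v}) + 1 ≤ n := by
      intro v hv
      have := maxCard_link_le h hv
      rwa [card_singleton, hn] at this
    have hadj : ∀ u v, u ≠ v → {u, v} ∈ Δ → maxCard (link Δ {u}) ≤ maxCard (link Δ {v}) := by
      intro u v huv he
      have hu : {u} ∈ Δ := h.down _ he _ (by simp)
      have hv : {v} ∈ Δ := h.down _ he _ (by simp)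
      obtain ⟨hp, _⟩ := ih _ (by have := hvle u hu; omega) (link Δ {u}) (h.link hu)
        (hcm.link h hu) rfl
      have hvl : {v} ∈ link Δ {u} := by
        rw [h.mem_link]
        refine ⟨by simpa using huv.symm, ?_⟩
        have : ({v} ∪ {u} : Finset V) = {u, v} := by ext x; simp [or_comm]
        rw [this]; exact he
      obtain ⟨G, hG, hvG, hGc⟩ := hp _ hvl
      rw [singleton_subset_iff] at hvG
      rw [h.mem_link] at hG
      have huG : u ∉ G := by
        have := hG.1
        rwa [disjoint_singleton_right] at this
      have h1 : (insert u G).erase v ∈ link Δ {v} := by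
        rw [h.mem_link]
        refine ⟨by simp, ?_⟩
        have : (insert u G).erase v ∪ {v} = G ∪ {u} := by
          ext x
          simp only [mem_union, mem_erase, mem_insert, mem_singleton]
          constructor
          · rintro (⟨_, h1 | h1⟩ | h1)
            · exact Or.inr h1
            · exact Or.inl h1
            · exact Or.inl (h1 ▸ hvG)
          · intro h1
            by_cases hx : x = v
            · exact Or.inr hx
            · exact Or.inl ⟨hx, h1.symm⟩
        rw [this]; exact hG.2
      have h2 := card_le_maxCard h1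
      rw [card_erase_of_mem (mem_insert_of_mem hvG), card_insert_of_notMem huG] at h2
      omega
    have hall : ∀ v, {v} ∈ Δ → maxCard (link Δ {v}) + 1 = n := by
      obtain ⟨F, hF, hFc⟩ := exists_card_eq_maxCard h
      rw [hn] at hFc
      intro v hv
      have hn1 := hvle v hv
      have hFne : F.Nonempty := card_pos.mp (by omega)
      obtain ⟨u, hu⟩ := hFne
      have hu' : {u} ∈ Δ := h.down _ hF _ (by simpa using hu)
      have hun : maxCard (link Δ {u}) + 1 = n := by
        have h1 : F.erase u ∈ link Δ {u} := by
          rw [h.mem_link]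
          refine ⟨by simp, ?_⟩
          have : F.erase u ∪ {u} = F := by
            rw [union_comm, ← insert_eq, insert_erase hu]
          rw [this]; exact hF
        have h2 := card_le_maxCard h1
        rw [card_erase_of_mem hu] at h2
        have := hvle u hu'
        omega
      by_cases hn2 : n = 1
      · omega
      · -- connectedness
        classical
        set φ : Finset V → k := fun G => if ∃ w, G = {w} ∧ maxCard (link Δ {w}) + 1 = n then 1 else 0
          with hφ
        have hφs : ∀ w, φ {w} = if maxCard (link Δ {w}) + 1 = n then 1 else 0 := by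
          intro w
          rw [hφ]
          simp only
          congr 1
          apply propext
          constructor
          · rintro ⟨w', h1, h2⟩
            rw [singleton_inj] at h1
            rwa [h1]
          · intro h1; exact ⟨w, rfl, h1⟩
        by_contra hvn
        have huv : u ≠ v := by rintro rfl; exact hvn hun
        set z : Finset V →₀ k := Finsupp.single {u} 1 - Finsupp.single {v} 1 with hz
        have hzs : ∀ G ∈ z.support, G ∈ Δ ∧ G.card = 1 := by
          intro G hG
          have h1 : G = {u} ∨ G = {v} := by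
            by_contra hcon
            push Not at hcon
            rw [Finsupp.mem_support_iff] at hG
            apply hG
            rw [hz, Finsupp.sub_apply, Finsupp.single_eq_of_ne hcon.1,
              Finsupp.single_eq_of_ne hcon.2, sub_zero]
          rcases h1 with rfl | rfl
          · exact ⟨hu', card_singleton _⟩
          · exact ⟨hv, card_singleton _⟩
        have hzb : bd k z = 0 := by
          rw [hz, map_sub, bd_single, bd_single, sum_singleton, sum_singleton, sg_singleton,
            sg_singleton]
          simp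
        obtain ⟨y, hy, hyz⟩ := (hcm.acyclic h) 1 (by omega) z hzs hzb
        have h1 : Finsupp.linearCombination k φ z = 1 := by
          rw [hz, map_sub, Finsupp.linearCombination_single, Finsupp.linearCombination_single,
            hφs, hφs, if_pos hun, if_neg hvn]
          simp
        have h2 : Finsupp.linearCombination k φ (bd k y) = 0 := by
          rw [linearCombination_bd, Finsupp.linearCombination_apply, Finsupp.sum]
          refine sum_eq_zero (fun G hG => ?_)
          obtain ⟨hGΔ, hGc⟩ := hy G hG
          rw [card_eq_two] at hGc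
          obtain ⟨a, b, hab, rfl⟩ := hGc
          have h3 : maxCard (link Δ {a}) = maxCard (link Δ {b}) :=
            le_antisymm (hadj a b hab hGΔ) (hadj b a hab.symm (by rwa [pair_comm]))
          have h4 : φ {a} = φ {b} := by rw [hφs, hφs, h3]
          rw [cob_apply, sum_insert (by simpa using hab), sum_singleton]
          have e1 : ({a, b} : Finset V).erase a = {b} := by
            rw [erase_insert (by simpa using hab)]
          have e2 : ({a, b} : Finset V).erase b = {a} := by
            rw [pair_comm, erase_insert (by simpa using hab.symm)]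
          have h5 := sg_comm' (R := k) hab (mem_insert_self a {b})
            (mem_insert_of_mem (mem_singleton_self b))
          rw [e1, e2] at h5
          have e3 : sg k a ({a} : Finset V) = 1 := sg_singleton
          have e4 : sg k b ({b} : Finset V) = 1 := sg_singleton
          rw [e3, e4] at h5
          rw [e1, e2, h4, ← add_smul]
          have h6 : sg k a {a, b} + sg k b {a, b} = 0 := by linear_combination h5
          rw [h6, zero_smul, smul_zero]
        rw [hyz, h1] at h2
        exact one_ne_zero h2
    refine ⟨?_, hall⟩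
    intro F hF
    rcases F.eq_empty_or_nonempty with rfl | ⟨v, hv⟩
    · obtain ⟨G, hG, hGc⟩ := exists_card_eq_maxCard h
      exact ⟨G, hG, empty_subset _, hGc⟩
    · have hv' : {v} ∈ Δ := h.down _ hF _ (by simpa using hv)
      have hvn := hall v hv'
      obtain ⟨hp, _⟩ := ih _ (by omega) (link Δ {v}) (h.link hv') (hcm.link h hv') rfl
      have h1 : F.erase v ∈ link Δ {v} := by
        rw [h.mem_link]
        refine ⟨by simp, ?_⟩
        have : F.erase v ∪ {v} = F := by
          rw [union_comm, ← insert_eq, insert_erase hv]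
        rw [this]; exact hF
      obtain ⟨G, hG, hFG, hGc⟩ := hp _ h1
      rw [h.mem_link] at hG
      refine ⟨G ∪ {v}, hG.2, ?_, ?_⟩
      · intro x hx
        rw [mem_union, mem_singleton]
        by_cases hxv : x = v
        · exact Or.inr hxv
        · exact Or.inl (hFG (mem_erase.mpr ⟨hxv, hx⟩))
      · rw [card_union_of_disjoint hG.1, hGc, card_singleton]
        omega

theorem maxCard_link {k : Type*} [Field k] (h : IsComplex Δ) (hcm : IsCM k Δ) {v : V}
    (hv : {v} ∈ Δ) : maxCard (link Δ {v}) + 1 = maxCard Δ :=
  (pure_aux k _ Δ h hcm rfl).2 v hv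

lemma exists_factor {k Z X Y : Type*} [Field k] [AddCommGroup Z] [Module k Z] [AddCommGroup X]
    [Module k X] [AddCommGroup Y] [Module k Y] (f : Z →ₗ[k] X) (g : Z →ₗ[k] Y)
    (h : LinearMap.ker f ≤ LinearMap.ker g) : ∃ b : X →ₗ[k] Y, ∀ z, b (f z) = g z := by
  set h0 : LinearMap.range f →ₗ[k] Y :=
    ((LinearMap.ker f).liftQ g h) ∘ₗ (f.quotKerEquivRange).symm.toLinearMap with hh0
  obtain ⟨b, hb⟩ := h0.exists_extend
  refine ⟨b, fun z => ?_⟩
  have h1 : b (f z) = h0 ⟨f z, LinearMap.mem_range_self f z⟩ := by
    rw [← hb]; rfl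
  rw [h1, hh0, LinearMap.comp_apply, LinearEquiv.coe_coe]
  have h2 : f.quotKerEquivRange.symm ⟨f z, LinearMap.mem_range_self f z⟩ =
      Submodule.Quotient.mk z := by
    rw [LinearEquiv.symm_apply_eq]
    rfl
  rw [h2]
  exact Submodule.liftQ_apply _ _ _

/-- Vanishing of cohomology, with values in an arbitrary vector space. -/
theorem Acyclic.cochain {k : Type*} [Field k] {M : Type*} [AddCommGroup M] [Module k M]
    {L : Finset (Finset V)} {n i : ℕ} (hL : Acyclic k L n) (hi : i < n) (a : Finset V → M)
    (ha : ∀ G ∈ L, G.card = i + 1 → cob k a G = 0) :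
    ∃ b : Finset V → M, ∀ G ∈ L, G.card = i → cob k b G = a G := by
  set C : Submodule k (Finset V →₀ k) := Finsupp.supported k k {G | G ∈ L ∧ G.card = i} with hC
  have hker : LinearMap.ker ((bd k).domRestrict C) ≤
      LinearMap.ker ((Finsupp.linearCombination k a).domRestrict C) := by
    rintro ⟨z, hz⟩ h1
    rw [LinearMap.mem_ker, LinearMap.domRestrict_apply] at h1 ⊢
    simp only at h1 ⊢
    rw [hC, Finsupp.mem_supported] at hz
    obtain ⟨y, hy, hyz⟩ := hL i hi z (fun G hG => hz hG) h1
    rw [← hyz, linearCombination_bd, Finsupp.linearCombination_apply, Finsupp.sum]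
    refine sum_eq_zero (fun G hG => ?_)
    rw [ha G (hy G hG).1 (hy G hG).2, smul_zero]
  obtain ⟨B, hB⟩ := exists_factor (Z := C) ((bd k).domRestrict C)
    ((Finsupp.linearCombination k a).domRestrict C) hker
  refine ⟨fun G => B (Finsupp.single G 1), fun G hG hGc => ?_⟩
  have hmem : Finsupp.single G (1 : k) ∈ C := by
    rw [hC]
    exact Finsupp.single_mem_supported k _ ⟨hG, hGc⟩
  have h1 := hB ⟨_, hmem⟩
  rw [LinearMap.domRestrict_apply, LinearMap.domRestrict_apply] at h1
  simp only at h1
  rw [Finsupp.linearCombination_single, one_smul, bd_single, map_sum] at h1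
  rw [cob_apply, ← h1]
  refine sum_congr rfl (fun v _ => ?_)
  rw [← map_smul, Finsupp.smul_single, smul_eq_mul, mul_one, one_mul]

/-- Cone contraction for cochains. -/
theorem cone_cochain (k : Type*) [Field k] {M : Type*} [AddCommGroup M] [Module k M] (w : V)
    (a : Finset V → M) : ∃ b : Finset V → M, ∀ G, (w ∉ G → cob k a (insert w G) = 0) →
      cob k b G = a G := by
  refine ⟨fun F => if w ∈ F then 0 else sg k w (insert w F) • a (insert w F), fun G hG => ?_⟩
  have h1 : ∀ z : Finset V →₀ k, Finsupp.linearCombination k a (cone k w z) =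
      Finsupp.linearCombination k
        (fun F => if w ∈ F then 0 else sg k w (insert w F) • a (insert w F)) z := by
    intro z
    induction z using Finsupp.induction_linear with
    | zero => simp
    | add f g hf hg => rw [map_add, map_add, map_add, hf, hg]
    | single F c =>
      rw [Finsupp.linearCombination_single]
      by_cases hw : w ∈ F
      · rw [cone_single_of_mem k hw, map_zero, if_pos hw, smul_zero]
      · rw [cone_single_of_notMem k hw, if_neg hw, Finsupp.linearCombination_single, mul_smul]
  have h2 := congrArg (Finsupp.linearCombination k a) (bd_cone k w (Finsupp.single G 1))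
  rw [map_add, h1, linearCombination_bd, linearCombination_bd, Finsupp.linearCombination_single,
    Finsupp.linearCombination_single, one_smul, one_smul] at h2
  rw [← h2]
  have h3 : Finsupp.linearCombination k (cob k a) (cone k w (Finsupp.single G 1)) = 0 := by
    by_cases hw : w ∈ G
    · rw [cone_single_of_mem k hw, map_zero]
    · rw [cone_single_of_notMem k hw, Finsupp.linearCombination_single, hG hw, smul_zero]
  rw [h3, zero_add]

end Pool.Agent.Lib.MP_e9cf1e_co
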