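import Mathlib

set_option autoImplicit false
set_option linter.unusedSectionVars false
set_option linter.unusedVariables false

/-!
Rainbow sets of natural numbers (the colour of `x` is `x % N`), ordered colexicographically via the
weight `∑ 2 ^ x`, and initial segments of the family of rainbow `k`-sets.
-/

namespace Pool.Agent.Lib.MP_e9cf1e_co

open Finset
open scoped FinsetFamily

/-- The weight of a set of natural numbers. -/
def wt (A : Finset ℕ) : ℕ := ∑ x ∈ A, 2 ^ x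

lemma wt_lt_iff {A B : Finset ℕ} : wt A < wt B ↔ ∃ b ∈ B, b ∉ A ∧ ∀ a ∈ A, a ∉ B → a < b := by
  unfold wt
  rw [Finset.geomSum_lt_geomSum_iff_toColex_lt_toColex le_rfl]
  exact Finset.Colex.toColex_lt_toColex_iff_exists_forall_lt

lemma wt_injective : Function.Injective wt := fun A B h => Finset.geomSum_injective le_rfl h

lemma lt_wt_of_mem {A : Finset ℕ} {a : ℕ} (h : a ∈ A) : a < wt A :=
  Finset.lt_geomSum_of_mem le_rfl h

lemma wt_insert {A : Finset ℕ} {a : ℕ} (h : a ∉ A) : wt (insert a A) = 2 ^ a + wt A :=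
  sum_insert h

lemma wt_erase {A : Finset ℕ} {a : ℕ} (h : a ∈ A) : 2 ^ a + wt (A.erase a) = wt A :=
  add_sum_erase A _ h

lemma wt_lt_pow {A : Finset ℕ} {b : ℕ} (h : ∀ a ∈ A, a < b) : wt A < 2 ^ b := by
  have h1 : wt {b} = 2 ^ b := by simp [wt]
  rw [← h1, wt_lt_iff]
  refine ⟨b, mem_singleton_self b, fun hb => lt_irrefl _ (h b hb), fun a ha _ => h a ha⟩

lemma pow_le_wt {A : Finset ℕ} {b : ℕ} (h : b ∈ A) : 2 ^ b ≤ wt A := by
  rw [← wt_erase h]; omega

/-- `A` is a rainbow `k`-set with colours in `J`. -/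
structure Rb (N : ℕ) (J : Finset ℕ) (k : ℕ) (A : Finset ℕ) : Prop where
  card : A.card = k
  mem : ∀ x ∈ A, x % N ∈ J
  inj : ∀ x ∈ A, ∀ y ∈ A, x % N = y % N → x = y

/-- The colours of a set. -/
def cols (N : ℕ) (A : Finset ℕ) : Finset ℕ := A.image (· % N)

lemma mem_cols {N : ℕ} {A : Finset ℕ} {c : ℕ} : c ∈ cols N A ↔ ∃ x ∈ A, x % N = c := by
  unfold cols; rw [mem_image]

variable {N : ℕ} {J : Finset ℕ} {k : ℕ} {A B : Finset ℕ}

lemma Rb.cols_subset (h : Rb N J k A) : cols N A ⊆ J := by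
  intro c hc
  rw [mem_cols] at hc
  obtain ⟨x, hx, rfl⟩ := hc
  exact h.mem x hx

lemma Rb.card_cols (h : Rb N J k A) : (cols N A).card = k := by
  unfold cols
  rw [card_image_of_injOn, h.card]
  exact fun x hx y hy hxy => h.inj x hx y hy hxy

lemma Rb.le (h : Rb N J k A) : k ≤ J.card := by
  rw [← h.card_cols]; exact card_le_card h.cols_subset

lemma Rb.mono {J' : Finset ℕ} (h : Rb N J k A) (hJ : J ⊆ J') : Rb N J' k A :=
  ⟨h.card, fun x hx => hJ (h.mem x hx), h.inj⟩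

lemma Rb.erase (h : Rb N J (k + 1) A) {x : ℕ} (hx : x ∈ A) : Rb N (J.erase (x % N)) k (A.erase x) := by
  refine ⟨?_, ?_, ?_⟩
  · rw [card_erase_of_mem hx, h.card]; rfl
  · intro y hy
    rw [mem_erase] at hy
    rw [mem_erase]
    exact ⟨fun he => hy.1 (h.inj y hy.2 x hx he), h.mem y hy.2⟩
  · intro y hy z hz
    exact h.inj y (mem_of_mem_erase hy) z (mem_of_mem_erase hz)

lemma Rb.erase' (h : Rb N J (k + 1) A) {x : ℕ} (hx : x ∈ A) : Rb N J k (A.erase x) :=
  (h.erase hx).mono (erase_subset _ _)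

lemma Rb.insert {x : ℕ} (h : Rb N J k A) (hx : x % N ∈ J) (hc : x % N ∉ cols N A) :
    Rb N J (k + 1) (insert x A) := by
  have hxA : x ∉ A := fun hxA => hc (mem_cols.mpr ⟨x, hxA, rfl⟩)
  refine ⟨?_, ?_, ?_⟩
  · rw [card_insert_of_notMem hxA, h.card]
  · intro y hy
    rw [mem_insert] at hy
    rcases hy with rfl | hy
    · exact hx
    · exact h.mem y hy
  · intro y hy z hz hyz
    rw [mem_insert] at hy hz
    rcases hy with rfl | hy <;> rcases hz with rfl | hz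
    · rfl
    · exact absurd (mem_cols.mpr ⟨z, hz, hyz.symm⟩) hc
    · exact absurd (mem_cols.mpr ⟨y, hy, hyz⟩) hc
    · exact h.inj y hy z hz hyz

lemma Rb.insert' {x : ℕ} (h : Rb N (J.erase (x % N)) k A) (hx : x % N ∈ J) :
    Rb N J (k + 1) (Insert.insert x A) := by
  refine (h.mono (erase_subset _ _)).insert hx ?_
  intro hc
  rw [mem_cols] at hc
  obtain ⟨y, hy, hyx⟩ := hc
  have := h.mem y hy
  rw [hyx] at this
  exact notMem_erase _ _ this

/-- A family of rainbow `k`-sets. -/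
def Fam (N : ℕ) (J : Finset ℕ) (k : ℕ) (𝒜 : Finset (Finset ℕ)) : Prop := ∀ A ∈ 𝒜, Rb N J k A

/-- Initial segments. -/
structure Ini (N : ℕ) (J : Finset ℕ) (k : ℕ) (𝒜 : Finset (Finset ℕ)) : Prop where
  fam : Fam N J k 𝒜
  down : ∀ A ∈ 𝒜, ∀ B, Rb N J k B → wt B < wt A → B ∈ 𝒜

lemma Ini.down' {𝒜 : Finset (Finset ℕ)} (h : Ini N J k 𝒜) (hA : A ∈ 𝒜) (hB : Rb N J k B)
    (hle : wt B ≤ wt A) : B ∈ 𝒜 := by
  rcases lt_or_eq_of_le hle with h1 | h1
  · exact h.down A hA B hB h1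
  · rw [wt_injective h1]; exact hA

lemma Ini.total {𝒜 ℬ : Finset (Finset ℕ)} (h𝒜 : Ini N J k 𝒜) (hℬ : Ini N J k ℬ) :
    𝒜 ⊆ ℬ ∨ ℬ ⊆ 𝒜 := by
  by_contra hcon
  push Not at hcon
  obtain ⟨h1, h2⟩ := hcon
  rw [not_subset] at h1 h2
  obtain ⟨A, hA, hA'⟩ := h1
  obtain ⟨B, hB, hB'⟩ := h2
  rcases lt_trichotomy (wt A) (wt B) with h | h | h
  · exact hA' (hℬ.down B hB A (h𝒜.fam A hA) h)
  · rw [wt_injective h] at hA; exact hB' hA
  · exact hB' (h𝒜.down A hA B (hℬ.fam B hB) h)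

lemma Ini.subset_of_card_le {𝒜 ℬ : Finset (Finset ℕ)} (h𝒜 : Ini N J k 𝒜) (hℬ : Ini N J k ℬ)
    (h : 𝒜.card ≤ ℬ.card) : 𝒜 ⊆ ℬ := by
  rcases h𝒜.total hℬ with h1 | h1
  · exact h1
  · exact (eq_of_subset_of_card_le h1 h).symm.subset

lemma Ini.exists_card {𝒟 : Finset (Finset ℕ)} (h𝒟 : Ini N J k 𝒟) :
    ∀ m ≤ 𝒟.card, ∃ ℐ ⊆ 𝒟, Ini N J k ℐ ∧ ℐ.card = m := by
  intro m
  induction h : 𝒟.card generalizing 𝒟 with
  | zero =>
    intro hm
    exact ⟨𝒟, Subset.refl _, h𝒟, by omega⟩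
  | succ n ih =>
    intro hm
    by_cases hmn : m = n + 1
    · exact ⟨𝒟, Subset.refl _, h𝒟, by omega⟩
    · obtain ⟨A, hA, hmax⟩ := exists_max_image 𝒟 wt (card_pos.mp (by omega))
      have h1 : Ini N J k (𝒟.erase A) := by
        refine ⟨fun B hB => h𝒟.fam B (mem_of_mem_erase hB), ?_⟩
        intro B hB C hC hlt
        rw [mem_erase] at hB ⊢
        refine ⟨?_, h𝒟.down B hB.2 C hC hlt⟩
        rintro rfl
        have := hmax B hB.2
        omega
      obtain ⟨ℐ, h2, h3, h4⟩ := ih h1 (by rw [card_erase_of_mem hA]; omega) (by omega)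
      exact ⟨ℐ, h2.trans (erase_subset _ _), h3, h4⟩

/-- All rainbow sets of bounded weight. -/
lemma exists_ini_ge (N : ℕ) (J : Finset ℕ) (k M : ℕ) :
    ∃ 𝒟, Ini N J k 𝒟 ∧ ∀ A, Rb N J k A → wt A ≤ M → A ∈ 𝒟 := by
  classical
  refine ⟨(range (M + 1)).powerset.filter (fun A => Rb N J k A ∧ wt A ≤ M), ⟨?_, ?_⟩, ?_⟩
  · intro A hA
    rw [mem_filter] at hA
    exact hA.2.1
  · intro A hA B hB hlt
    rw [mem_filter] at hA ⊢
    have hle : wt B ≤ M := by omega
    refine ⟨?_, hB, hle⟩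
    rw [mem_powerset]
    intro x hx
    have := lt_wt_of_mem hx
    rw [mem_range]; omega
  · intro A hA hle
    rw [mem_filter]
    refine ⟨?_, hA, hle⟩
    rw [mem_powerset]
    intro x hx
    have := lt_wt_of_mem hx
    rw [mem_range]; omega

lemma Fam.exists_ini {𝒜 : Finset (Finset ℕ)} (h : Fam N J k 𝒜) :
    ∃ ℐ, Ini N J k ℐ ∧ ℐ.card = 𝒜.card := by
  classical
  obtain ⟨𝒟, h𝒟, hall⟩ := exists_ini_ge N J k (𝒜.sup wt)
  have hsub : 𝒜 ⊆ 𝒟 := fun A hA => hall A (h A hA) (le_sup (f := wt) hA)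
  obtain ⟨ℐ, _, h1, h2⟩ := h𝒟.exists_card _ (card_le_card hsub)
  exact ⟨ℐ, h1, h2⟩

lemma Ini.ext {𝒜 ℬ : Finset (Finset ℕ)} (h𝒜 : Ini N J k 𝒜) (hℬ : Ini N J k ℬ)
    (h : 𝒜.card = ℬ.card) : 𝒜 = ℬ :=
  (h𝒜.subset_of_card_le hℬ h.le).antisymm (hℬ.subset_of_card_le h𝒜 h.symm.le)

/-- Total weight. -/
def Wt (𝒜 : Finset (Finset ℕ)) : ℕ := ∑ A ∈ 𝒜, wt A

/-- Initial segments minimise the total weight. -/
lemma Ini.Wt_le {ℐ 𝒞 : Finset (Finset ℕ)} (hℐ : Ini N J k ℐ) (h𝒞 : Fam N J k 𝒞)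
    (hc : ℐ.card = 𝒞.card) : Wt ℐ ≤ Wt 𝒞 ∧ (Wt 𝒞 ≤ Wt ℐ → ℐ = 𝒞) := by
  classical
  by_cases heq : ℐ = 𝒞
  · subst heq; exact ⟨le_rfl, fun _ => rfl⟩
  have hc1 := card_sdiff_add_card_inter ℐ 𝒞
  have hc2 := card_sdiff_add_card_inter 𝒞 ℐ
  rw [inter_comm 𝒞 ℐ] at hc2
  have hne : (ℐ \ 𝒞).Nonempty := by
    rw [nonempty_iff_ne_empty]
    intro h
    rw [sdiff_eq_empty_iff_subset] at h
    exact heq (eq_of_subset_of_card_le h hc.symm.le)
  obtain ⟨A, hA, hmax⟩ := exists_max_image _ wt hne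
  rw [mem_sdiff] at hA
  have hW1 : Wt ℐ = Wt (ℐ \ 𝒞) + Wt (ℐ ∩ 𝒞) := by
    unfold Wt
    rw [← sum_union (disjoint_sdiff_inter _ _), sdiff_union_inter]
  have hW2 : Wt 𝒞 = Wt (𝒞 \ ℐ) + Wt (ℐ ∩ 𝒞) := by
    unfold Wt
    rw [inter_comm, ← sum_union (disjoint_sdiff_inter _ _), sdiff_union_inter]
  have h1 : Wt (ℐ \ 𝒞) ≤ (ℐ \ 𝒞).card * wt A := by
    unfold Wt
    exact sum_le_card_nsmul _ _ _ (fun B hB => hmax B hB)
  have h2 : (𝒞 \ ℐ).card * (wt A + 1) ≤ Wt (𝒞 \ ℐ) := by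
    unfold Wt
    rw [← smul_eq_mul]
    refine card_nsmul_le_sum (𝒞 \ ℐ) wt (wt A + 1) (fun B hB => ?_)
    rw [mem_sdiff] at hB
    rcases lt_trichotomy (wt A) (wt B) with h | h | h
    · exact h
    · exact absurd (wt_injective h ▸ hA.1) hB.2
    · exact absurd (hℐ.down A hA.1 B (h𝒞 B hB.1) h) hB.2
  have h3 : (ℐ \ 𝒞).card = (𝒞 \ ℐ).card := by omega
  have h4 : 0 < (𝒞 \ ℐ).card := by rw [← h3]; exact card_pos.mpr hne
  have h5 : Wt (ℐ \ 𝒞) < Wt (𝒞 \ ℐ) := by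
    rw [h3] at h1
    have : (𝒞 \ ℐ).card * (wt A + 1) = (𝒞 \ ℐ).card * wt A + (𝒞 \ ℐ).card := by ring
    omega
  exact ⟨by omega, fun h => by omega⟩

/-- Shadows of initial segments are initial segments. -/
lemma Ini.shadow {ℐ : Finset (Finset ℕ)} (hJ : ∀ j ∈ J, j < N) (hℐ : Ini N J (k + 1) ℐ) :
    Ini N J k (∂ ℐ) := by
  classical
  refine ⟨?_, ?_⟩
  · intro B' hB'
    rw [mem_shadow_iff] at hB'
    obtain ⟨B, hB, y, hy, rfl⟩ := hB'
    exact (hℐ.fam B hB).erase' hy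
  · intro B' hB' D hD hlt
    rw [mem_shadow_iff_insert_mem] at hB'
    obtain ⟨y, hy, hB⟩ := hB'
    have hBr := hℐ.fam _ hB
    -- the smallest vertex of a colour missing in `D`
    have hne : (J \ cols N D).Nonempty := by
      rw [← card_pos]
      have h1 := card_sdiff_add_card_eq_card hD.cols_subset
      rw [hD.card_cols] at h1
      have := hBr.le
      omega
    obtain ⟨z, hz, hmin⟩ := exists_min_image _ id hne
    rw [mem_sdiff] at hz
    simp only [id] at hmin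
    have hzN := hJ z hz.1
    have hzmod : z % N = z := Nat.mod_eq_of_lt hzN
    have hmin' : ∀ j ∈ J, j < z → j ∈ cols N D := by
      intro j hj hjz
      by_contra hcon
      have := hmin j (mem_sdiff.mpr ⟨hj, hcon⟩)
      omega
    have hDz : Rb N J (k + 1) (insert z D) := hD.insert (by rw [hzmod]; exact hz.1) (by
      rw [hzmod]; exact hz.2)
    have hzD : z ∉ D := fun h => hz.2 (mem_cols.mpr ⟨z, h, hzmod⟩)
    rw [mem_shadow_iff_insert_mem]
    refine ⟨z, hzD, hℐ.down' hB hDz ?_⟩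
    by_contra hcon
    push Not at hcon
    rw [wt_lt_iff] at hcon hlt
    obtain ⟨d, hd, hdB, hd2⟩ := hcon
    obtain ⟨x, hx, hxD, hx2⟩ := hlt
    rw [mem_insert] at hd
    -- a small vertex of `B'` missing in `D`
    have key : ∀ b ∈ insert y B', b < z → b ∉ D → ∀ d' ∈ D, d' % N = b → d' ∉ insert y B' := by
      intro b hb hbz hbD d' hd' hd'b hd'B
      have hbm : b % N = b := Nat.mod_eq_of_lt (by omega)
      have := hBr.inj d' hd'B b hb (by rw [hd'b, hbm])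
      rw [this] at hd'
      exact hbD hd'
    rcases hd with rfl | hdD
    · -- `d = z`
      have hxz : x ≠ d := by
        rintro rfl; exact hdB (mem_insert_of_mem hx)
      have hxlt : x < d := hd2 x (mem_insert_of_mem hx) (by
        rw [mem_insert]; rintro (h | h)
        · exact hxz h
        · exact hxD h)
      have hxN : x % N = x := Nat.mod_eq_of_lt (by omega)
      have hxJ : x ∈ J := by
        have := hBr.mem x (mem_insert_of_mem hx)
        rwa [hxN] at this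
      obtain ⟨d', hd', hd'x⟩ := mem_cols.mp (hmin' x hxJ hxlt)
      have h1 := key x (mem_insert_of_mem hx) hxlt hxD d' hd' hd'x
      have h2 : d' < x := hx2 d' hd' (fun h => h1 (mem_insert_of_mem h))
      have : d' % N = d' := Nat.mod_eq_of_lt (by omega)
      omega
    · have hdB' : d ∉ B' := fun h => hdB (mem_insert_of_mem h)
      have hdx : d < x := hx2 d hdD hdB'
      have hxz : x = z := by
        by_contra hne'
        have := hd2 x (mem_insert_of_mem hx) (by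
          rw [mem_insert]; rintro (h | h)
          · exact hne' h
          · exact hxD h)
        omega
      subst hxz
      -- there is an element of `B` outside `D ∪ {z}`
      obtain ⟨b, hb, hbn⟩ : ∃ b ∈ insert y B', b ∉ insert x D := by
        by_contra hcon2
        push Not at hcon2
        have := eq_of_subset_of_card_le (fun b hb => hcon2 b hb) (by rw [hBr.card, hDz.card])
        exact hdB (this ▸ mem_insert_of_mem hdD)
      have hbd : b < d := hd2 b hb hbn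
      have hbx : b < x := by omega
      have hbN : b % N = b := Nat.mod_eq_of_lt (by omega)
      have hbJ : b ∈ J := by
        have := hBr.mem b hb
        rwa [hbN] at this
      have hbD : b ∉ D := fun h => hbn (mem_insert_of_mem h)
      obtain ⟨d', hd', hd'b⟩ := mem_cols.mp (hmin' b hbJ hbx)
      have h1 := key b hb hbx hbD d' hd' hd'b
      have h2 : d' < x := hx2 d' hd' (fun h => h1 (mem_insert_of_mem h))
      have h3 : d' % N = d' := Nat.mod_eq_of_lt (by omega)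
      have : d' = b := by omega
      exact hbD (this ▸ hd')

end Pool.Agent.Lib.MP_e9cf1e_co
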