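import Pool.Agent.Lib.MP_e9cf1e_co.Defs

set_option autoImplicit false
set_option linter.unusedSectionVars false
set_option linter.unusedVariables false

/-!
Basic facts on simplicial chains and cochains.
-/

namespace Pool.Agent.Lib.MP_e9cf1e_co

open Finset

variable {V : Type*} [LinearOrder V]

/-- The sign of `v` in `F`. -/
def sg (R : Type*) [Ring R] (v : V) (F : Finset V) : R :=
  (-1) ^ (F.filter (fun u => u < v)).card

section sg

variable {R : Type*} [CommRing R] {u v : V} {F G : Finset V}

lemma sg_mul_self : sg R v F * sg R v F = 1 := by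
  unfold sg
  rw [← pow_add, Even.neg_one_pow]
  exact ⟨_, rfl⟩

lemma sg_singleton : sg R v {v} = 1 := by
  unfold sg
  rw [filter_singleton, if_neg (lt_irrefl _), card_empty, pow_zero]

lemma sg_erase_of_lt (h : u < v) : sg R u (F.erase v) = sg R u F := by
  unfold sg
  congr 2
  ext x
  rw [mem_filter, mem_filter, mem_erase]
  constructor
  · rintro ⟨⟨_, h1⟩, h2⟩; exact ⟨h1, h2⟩
  · rintro ⟨h1, h2⟩
    exact ⟨⟨fun h3 => absurd (h3 ▸ h2) (not_lt.mpr h.le), h1⟩, h2⟩

lemma sg_erase_of_gt (h : u < v) (hu : u ∈ F) : sg R v (F.erase u) = - sg R v F := by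
  unfold sg
  have h1 : (F.filter (fun x => x < v)) = insert u ((F.erase u).filter (fun x => x < v)) := by
    ext x
    rw [mem_insert, mem_filter, mem_filter, mem_erase]
    constructor
    · rintro ⟨h1, h2⟩
      by_cases hx : x = u
      · exact Or.inl hx
      · exact Or.inr ⟨⟨hx, h1⟩, h2⟩
    · rintro (rfl | ⟨⟨_, h1⟩, h2⟩)
      · exact ⟨hu, h⟩
      · exact ⟨h1, h2⟩
  rw [h1, card_insert_of_notMem (by simp), pow_succ]
  ring

lemma sg_comm (huv : u ≠ v) (hu : u ∈ G) (hv : v ∈ G) :
    sg R u (G.erase v) * sg R v (G.erase u) = - (sg R u G * sg R v G) := by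
  rcases lt_or_gt_of_ne huv with h | h
  · rw [sg_erase_of_lt h, sg_erase_of_gt h hu]; ring
  · rw [sg_erase_of_lt h, sg_erase_of_gt h hv]; ring

lemma sg_comm' (huv : u ≠ v) (hu : u ∈ G) (hv : v ∈ G) :
    sg R v G * sg R u (G.erase v) = - (sg R u G * sg R v (G.erase u)) := by
  rcases lt_or_gt_of_ne huv with h | h
  · rw [sg_erase_of_lt h, sg_erase_of_gt h hu]; ring
  · rw [sg_erase_of_lt h, sg_erase_of_gt h hv]; ring

end sg

section cochains

variable {R M : Type*} [CommRing R] [AddCommGroup M] [Module R M]

/-- The coboundary map. -/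
def cob (R : Type*) {M : Type*} [CommRing R] [AddCommGroup M] [Module R M] :
    (Finset V → M) →ₗ[R] (Finset V → M) where
  toFun c := fun G => ∑ v ∈ G, sg R v G • c (G.erase v)
  map_add' a b := by
    funext G
    simp only [Pi.add_apply, smul_add, sum_add_distrib]
  map_smul' r a := by
    funext G
    simp only [Pi.smul_apply, RingHom.id_apply, smul_sum]
    exact sum_congr rfl (fun v _ => smul_comm _ _ _)

lemma cob_apply (c : Finset V → M) (G : Finset V) :
    cob R c G = ∑ v ∈ G, sg R v G • c (G.erase v) := rfl

lemma cob_cob (c : Finset V → M) : cob R (cob R c) = 0 := by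
  funext G
  rw [cob_apply]
  simp only [cob_apply, smul_sum, smul_smul, Pi.zero_apply]
  rw [sum_sigma']
  refine sum_involution (fun p _ => ⟨p.2, p.1⟩) ?_ ?_ ?_ ?_
  · rintro ⟨v, u⟩ h
    rw [mem_sigma] at h
    simp only at h ⊢
    have hu := mem_erase.mp h.2
    rw [sg_comm' hu.1 hu.2 h.1, erase_right_comm, neg_smul, neg_add_cancel]
  · rintro ⟨v, u⟩ h _ heq
    rw [mem_sigma] at h
    have hu := mem_erase.mp h.2
    have := congrArg Sigma.fst heq
    exact hu.1 this
  · rintro ⟨v, u⟩ h
    rw [mem_sigma] at h ⊢
    simp only at h ⊢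
    have hu := mem_erase.mp h.2
    exact ⟨hu.2, mem_erase.mpr ⟨hu.1.symm, h.1⟩⟩
  · rintro ⟨v, u⟩ h
    rfl

end cochains

section chains

variable (k : Type*) [Field k]

lemma bd_single (F : Finset V) (c : k) :
    bd k (Finsupp.single F c) = ∑ v ∈ F, Finsupp.single (F.erase v) (c * sg k v F) := by
  unfold bd
  rw [Finsupp.linearCombination_single, smul_sum]
  refine sum_congr rfl (fun v _ => ?_)
  rw [smul_smul, Finsupp.smul_single, smul_eq_mul, mul_one]
  rfl

/-- Coning with `w`. -/
noncomputable def cone (w : V) : (Finset V →₀ k) →ₗ[k] (Finset V →₀ k) :=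
  Finsupp.linearCombination k
    (fun F => if w ∈ F then 0 else Finsupp.single (insert w F) (sg k w (insert w F)))

lemma cone_single_of_mem {w : V} {F : Finset V} (h : w ∈ F) (c : k) :
    cone k w (Finsupp.single F c) = 0 := by
  unfold cone
  rw [Finsupp.linearCombination_single, if_pos h, smul_zero]

lemma cone_single_of_notMem {w : V} {F : Finset V} (h : w ∉ F) (c : k) :
    cone k w (Finsupp.single F c) = Finsupp.single (insert w F) (c * sg k w (insert w F)) := by
  unfold cone
  rw [Finsupp.linearCombination_single, if_neg h, Finsupp.smul_single, smul_eq_mul]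

/-- The homotopy formula. -/
theorem bd_cone (w : V) (z : Finset V →₀ k) : bd k (cone k w z) + cone k w (bd k z) = z := by
  induction z using Finsupp.induction_linear with
  | zero => simp
  | add f g hf hg =>
    rw [map_add, map_add, map_add, map_add]
    nth_rewrite 3 [← hf]
    nth_rewrite 3 [← hg]
    abel
  | single F c =>
    by_cases hw : w ∈ F
    · rw [cone_single_of_mem k hw, map_zero, zero_add, bd_single, map_sum,
        sum_eq_single_of_mem w hw]
      · rw [cone_single_of_notMem k (notMem_erase _ _), insert_erase hw, mul_assoc, sg_mul_self,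
          mul_one]
      · intro v hv hvw
        rw [cone_single_of_mem k (mem_erase.mpr ⟨hvw.symm, hw⟩)]
    · rw [cone_single_of_notMem k hw, bd_single, bd_single, map_sum, sum_insert hw,
        erase_insert hw, mul_assoc, sg_mul_self, mul_one, add_assoc, ← sum_add_distrib,
        sum_eq_zero, add_zero]
      intro v hv
      have hvw : v ≠ w := fun h => hw (h ▸ hv)
      rw [cone_single_of_notMem k (fun h => hw (mem_of_mem_erase h)),
        erase_insert_of_ne hvw.symm, ← Finsupp.single_add]
      have h1 := sg_comm (R := k) hvw (mem_insert_of_mem hv) (mem_insert_self w F)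
      rw [erase_insert hw, erase_insert_of_ne hvw.symm] at h1
      have h2 : c * sg k w (insert w F) * sg k v (insert w F) +
          c * sg k v F * sg k w (insert w (F.erase v)) = 0 := by
        linear_combination c * h1
      rw [h2, Finsupp.single_zero]

/-- Duality between boundary and coboundary. -/
lemma linearCombination_bd {M : Type*} [AddCommGroup M] [Module k M] (a : Finset V → M)
    (z : Finset V →₀ k) :
    Finsupp.linearCombination k a (bd k z) = Finsupp.linearCombination k (cob k a) z := by
  induction z using Finsupp.induction_linear with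
  | zero => simp
  | add f g hf hg => rw [map_add, map_add, map_add, hf, hg]
  | single F c =>
    rw [bd_single, map_sum, Finsupp.linearCombination_single, cob_apply, smul_sum]
    refine sum_congr rfl (fun v _ => ?_)
    rw [Finsupp.linearCombination_single, mul_smul]

end chains

end Pool.Agent.Lib.MP_e9cf1e_co
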